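import Pool.Agent.Helper294.HallC.Defs

/-! Basic facts on polycyclic groups (vendored from the solved market jobs 14118, 14123, 14122,
14115, 14113, 14108 of helper933). -/

set_option autoImplicit false

namespace Pool.Agent.Helper294.HallC

-- job 14118
section PcInd

/-- The maximal condition on subgroups. -/
abbrev MaxC (G : Type*) [Group G] : Prop := ∀ S : Subgroup G, S.FG

variable {G : Type*} [Group G]

theorem MaxC.fg (h : MaxC G) : Group.FG G := Group.fg_def.mpr (h ⊤)

theorem MaxC.sub (h : MaxC G) (S : Subgroup G) : Group.FG ↥S :=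
  (Group.fg_iff_subgroup_fg S).mpr (h S)

theorem MaxC.of_injective {G' : Type*} [Group G'] (h : MaxC G) (f : G' →* G)
    (hf : Function.Injective f) : MaxC G' := by
  intro S
  rw [← Group.fg_iff_subgroup_fg]
  have h1 : Group.FG ↥(S.map f) := h.sub _
  let e := (Subgroup.equivMapOfInjective S f hf).symm
  exact Group.fg_of_surjective (f := e.toMonoidHom) e.surjective

theorem MaxC.of_surjective {G' : Type*} [Group G'] (h : MaxC G) (f : G →* G')
    (hf : Function.Surjective f) : MaxC G' := by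
  intro S
  rw [← Group.fg_iff_subgroup_fg]
  have h1 : Group.FG ↥(S.comap f) := h.sub _
  exact Group.fg_of_surjective (f := f.subgroupComap S)
    (f.subgroupComap_surjective_of_surjective S hf)

theorem MaxC.wf (h : MaxC G) : WellFoundedGT (Subgroup G) := by
  rw [wellFoundedGT_iff_monotone_chain_condition]
  intro a
  obtain ⟨s, hs⟩ := h (⨆ n, a n)
  have hdir : Directed (· ≤ ·) a := a.monotone.directed_le
  have hmem : ∀ x ∈ s, ∃ n, x ∈ a n := by
    intro x hx
    have : x ∈ ⨆ n, a n := by rw [← hs]; exact Subgroup.subset_closure hx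
    exact (Subgroup.mem_iSup_of_directed hdir).mp this
  choose! n hn using hmem
  refine ⟨s.sup n, fun m hm => le_antisymm (a.monotone hm) ?_⟩
  refine (le_iSup a m).trans ?_
  rw [← hs, Subgroup.closure_le]
  intro x hx
  exact a.monotone (Finset.le_sup hx) (hn x hx)

theorem MaxC.exists_max (h : MaxC G) (𝒮 : Set (Subgroup G)) (hne : 𝒮.Nonempty) :
    ∃ M ∈ 𝒮, ∀ S ∈ 𝒮, M ≤ S → S ≤ M := by
  obtain ⟨M, hM, hmax⟩ := h.wf.wf.has_min 𝒮 hne
  refine ⟨M, hM, fun S hS hle => ?_⟩
  by_contra hc
  exact hmax S hS (lt_of_le_not_ge hle hc)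

/-! ### Virtual covering -/

theorem zpow_conj_mem {S : Subgroup G} {t : G} (ht : t ∈ Subgroup.normalizer (S : Set G)) (k : ℤ)
    {x : G} (hx : x ∈ S) : t ^ k * x * t ^ (-k) ∈ S := by
  have h := Subgroup.zpow_mem _ ht k
  have := (Subgroup.mem_normalizer_iff.mp h x).mp hx
  rwa [← zpow_neg] at this

theorem zpow_conj_mem' {S : Subgroup G} {t : G} (ht : t ∈ Subgroup.normalizer (S : Set G)) (k : ℤ)
    {x : G} (hx : x ∈ S) : t ^ (-k) * x * t ^ k ∈ S := by
  have := zpow_conj_mem ht (-k) hx
  rwa [neg_neg] at this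

/-- The subgroup generated by `S` and an element normalising it. -/
def adj (S : Subgroup G) (t : G) (ht : t ∈ Subgroup.normalizer (S : Set G)) : Subgroup G where
  carrier := {x | ∃ k : ℤ, t ^ (-k) * x ∈ S}
  one_mem' := ⟨0, by simp⟩
  mul_mem' := by
    rintro x y ⟨k, hk⟩ ⟨l, hl⟩
    refine ⟨k + l, ?_⟩
    have := S.mul_mem (zpow_conj_mem' ht l hk) hl
    convert this using 1
    rw [neg_add, add_comm, zpow_add]
    simp [mul_assoc]
  inv_mem' := by
    rintro x ⟨k, hk⟩
    refine ⟨-k, ?_⟩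
    have := zpow_conj_mem ht k (S.inv_mem hk)
    convert this using 1
    simp [mul_assoc]

theorem mem_adj {S : Subgroup G} {t : G} {ht : t ∈ Subgroup.normalizer (S : Set G)} {x : G} :
    x ∈ adj S t ht ↔ ∃ k : ℤ, t ^ (-k) * x ∈ S := Iff.rfl

theorem le_adj {S : Subgroup G} {t : G} {ht : t ∈ Subgroup.normalizer (S : Set G)} :
    S ≤ adj S t ht := fun x hx => ⟨0, by simpa using hx⟩

theorem self_mem_adj {S : Subgroup G} {t : G} {ht : t ∈ Subgroup.normalizer (S : Set G)} :
    t ∈ adj S t ht := ⟨1, by simp⟩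

theorem polyInd (hG : MaxC G) (hs : Group.IsSolvable G) (Pr : Subgroup G → Prop) (h0 : Pr ⊥)
    (hstep : ∀ (R : Subgroup G) (t : G) (ht : t ∈ Subgroup.normalizer (R : Set G)),
      Pr R → Pr (adj R t ht)) : Pr ⊤ := by
  obtain ⟨n, hn⟩ := hs.solvable
  have key : ∀ i ≤ n, Pr (derivedSeries G (n - i)) := by
    intro i
    induction i with
    | zero => intro _; rw [Nat.sub_zero, hn]; exact h0
    | succ i ih =>
      intro hi
      have ihi := ih (by omega)
      set j := n - (i + 1) with hj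
      have hj1 : n - i = j + 1 := by omega
      rw [hj1] at ihi
      obtain ⟨M, ⟨hM1, hM2, hM3⟩, hmax⟩ := hG.exists_max
        {R | derivedSeries G (j + 1) ≤ R ∧ R ≤ derivedSeries G j ∧ Pr R}
        ⟨_, le_rfl, derivedSeries_antitone G (Nat.le_succ j), ihi⟩
      by_contra hcon
      have hne : ∃ t ∈ derivedSeries G j, t ∉ M := by
        by_contra hc
        push Not at hc
        exact hcon (le_antisymm hM2 hc ▸ hM3)
      obtain ⟨t, htD, htM⟩ := hne
      have hcomm : ∀ x ∈ derivedSeries G j, ∀ y ∈ derivedSeries G j, x * y * x⁻¹ * y⁻¹ ∈ M := by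
        intro x hx y hy
        apply hM1
        rw [derivedSeries_succ]
        exact Subgroup.commutator_mem_commutator hx hy
      have ht : t ∈ Subgroup.normalizer (M : Set G) := by
        rw [Subgroup.mem_normalizer_iff]
        intro x
        constructor
        · intro hx
          have := M.mul_mem (hcomm t htD x (hM2 hx)) hx
          simpa using this
        · intro hx
          have h1 : x ∈ derivedSeries G j := by
            have := (derivedSeries G j).mul_mem ((derivedSeries G j).mul_mem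
              ((derivedSeries G j).inv_mem htD) (hM2 hx)) htD
            simpa [mul_assoc] using this
          have := M.mul_mem (M.inv_mem (hcomm t htD x h1)) hx
          simpa [mul_assoc] using this
      have h2 := hmax (adj M t ht) ⟨hM1.trans le_adj, ?_, hstep M t ht hM3⟩ le_adj
      · exact htM (h2 self_mem_adj)
      · rintro x ⟨k, hk⟩
        have := (derivedSeries G j).mul_mem ((derivedSeries G j).zpow_mem htD k) (hM2 hk)
        simpa using this
  have := key n le_rfl
  rwa [Nat.sub_self, derivedSeries_zero] at this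

end PcInd

/-- polycyclic induction. -/
theorem poly_ind {Q : Type} [Group Q] (h : PC Q) (Pr : Subgroup Q → Prop) (h0 : Pr ⊥)
    (hstep : ∀ (R P : Subgroup Q) (t : Q), R ≤ P → t ∈ P → (∀ x, x ∈ R ↔ t * x * t⁻¹ ∈ R) →
      (∀ x ∈ P, ∃ k : ℤ, t ^ (-k) * x ∈ R) → Pr R → Pr P) : Pr ⊤ := by
  apply polyInd h.2 h.1 Pr h0
  intro R t ht hR
  exact hstep R (adj R t ht) t le_adj self_mem_adj (Subgroup.mem_normalizer_iff.mp ht)
    (fun x hx => hx) hR

-- job 14123
theorem hl_ext_key {Q : Type} [Group Q] (E : Subgroup Q) [E.Normal] (A B : Subgroup Q) (hAB : A ≤ B)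
    (h1 : (A.subgroupOf E).relIndex (B.subgroupOf E) ≠ 0)
    (h2 : (A.map (QuotientGroup.mk' E)).relIndex (B.map (QuotientGroup.mk' E)) ≠ 0) :
    A.relIndex B ≠ 0 := by
  have h1' : A.relIndex (B ⊓ E) ≠ 0 := by
    rw [← Subgroup.inf_subgroupOf_right B E, Subgroup.relIndex_subgroupOf inf_le_right] at h1
    exact h1
  rw [Subgroup.relIndex_map_map, QuotientGroup.ker_mk'] at h2
  have h3 : (A ⊔ E).relIndex B ≠ 0 := fun h0 => h2 (Subgroup.relIndex_eq_zero_of_le_right le_sup_left h0)
  have h4 : (B ⊓ (A ⊔ E)).relIndex B ≠ 0 := by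
    rw [Subgroup.inf_relIndex_left]; exact h3
  have hle : B ⊓ E ≤ B ⊓ (A ⊔ E) := inf_le_inf_left B le_sup_right
  have h5 : A.relIndex (B ⊓ (A ⊔ E)) ≠ 0 := by
    haveI hf : Finite (↥(B ⊓ E) ⧸ A.subgroupOf (B ⊓ E)) := by
      have : (A.subgroupOf (B ⊓ E)).index ≠ 0 := h1'
      exact Nat.finite_of_card_ne_zero this
    have hsurj : Function.Surjective (Subgroup.quotientSubgroupOfEmbeddingOfLE A hle) := by
      intro y
      induction y using QuotientGroup.induction_on with
      | H x =>
        obtain ⟨x, hx⟩ := x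
        have hx2 : x ∈ E ⊔ A := by rw [sup_comm]; exact hx.2
        obtain ⟨e, he, a, ha, rfl⟩ := Subgroup.mem_sup_of_normal_left.1 hx2
        have heB : e ∈ B := by
          have := B.mul_mem hx.1 (B.inv_mem (hAB ha))
          simpa using this
        refine ⟨QuotientGroup.mk (⟨e, heB, he⟩ : ↥(B ⊓ E)), ?_⟩
        rw [Subgroup.quotientSubgroupOfEmbeddingOfLE_apply_mk]
        rw [QuotientGroup.eq]
        rw [Subgroup.mem_subgroupOf]
        show (e)⁻¹ * (e * a) ∈ A
        simpa using ha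
    have hf2 : Finite (↥(B ⊓ (A ⊔ E)) ⧸ A.subgroupOf (B ⊓ (A ⊔ E))) := Finite.of_surjective _ hsurj
    have : (A.subgroupOf (B ⊓ (A ⊔ E))).index ≠ 0 := by
      exact Nat.card_pos.ne'
    exact this
  exact Subgroup.relIndex_ne_zero_trans h5 h4

theorem hl_ext {Q : Type} [Group Q] {a b : ℕ} (E : Subgroup Q) [E.Normal] (h1 : HL E a)
    (h2 : HL (Q ⧸ E) b) : HL Q (a + b) := by
  classical
  intro H hH s hs
  have e1 := h1 (fun i => (H i).subgroupOf E) (fun i j hij => Subgroup.comap_mono (hH hij))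
    (s.filter (fun i => ((H i).subgroupOf E).relIndex ((H (i + 1)).subgroupOf E) = 0))
    (fun i hi => (Finset.mem_filter.1 hi).2)
  have e2 := h2 (fun i => (H i).map (QuotientGroup.mk' E)) (fun i j hij => Subgroup.map_mono (hH hij))
    (s.filter (fun i => ((H i).map (QuotientGroup.mk' E)).relIndex
      ((H (i + 1)).map (QuotientGroup.mk' E)) = 0))
    (fun i hi => (Finset.mem_filter.1 hi).2)
  have hsub : s ⊆ s.filter (fun i => ((H i).subgroupOf E).relIndex ((H (i + 1)).subgroupOf E) = 0) ∪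
      s.filter (fun i => ((H i).map (QuotientGroup.mk' E)).relIndex
      ((H (i + 1)).map (QuotientGroup.mk' E)) = 0) := by
    intro i hi
    rw [Finset.mem_union, Finset.mem_filter, Finset.mem_filter]
    by_contra hc
    push Not at hc
    exact hl_ext_key E (H i) (H (i + 1)) (hH (Nat.le_succ i)) (hc.1 hi) (hc.2 hi) (hs i hi)
  calc s.card ≤ _ := Finset.card_le_card hsub
    _ ≤ _ := Finset.card_union_le _ _
    _ ≤ a + b := add_le_add e1 e2

-- job 14122
theorem hl_aux_index {C : Type} [Group C] (c : C) (hc : ∀ x : C, ∃ k : ℤ, x = c ^ k)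
    (H : Subgroup C) (hH : H ≠ ⊥) : H.index ≠ 0 := by
  obtain ⟨x, hx, hx1⟩ : ∃ x, x ∈ H ∧ x ≠ 1 := by
    obtain ⟨a, ha⟩ := Subgroup.ne_bot_iff_exists_ne_one.mp hH
    exact ⟨a.1, a.2, fun h => ha (Subtype.ext h)⟩
  obtain ⟨k, rfl⟩ := hc x
  have hk : k ≠ 0 := by
    rintro rfl
    simp at hx1
  have hfin : Finite (C ⧸ H) := by
    haveI : NeZero k.natAbs := ⟨by simpa using hk⟩
    refine Finite.of_surjective (fun r : Fin k.natAbs => (QuotientGroup.mk (c ^ (r : ℕ)) : C ⧸ H)) ?_
    intro q
    obtain ⟨y, rfl⟩ := QuotientGroup.mk_surjective q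
    obtain ⟨m, rfl⟩ := hc y
    have h1 : 0 ≤ m % k := Int.emod_nonneg _ hk
    have h2 : m % k < |k| := Int.emod_lt_abs _ hk
    refine ⟨⟨(m % k).toNat, ?_⟩, ?_⟩
    · zify
      rw [Int.toNat_of_nonneg h1]
      exact h2
    · simp only
      rw [QuotientGroup.eq]
      have h3 : (c ^ (m % k).toNat : C) = c ^ (m % k) := by
        rw [← zpow_natCast, Int.toNat_of_nonneg h1]
      rw [h3, ← zpow_neg, ← zpow_add]
      have h4 : -(m % k) + m = k * (m / k) := by
        have := Int.emod_add_mul_ediv m k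
        linarith
      rw [h4, zpow_mul]
      exact H.zpow_mem hx _
  exact Subgroup.index_ne_zero_of_finite

theorem hl_aux_cyc {C : Type} [Group C] (c : C) (hc : ∀ x : C, ∃ k : ℤ, x = c ^ k) : HL C 1 := by
  intro H hH s hs
  rw [Finset.card_le_one]
  by_contra hcon
  push Not at hcon
  obtain ⟨a, ha, b, hb, hab⟩ := hcon
  have key : ∀ i j : ℕ, i ∈ s → j ∈ s → i < j → False := by
    intro i j hi hj hij
    have h1 : H (i + 1) ≠ ⊥ := by
      intro h
      have h0 := hs i hi
      rw [h] at h0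
      have : H i = ⊥ := le_bot_iff.mp (h ▸ hH (Nat.le_succ i))
      rw [this] at h0
      simp at h0
    have h2 : H j ≠ ⊥ := by
      intro h
      exact h1 (le_bot_iff.mp (h ▸ hH (Nat.succ_le_of_lt hij)))
    have h3 := hl_aux_index c hc (H j) h2
    have h4 := hs j hj
    have h5 : (H j).relIndex (H (j + 1)) ∣ (H j).index := Subgroup.relIndex_dvd_index_of_le (hH (Nat.le_succ j))
    rw [h4] at h5
    exact h3 (Nat.eq_zero_of_zero_dvd h5)
  rcases lt_or_gt_of_ne hab with h | h
  · exact key a b ha hb h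
  · exact key b a hb ha h

theorem hl_aux_equiv {C D : Type} [Group C] [Group D] (e : C ≃* D) {n : ℕ} (h : HL D n) :
    HL C n := by
  intro H hH s hs
  refine h (fun i => (H i).map (e : C →* D)) (fun i j hij => Subgroup.map_mono (hH hij)) s ?_
  intro i hi
  have := hs i hi
  rw [Subgroup.relIndex_map_map_of_injective]
  · exact this
  · exact e.injective



theorem hl_exists {Q : Type} [Group Q] (h : PC Q) : ∃ n, HL Q n := by
  have main : ∃ n, HL (⊤ : Subgroup Q) n := by
    refine poly_ind h (fun R => ∃ n, HL R n) ?_ ?_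
    · refine ⟨0, ?_⟩
      intro H hH s hs
      rw [Nat.le_zero, Finset.card_eq_zero]
      by_contra hne
      obtain ⟨i, hi⟩ := Finset.nonempty_iff_ne_empty.mpr hne
      have h1 := hs i hi
      have h2 : H i = H (i + 1) := Subsingleton.elim _ _
      rw [h2] at h1
      simp at h1
    · rintro R P t hRP ht hconj hgen ⟨n, hn⟩
      refine ⟨n + 1, ?_⟩
      have hz : ∀ (k : ℤ) (x : Q), x ∈ R ↔ t ^ k * x * (t ^ k)⁻¹ ∈ R := by
        intro k
        induction k using Int.induction_on with
        | zero => intro x; simp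
        | succ m ih =>
          intro x
          rw [hconj x, ih (t * x * t⁻¹)]
          have : t ^ (m : ℤ) * (t * x * t⁻¹) * (t ^ (m : ℤ))⁻¹
              = t ^ ((m : ℤ) + 1) * x * (t ^ ((m : ℤ) + 1))⁻¹ := by
            rw [zpow_add_one]; group
          rw [this]
        | pred m ih =>
          intro x
          rw [hconj (t ^ (-(m : ℤ) - 1) * x * (t ^ (-(m : ℤ) - 1))⁻¹)]
          rw [ih x]
          have : t * (t ^ (-(m : ℤ) - 1) * x * (t ^ (-(m : ℤ) - 1))⁻¹) * t⁻¹
              = t ^ (-(m : ℤ)) * x * (t ^ (-(m : ℤ)))⁻¹ := by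
            rw [zpow_sub_one]; group
          rw [this]
      haveI hE : (R.subgroupOf P).Normal := by
        refine ⟨?_⟩
        rintro ⟨x, hx⟩ hxR ⟨g, hg⟩
        rw [Subgroup.mem_subgroupOf] at hxR ⊢
        simp only [Subgroup.coe_mul, Subgroup.coe_inv] at hxR ⊢
        obtain ⟨k, hk⟩ := hgen g hg
        have h1 : (t ^ (-k) * g) * x * (t ^ (-k) * g)⁻¹ ∈ R :=
          R.mul_mem (R.mul_mem hk hxR) (R.inv_mem hk)
        have h2 := (hz k _).mp h1
        have h3 : t ^ k * (t ^ (-k) * g * x * (t ^ (-k) * g)⁻¹) * (t ^ k)⁻¹ = g * x * g⁻¹ := by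
          rw [zpow_neg]; group
        rwa [h3] at h2
      refine hl_ext (R.subgroupOf P) (hl_aux_equiv (Subgroup.subgroupOfEquivOfLe hRP) hn) ?_
      refine hl_aux_cyc ((QuotientGroup.mk (⟨t, ht⟩ : P)) : P ⧸ R.subgroupOf P) ?_
      intro q
      obtain ⟨⟨y, hy⟩, rfl⟩ := QuotientGroup.mk_surjective q
      obtain ⟨k, hk⟩ := hgen y hy
      refine ⟨k, ?_⟩
      rw [← QuotientGroup.mk_zpow, eq_comm, QuotientGroup.eq, Subgroup.mem_subgroupOf]
      simpa [zpow_neg] using hk
  obtain ⟨n, hn⟩ := main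
  exact ⟨n, hl_aux_equiv Subgroup.topEquiv.symm hn⟩

-- job 14115
theorem pc_surj {Q Q' : Type} [Group Q] [Group Q'] (h : PC Q) (f : Q →* Q')
    (hf : Function.Surjective f) : PC Q' := by
  obtain ⟨h1, h2⟩ := h
  have h1' : Group.IsSolvable Q := h1
  have h3 : Group.IsSolvable Q' := Group.isSolvable_of_surjective hf
  refine ⟨h3, fun H => ?_⟩
  have e : (H.comap f).map f = H := Subgroup.map_comap_eq_self_of_surjective hf H
  rw [← e]
  obtain ⟨S, hS⟩ := h2 (H.comap f)
  classical
  refine ⟨S.image f, ?_⟩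
  rw [Finset.coe_image, ← MonoidHom.map_closure, hS]

-- job 14113
theorem pc_sub {Q : Type} [Group Q] (h : PC Q) (H : Subgroup Q) : PC H := by
  obtain ⟨h1, h2⟩ := h
  have : Group.IsSolvable Q := h1
  refine ⟨Group.isSolvable_of_isSolvable_injective (f := H.subtype) H.subtype_injective,
    fun K => ?_⟩
  have h3 : Group.FG (K.map H.subtype) := (Group.fg_iff_subgroup_fg _).2 (h2 _)
  rw [← Group.fg_iff_subgroup_fg]
  exact Group.fg_of_surjective (f := (K.equivMapOfInjective H.subtype
    H.subtype_injective).symm.toMonoidHom) (K.equivMapOfInjective H.subtype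
    H.subtype_injective).symm.surjective

-- job 14108
theorem hl_sub {Q : Type} [Group Q] {n : ℕ} (h : HL Q n) (H : Subgroup Q) : HL H n := by
  intro F hF s hs
  refine h (fun i => (F i).map H.subtype) (fun i j hij => Subgroup.map_mono (hF hij)) s ?_
  intro i hi
  show ((F i).map H.subtype).relIndex ((F (i + 1)).map H.subtype) = 0
  rw [Subgroup.relIndex_map_map_of_injective _ _ H.subtype_injective]
  exact hs i hi

end Pool.Agent.Helper294.HallC
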