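import Pool.Agent.Helper294.HallC.Defs

set_option autoImplicit false

namespace Pool.Agent.Helper294.HallC


theorem idx_bound_reps {Γ : Type} [Group Γ] (e : ℕ) (he : 0 < e) (s : ℕ) : ∀ (H P : Subgroup Γ),
    Ser s H → P ≤ H → (∀ x ∈ H, x ^ e ∈ P) →
    ∃ T : Finset Γ, T.card ≤ e ^ s ∧ ∀ h ∈ H, ∃ z ∈ T, z⁻¹ * h ∈ P := by
  classical
  induction s with
  | zero =>
    intro H P hs hP hx
    have hH : H = ⊥ := hs
    refine ⟨{1}, by simp, fun h hh => ⟨1, by simp, ?_⟩⟩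
    rw [hH, Subgroup.mem_bot] at hh
    rw [hh, mul_one, inv_one]
    exact P.one_mem
  | succ s ih =>
    intro H P hs hP hx
    obtain ⟨H', t, hH', ht, htn, hk, hs'⟩ := hs
    obtain ⟨T', hT', hrep⟩ := ih H' (P ⊓ H') hs' inf_le_right
      (fun x hxH => ⟨hx x (hH' hxH), H'.pow_mem hxH e⟩)
    refine ⟨(Finset.range e ×ˢ T').image (fun p => t ^ p.1 * p.2), ?_, ?_⟩
    · refine Finset.card_image_le.trans ?_
      rw [Finset.card_product, Finset.card_range, pow_succ, mul_comm (e ^ s)]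
      exact Nat.mul_le_mul_left _ hT'
    · intro h hh
      obtain ⟨k, hk'⟩ := hk h hh
      have he' : (0 : ℤ) < e := by exact_mod_cast he
      obtain ⟨r, hr⟩ : ∃ r : ℕ, (r : ℤ) = k % e :=
        ⟨(k % e).toNat, Int.toNat_of_nonneg (Int.emod_nonneg _ he'.ne')⟩
      have hre : r < e := by
        have := Int.emod_lt_of_pos k he'
        rw [← hr] at this
        exact_mod_cast this
      have hkk : k = r + e * (k / e) := by
        rw [hr]
        exact (Int.emod_add_mul_ediv k e).symm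
      have hnorm : t ∈ Subgroup.normalizer (H' : Set Γ) := fun n => htn n
      have hx'' : t ^ ((e : ℤ) * (k / e)) * (t ^ (-k) * h) * (t ^ ((e : ℤ) * (k / e)))⁻¹ ∈ H' :=
        ((Subgroup.normalizer (H' : Set Γ)).zpow_mem hnorm ((e : ℤ) * (k / e)) _).mp hk'
      obtain ⟨z, hz, hzP⟩ := hrep _ hx''
      refine ⟨t ^ r * z, Finset.mem_image.mpr ⟨(r, z),
        Finset.mem_product.mpr ⟨Finset.mem_range.mpr hre, hz⟩, rfl⟩, ?_⟩
      have hteP : t ^ ((e : ℤ) * (k / e)) ∈ P := by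
        rw [zpow_mul]
        refine P.zpow_mem ?_ _
        rw [zpow_natCast]
        exact hx t ht
      have h1 := P.mul_mem hzP.1 hteP
      have h2 : z⁻¹ * (t ^ ((e : ℤ) * (k / e)) * (t ^ (-k) * h) * (t ^ ((e : ℤ) * (k / e)))⁻¹) *
          t ^ ((e : ℤ) * (k / e)) = (t ^ r * z)⁻¹ * h := by
        have h3 : t ^ ((e : ℤ) * (k / e)) * t ^ (-k) = (t ^ r)⁻¹ := by
          rw [← zpow_add, ← zpow_natCast, ← zpow_neg]
          congr 1
          linarith
        calc z⁻¹ * (t ^ ((e : ℤ) * (k / e)) * (t ^ (-k) * h) * (t ^ ((e : ℤ) * (k / e)))⁻¹) *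
              t ^ ((e : ℤ) * (k / e)) = z⁻¹ * (t ^ ((e : ℤ) * (k / e)) * t ^ (-k)) * h := by group
          _ = (t ^ r * z)⁻¹ * h := by rw [h3, mul_inv_rev]
      rw [← h2]
      exact h1

theorem idx_bound {Γ : Type} [Group Γ] {s e : ℕ} (he : 0 < e) {H P : Subgroup Γ} (hs : Ser s H)
    (hP : P ≤ H) (hx : ∀ x ∈ H, x ^ e ∈ P) : P.relIndex H ≠ 0 ∧ P.relIndex H ≤ e ^ s := by
  classical
  obtain ⟨T, hT, hrep⟩ := idx_bound_reps e he s H P hs hP hx
  let g : T → H ⧸ P.subgroupOf H := fun z =>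
    if hz : (z : Γ) ∈ H then QuotientGroup.mk ⟨z, hz⟩ else QuotientGroup.mk 1
  have hg : Function.Surjective g := by
    intro c
    obtain ⟨h, rfl⟩ := QuotientGroup.mk_surjective c
    obtain ⟨z, hz, hzP⟩ := hrep h h.2
    have hzH : z ∈ H := by
      have h1 := H.mul_mem h.2 (H.inv_mem (hP hzP))
      have h2 : (h : Γ) * (z⁻¹ * h)⁻¹ = z := by group
      rwa [h2] at h1
    refine ⟨⟨z, hz⟩, ?_⟩
    simp only [g, hzH, dif_pos]
    rw [QuotientGroup.eq, Subgroup.mem_subgroupOf]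
    exact hzP
  haveI : Finite (H ⧸ P.subgroupOf H) := Finite.of_surjective g hg
  constructor
  · exact Subgroup.index_ne_zero_of_finite
  · refine le_trans ?_ hT
    have h1 := Nat.card_le_card_of_surjective g hg
    rw [Nat.card_eq_fintype_card (α := T), Fintype.card_coe] at h1
    exact h1

end Pool.Agent.Helper294.HallC
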