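import Pool.Agent.Helper294.HallC.Defs
import Pool.Agent.Helper294.HallC.Base

set_option autoImplicit false

namespace Pool.Agent.Helper294.HallC


theorem ser_exists_norm {Γ : Type} [Group Γ] (R : Subgroup Γ) (t : Γ)
    (ht : ∀ x, x ∈ R ↔ t * x * t⁻¹ ∈ R) (k : ℤ) : ∀ x, x ∈ R ↔ t ^ k * x * t ^ (-k) ∈ R := by
  have ht' : ∀ x, x ∈ R ↔ t⁻¹ * x * t ∈ R := by
    intro x
    rw [ht (t⁻¹ * x * t)]
    have e : t * (t⁻¹ * x * t) * t⁻¹ = x := by group
    rw [e]
  induction k using Int.induction_on with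
  | zero => intro x; simp
  | succ k ih =>
    intro x
    rw [ih x, ht]
    have e : t * (t ^ (k : ℤ) * x * t ^ (-(k : ℤ))) * t⁻¹
        = t ^ ((k : ℤ) + 1) * x * t ^ (-((k : ℤ) + 1)) := by
      rw [zpow_add_one, neg_add, zpow_add]
      group
    rw [e]
  | pred k ih =>
    intro x
    rw [ih x, ht']
    have e : t⁻¹ * (t ^ (-(k : ℤ)) * x * t ^ (-(-(k : ℤ)))) * t
        = t ^ (-(k : ℤ) - 1) * x * t ^ (-(-(k : ℤ) - 1)) := by
      group
    rw [e]

theorem ser_exists_pow {Γ : Type} [Group Γ] (R : Subgroup Γ) (a x : Γ)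
    (ha : ∀ x, x ∈ R ↔ a * x * a⁻¹ ∈ R) (hx : x ∈ R) (j : ℤ) : a ^ (-j) * (a * x) ^ j ∈ R := by
  have ha' : ∀ x, x ∈ R ↔ a⁻¹ * x * a ∈ R := by
    intro x
    rw [ha (a⁻¹ * x * a)]
    have e : a * (a⁻¹ * x * a) * a⁻¹ = x := by group
    rw [e]
  induction j using Int.induction_on with
  | zero => simp [R.one_mem]
  | succ k ih =>
    have h1 := R.mul_mem ((ha' _).1 ih) hx
    have e : a⁻¹ * (a ^ (-(k : ℤ)) * (a * x) ^ (k : ℤ)) * a * x
        = a ^ (-((k : ℤ) + 1)) * (a * x) ^ ((k : ℤ) + 1) := by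
      rw [zpow_add_one (a * x), neg_add_rev, zpow_add]
      simp only [mul_assoc, zpow_neg_one]
    rw [e] at h1
    exact h1
  | pred k ih =>
    have h1 := (ha _).1 (R.mul_mem ih (R.inv_mem hx))
    have e : a * (a ^ (-(-(k : ℤ))) * (a * x) ^ (-(k : ℤ)) * x⁻¹) * a⁻¹
        = a ^ (-(-(k : ℤ) - 1)) * (a * x) ^ (-(k : ℤ) - 1) := by
      rw [zpow_sub_one (a * x), neg_sub, sub_eq_add_neg, zpow_add, zpow_one, mul_inv_rev]
      simp only [mul_assoc]
    rw [e] at h1
    exact h1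

theorem ser_exists {Γ : Type} [Group Γ] (h : PC Γ) : ∃ s : ℕ, ∀ H : Subgroup Γ, Ser s H := by
  have key : ∃ s : ℕ, ∀ H : Subgroup Γ, H ≤ ⊤ → Ser s H := by
    refine poly_ind h (fun R => ∃ s : ℕ, ∀ H : Subgroup Γ, H ≤ R → Ser s H) ?_ ?_
    · exact ⟨0, fun H hH => le_bot_iff.1 hH⟩
    · rintro R P t hRP htP ht hP ⟨s, hs⟩
      refine ⟨s + 1, fun H hH => ?_⟩
      have hn := ser_exists_norm R t ht
      let K : AddSubgroup ℤ :=
        { carrier := {k : ℤ | ∃ x ∈ R, t ^ k * x ∈ H}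
          zero_mem' := ⟨1, R.one_mem, by simp [H.one_mem]⟩
          add_mem' := by
            rintro j k ⟨x, hx, hjx⟩ ⟨y, hy, hky⟩
            refine ⟨t ^ (-k) * x * t ^ k * y, ?_, ?_⟩
            · have := (hn (-k) x).1 hx
              rw [neg_neg] at this
              exact R.mul_mem this hy
            · have e : t ^ (j + k) * (t ^ (-k) * x * t ^ k * y) = (t ^ j * x) * (t ^ k * y) := by
                rw [zpow_add]; group
              rw [e]
              exact H.mul_mem hjx hky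
          neg_mem' := by
            rintro k ⟨x, hx, hkx⟩
            refine ⟨t ^ k * x⁻¹ * t ^ (-k), (hn k _).1 (R.inv_mem hx), ?_⟩
            have e : t ^ (-k) * (t ^ k * x⁻¹ * t ^ (-k)) = (t ^ k * x)⁻¹ := by
              rw [mul_inv_rev]; group
            rw [e]
            exact H.inv_mem hkx }
      obtain ⟨k0, hk0⟩ := Int.subgroup_cyclic K
      have hk0m : k0 ∈ K := by
        rw [hk0]
        exact AddSubgroup.subset_closure (Set.mem_singleton k0)
      obtain ⟨x0, hx0, hx0H⟩ := hk0m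
      have ht0 : ∀ x, x ∈ R ↔ t ^ k0 * x * (t ^ k0)⁻¹ ∈ R := by
        intro x
        rw [← zpow_neg]
        exact hn k0 x
      have htr : ∀ x, x ∈ R ↔ (t ^ k0 * x0) * x * (t ^ k0 * x0)⁻¹ ∈ R := by
        intro x
        have e : (t ^ k0 * x0) * x * (t ^ k0 * x0)⁻¹ = t ^ k0 * (x0 * x * x0⁻¹) * (t ^ k0)⁻¹ := by
          group
        rw [e, ← ht0]
        constructor
        · intro hx
          exact R.mul_mem (R.mul_mem hx0 hx) (R.inv_mem hx0)
        · intro hx
          have := R.mul_mem (R.mul_mem (R.inv_mem hx0) hx) hx0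
          have e2 : x0⁻¹ * (x0 * x * x0⁻¹) * x0 = x := by group
          rwa [e2] at this
      have htH : ∀ x, x ∈ H ↔ (t ^ k0 * x0) * x * (t ^ k0 * x0)⁻¹ ∈ H := by
        intro x
        constructor
        · intro hx
          exact H.mul_mem (H.mul_mem hx0H hx) (H.inv_mem hx0H)
        · intro hx
          have := H.mul_mem (H.mul_mem (H.inv_mem hx0H) hx) hx0H
          have e2 : (t ^ k0 * x0)⁻¹ * ((t ^ k0 * x0) * x * (t ^ k0 * x0)⁻¹) * (t ^ k0 * x0) = x := by
            group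
          rwa [e2] at this
      refine ⟨H ⊓ R, t ^ k0 * x0, inf_le_left, hx0H, ?_, ?_, hs _ inf_le_right⟩
      · intro x
        rw [Subgroup.mem_inf, Subgroup.mem_inf, ← htr, ← htH]
      · intro y hy
        obtain ⟨k, hk⟩ := hP y (hH hy)
        have hkK : k ∈ K := ⟨t ^ (-k) * y, hk, by
          have e : t ^ k * (t ^ (-k) * y) = y := by group
          rw [e]
          exact hy⟩
        rw [hk0, AddSubgroup.mem_closure_singleton] at hkK
        obtain ⟨j, hj⟩ := hkK
        refine ⟨j, ?_⟩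
        rw [Subgroup.mem_inf]
        refine ⟨H.mul_mem (H.zpow_mem hx0H _) hy, ?_⟩
        have h1 := ser_exists_pow R (t ^ k0) x0 ht0 hx0 j
        have h2 := R.mul_mem (R.inv_mem h1) hk
        have e3 : k = k0 * j := by rw [← hj, smul_eq_mul, mul_comm]
        have e4 : ((t ^ k0) ^ (-j) * (t ^ k0 * x0) ^ j)⁻¹ * (t ^ (-k) * y)
            = (t ^ k0 * x0) ^ (-j) * y := by
          rw [e3, ← mul_neg, zpow_mul, mul_inv_rev, zpow_neg (t ^ k0 * x0)]
          group
        rw [e4] at h2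
        exact h2
  obtain ⟨s, hs⟩ := key
  exact ⟨s, fun H => hs H le_top⟩

end Pool.Agent.Helper294.HallC
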