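import Pool.Agent.Helper294.HallC.Defs
import Pool.Agent.Helper294.HallC.Base
import Pool.Agent.Helper294.HallC.IdxBound
import Pool.Agent.Helper294.HallC.SerExists

set_option autoImplicit false

namespace Pool.Agent.Helper294.HallC


open Classical in
theorem chain_sub_aux {Q : Type} [Group Q] (n : ℕ) (P : ℕ → Subgroup Q)
    (hP : ∀ i < n, P i ≤ P (i + 1)) (a c : ℕ) (hac : a ≤ c) :
    c ≤ n → (∀ i, a ≤ i → i < c → (P i).relIndex (P (i + 1)) ≠ 0) →
    P a ≤ P c ∧ (P a).relIndex (P c) ≠ 0 ∧
      2 ^ ((Finset.Ico a c).filter (fun i => P i < P (i + 1))).card ≤ (P a).relIndex (P c) := by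
  induction c, hac using Nat.le_induction with
  | base =>
    intro _ _
    refine ⟨le_rfl, ?_, ?_⟩
    · rw [Subgroup.relIndex_self]; exact one_ne_zero
    · rw [Subgroup.relIndex_self]; simp
  | succ c hac ih =>
    intro hc hne
    obtain ⟨h1, h2, h3⟩ := ih (by omega) (fun i h h' => hne i h (by omega))
    have h4 := hP c (by omega)
    have h5 := Subgroup.relIndex_mul_relIndex (P a) (P c) (P (c + 1)) h1 h4
    have h6 := hne c hac (by omega)
    refine ⟨h1.trans h4, ?_, ?_⟩
    · rw [← h5]; exact mul_ne_zero h2 h6
    · rw [← h5]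
      have h7 : (Finset.Ico a (c + 1)).filter (fun i => P i < P (i + 1)) ⊆
          (if P c < P (c + 1) then insert c ((Finset.Ico a c).filter (fun i => P i < P (i + 1)))
            else ((Finset.Ico a c).filter (fun i => P i < P (i + 1)))) := by
        intro x hx
        rw [Finset.mem_filter, Finset.mem_Ico] at hx
        split_ifs with hlt
        · rw [Finset.mem_insert, Finset.mem_filter, Finset.mem_Ico]
          rcases Nat.lt_or_ge x c with h | h
          · exact Or.inr ⟨⟨hx.1.1, h⟩, hx.2⟩
          · left; omega
        · rw [Finset.mem_filter, Finset.mem_Ico]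
          rcases Nat.lt_or_ge x c with h | h
          · exact ⟨⟨hx.1.1, h⟩, hx.2⟩
          · have : x = c := by omega
            subst this
            exact absurd hx.2 hlt
      have h8 := Finset.card_le_card h7
      by_cases hlt : P c < P (c + 1)
      · rw [if_pos hlt] at h8
        have h9 := h8.trans (Finset.card_insert_le _ _)
        have h10 : 2 ≤ (P c).relIndex (P (c + 1)) := by
          have h11 : (P c).relIndex (P (c + 1)) ≠ 1 := by
            intro h12
            exact hlt.not_ge (Subgroup.relIndex_eq_one.mp h12)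
          omega
        calc 2 ^ ((Finset.Ico a (c + 1)).filter (fun i => P i < P (i + 1))).card
            ≤ 2 ^ (((Finset.Ico a c).filter (fun i => P i < P (i + 1))).card + 1) :=
              Nat.pow_le_pow_right (by norm_num) h9
          _ = 2 ^ ((Finset.Ico a c).filter (fun i => P i < P (i + 1))).card * 2 := pow_succ _ _
          _ ≤ _ := Nat.mul_le_mul h3 h10
      · rw [if_neg hlt] at h8
        calc 2 ^ ((Finset.Ico a (c + 1)).filter (fun i => P i < P (i + 1))).card
            ≤ 2 ^ ((Finset.Ico a c).filter (fun i => P i < P (i + 1))).card :=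
              Nat.pow_le_pow_right (by norm_num) h8
          _ ≤ (P a).relIndex (P c) := h3
          _ ≤ _ := Nat.le_mul_of_pos_right _ (Nat.pos_of_ne_zero h6)

theorem chain_sub {Q : Type} [Group Q] (h : PC Q) (e : ℕ) (he : 0 < e) :
    ∃ m : ℕ, ∀ (n : ℕ) (P : ℕ → Subgroup Q), (∀ i < n, P i ≤ P (i + 1)) →
      (∀ i j, i ≤ j → j ≤ n → ∀ x ∈ P j, (∃ k, 0 < k ∧ x ^ k ∈ P i) → x ^ e ∈ P i) →
      {i : ℕ | i < n ∧ P i < P (i + 1)}.ncard ≤ m := by
  classical
  obtain ⟨b, hb⟩ := hl_exists h
  obtain ⟨s, hs⟩ := ser_exists h
  refine ⟨b + e ^ s * (b + 1), ?_⟩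
  intro n P hP hx
  set I := (Finset.range n).filter (fun i => (P i).relIndex (P (i + 1)) = 0) with hI
  set J := (Finset.range n).filter (fun i => P i < P (i + 1)) with hJ
  have hset : {i : ℕ | i < n ∧ P i < P (i + 1)} = (J : Set ℕ) := by
    ext i
    simp [hJ]
  rw [hset, Set.ncard_coe_finset]
  have hIb : I.card ≤ b := by
    refine hb (fun i => P (min i n)) ?_ I ?_
    · refine monotone_nat_of_le_succ ?_
      intro i
      rcases Nat.lt_or_ge i n with h1 | h1
      · have e1 : min i n = i := min_eq_left h1.le
        have e2 : min (i + 1) n = i + 1 := min_eq_left h1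
        show P (min i n) ≤ P (min (i + 1) n)
        rw [e1, e2]
        exact hP i h1
      · have e1 : min i n = n := min_eq_right h1
        have e2 : min (i + 1) n = n := min_eq_right (by omega)
        show P (min i n) ≤ P (min (i + 1) n)
        rw [e1, e2]
    · intro i hi
      rw [hI, Finset.mem_filter, Finset.mem_range] at hi
      have e1 : min i n = i := min_eq_left hi.1.le
      have e2 : min (i + 1) n = i + 1 := min_eq_left hi.1
      show (P (min i n)).relIndex (P (min (i + 1) n)) = 0
      rw [e1, e2]
      exact hi.2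
  have hJI : (J \ I).card ≤ e ^ s * (Finset.range (b + 1)).card := by
    apply Finset.card_le_mul_card_image_of_maps_to (f := fun i => (I.filter (fun x => x < i)).card)
    · intro i _
      rw [Finset.mem_range]
      have := Finset.card_le_card (Finset.filter_subset (fun x => x < i) I)
      omega
    · intro t _
      set F := {i ∈ J \ I | (I.filter (fun x => x < i)).card = t} with hF
      rcases F.eq_empty_or_nonempty with h0 | hne
      · rw [h0]; simp
      have hmem : ∀ i ∈ F, i < n ∧ P i < P (i + 1) ∧ i ∉ I ∧ (I.filter (fun x => x < i)).card = t := by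
        intro i hi
        rw [hF, Finset.mem_filter, Finset.mem_sdiff, hJ, Finset.mem_filter, Finset.mem_range] at hi
        exact ⟨hi.1.1.1, hi.1.1.2, hi.1.2, hi.2⟩
      obtain ⟨han, -, haI, hat⟩ := hmem _ (F.min'_mem hne)
      obtain ⟨hzn, -, hzI, hzt⟩ := hmem _ (F.max'_mem hne)
      set a := F.min' hne with ha
      set z := F.max' hne with hz
      have haz : a ≤ z := F.min'_le _ (F.max'_mem hne)
      have hno : ∀ i, a ≤ i → i < z + 1 → (P i).relIndex (P (i + 1)) ≠ 0 := by
        intro i hai hiz h0
        have hiI : i ∈ I := by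
          rw [hI, Finset.mem_filter, Finset.mem_range]
          exact ⟨by omega, h0⟩
        have hia : i ≠ a := fun h => haI (h ▸ hiI)
        have hizz : i ≠ z := fun h => hzI (h ▸ hiI)
        have hss : insert i (I.filter (fun x => x < a)) ⊆ I.filter (fun x => x < z) := by
          intro x hx
          rw [Finset.mem_insert, Finset.mem_filter] at hx
          rw [Finset.mem_filter]
          rcases hx with rfl | hx
          · exact ⟨hiI, by omega⟩
          · exact ⟨hx.1, by omega⟩
        have h1 := Finset.card_le_card hss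
        rw [Finset.card_insert_of_notMem (by
          rw [Finset.mem_filter]; rintro ⟨-, h⟩; omega)] at h1
        omega
      obtain ⟨-, h2, h3⟩ := chain_sub_aux n P hP a (z + 1) (by omega) (by omega) hno
      have h4 : (P a).relIndex (P (z + 1)) ≤ e ^ s := by
        have hle : P a ≤ P (z + 1) :=
          (chain_sub_aux n P hP a (z + 1) (by omega) (by omega) hno).1
        refine (idx_bound he (hs (P (z + 1))) hle ?_).2
        intro x hxz
        refine hx a (z + 1) (by omega) (by omega) x hxz ?_
        obtain ⟨k, hk, -, hk2⟩ := Subgroup.exists_pow_mem_of_relIndex_ne_zero h2 hxz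
        exact ⟨k, hk, hk2.1⟩
      have h5 : F.card ≤ ((Finset.Ico a (z + 1)).filter (fun i => P i < P (i + 1))).card := by
        apply Finset.card_le_card
        intro i hi
        rw [Finset.mem_filter, Finset.mem_Ico]
        have h6 := F.min'_le i hi
        have h7 := F.le_max' i hi
        exact ⟨⟨by omega, by omega⟩, (hmem i hi).2.1⟩
      have h8 : F.card < 2 ^ F.card := Nat.lt_two_pow_self
      have h9 : 2 ^ F.card ≤ 2 ^ ((Finset.Ico a (z + 1)).filter (fun i => P i < P (i + 1))).card :=
        Nat.pow_le_pow_right (by norm_num) h5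
      omega
  rw [Finset.card_range] at hJI
  have h10 : J.card ≤ (J \ I).card + I.card := by
    have := Finset.card_le_card (show J ⊆ (J \ I) ∪ I by
      intro x hx
      rw [Finset.mem_union, Finset.mem_sdiff]
      by_cases hxI : x ∈ I
      · exact Or.inr hxI
      · exact Or.inl ⟨hx, hxI⟩)
    exact this.trans (Finset.card_union_le _ _)
  omega

end Pool.Agent.Helper294.HallC
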