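import Pool.Agent.Helper294.HallC.Defs

set_option autoImplicit false

namespace Pool.Agent.Helper294.HallC


theorem conj_fgm {G Q A : Type} [Group G] [Group Q] [AddCommGroup A] [DistribMulAction Q A]
    (f : G →* Q) (hf : Function.Surjective f) (ι : Multiplicative A →* G) (h : ConjAct' f A ι)
    (hfg : f.ker.IsFinitelyNormallyGenerated) : FGM Q A := by
  classical
  obtain ⟨S, hSfin, hS⟩ := hfg
  have hSk : ∀ s ∈ S, ∃ a : A, ι (Multiplicative.ofAdd a) = s := by
    intro s hs
    have h1 : s ∈ f.ker := by rw [← hS]; exact Subgroup.subset_normalClosure hs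
    rw [← h.range] at h1
    obtain ⟨a, ha⟩ := h1
    exact ⟨Multiplicative.toAdd a, by simpa using ha⟩
  have hpre : (ι ⁻¹' S).Finite := hSfin.preimage h.inj.injOn
  let T : Finset A := hpre.toFinset.image Multiplicative.toAdd
  refine ⟨T, ?_⟩
  let B : AddSubgroup A := AddSubgroup.closure {a : A | ∃ g : Q, ∃ s ∈ T, a = g • s}
  have hBst : ∀ (g : Q), ∀ a ∈ B, g • a ∈ B := by
    intro g a ha
    induction ha using AddSubgroup.closure_induction with
    | mem x hx =>
      obtain ⟨g', s, hs, rfl⟩ := hx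
      exact AddSubgroup.subset_closure ⟨g * g', s, hs, by rw [mul_smul]⟩
    | zero => rw [smul_zero]; exact B.zero_mem
    | add x y _ _ hx hy => rw [smul_add]; exact B.add_mem hx hy
    | neg x _ hx => rw [smul_neg]; exact B.neg_mem hx
  let N : Subgroup G := (AddSubgroup.toSubgroup B).map ι
  have hN : ∀ x, x ∈ N ↔ ∃ b ∈ B, ι (Multiplicative.ofAdd b) = x := by
    intro x
    constructor
    · rintro ⟨b, hb, rfl⟩
      exact ⟨Multiplicative.toAdd b, hb, rfl⟩
    · rintro ⟨b, hb, rfl⟩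
      exact ⟨Multiplicative.ofAdd b, hb, rfl⟩
  haveI : N.Normal := by
    refine ⟨fun x hx g => ?_⟩
    obtain ⟨b, hb, rfl⟩ := (hN x).1 hx
    rw [h.act]
    exact (hN _).2 ⟨_, hBst _ _ hb, rfl⟩
  have hSN : S ⊆ N := by
    intro s hs
    obtain ⟨a, ha⟩ := hSk s hs
    refine (hN s).2 ⟨a, AddSubgroup.subset_closure ⟨1, a, ?_, by rw [one_smul]⟩, ha⟩
    simp only [T, Finset.mem_image, Set.Finite.mem_toFinset, Set.mem_preimage]
    exact ⟨Multiplicative.ofAdd a, by rw [ha]; exact hs, rfl⟩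
  have hle : f.ker ≤ N := by
    rw [← hS]
    exact Subgroup.normalClosure_le_normal hSN
  rw [eq_top_iff]
  intro a _
  have h1 : ι (Multiplicative.ofAdd a) ∈ f.ker := by
    rw [← h.range]; exact ⟨_, rfl⟩
  obtain ⟨b, hb, hab⟩ := (hN _).1 (hle h1)
  have := h.inj hab
  have h2 : b = a := Multiplicative.ofAdd.injective this
  rw [← h2]
  exact hb

end Pool.Agent.Helper294.HallC
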