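import Pool.Agent.Helper294.HallC.Defs

set_option autoImplicit false

namespace Pool.Agent.Helper294.HallC


def conj_model_cj {G Q : Type} [Group G] [Group Q] (f : G →* Q) (g : G) (a : f.ker) : f.ker :=
  ⟨g * a * g⁻¹, f.normal_ker.conj_mem a a.2 g⟩

theorem conj_model_key {G Q : Type} [Group G] [Group Q] (f : G →* Q)
    (hab : ∀ x ∈ f.ker, ∀ y ∈ f.ker, x * y = y * x) (g h : G) (hgh : f g = f h) (a : f.ker) :
    conj_model_cj f g a = conj_model_cj f h a := by
  apply Subtype.ext
  show g * (a : G) * g⁻¹ = h * a * h⁻¹
  have hz : h⁻¹ * g ∈ f.ker := by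
    rw [MonoidHom.mem_ker, map_mul, map_inv, hgh, inv_mul_cancel]
  have h1 := hab _ hz _ a.2
  have h2 : g * (a : G) = h * ((h⁻¹ * g) * a) := by group
  rw [h2, h1]
  group

theorem conj_model_mul {G Q : Type} [Group G] [Group Q] (f : G →* Q) (g h : G) (a : f.ker) :
    conj_model_cj f (g * h) a = conj_model_cj f g (conj_model_cj f h a) := by
  apply Subtype.ext
  show g * h * (a : G) * (g * h)⁻¹ = g * (h * a * h⁻¹) * g⁻¹
  group

theorem conj_model_one {G Q : Type} [Group G] [Group Q] (f : G →* Q) (a : f.ker) :
    conj_model_cj f 1 a = a := by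
  apply Subtype.ext
  show 1 * (a : G) * 1⁻¹ = a
  group

theorem conj_model {G Q : Type} [Group G] [Group Q] (f : G →* Q) (hf : Function.Surjective f)
    (hab : ∀ x ∈ f.ker, ∀ y ∈ f.ker, x * y = y * x) :
    ∃ (A : Type) (_ : AddCommGroup A) (_ : DistribMulAction Q A) (ι : Multiplicative A →* G),
      ConjAct' f A ι := by
  let icg : CommGroup f.ker :=
    { (inferInstance : Group f.ker) with
      mul_comm := fun a b => Subtype.ext (hab a a.2 b b.2) }
  let iA : AddCommGroup (Additive f.ker) := @Additive.addCommGroup _ icg
  have hsec : ∀ q, f (Function.surjInv hf q) = q := Function.surjInv_eq hf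
  let iD : DistribMulAction Q (Additive f.ker) :=
    { smul := fun q a => Additive.ofMul (conj_model_cj f (Function.surjInv hf q) a.toMul)
      one_smul := by
        intro a
        show Additive.ofMul (conj_model_cj f (Function.surjInv hf 1) a.toMul) = a
        rw [conj_model_key f hab _ 1 (by rw [hsec, map_one]), conj_model_one]
        rfl
      mul_smul := by
        intro q q' a
        show Additive.ofMul (conj_model_cj f (Function.surjInv hf (q * q')) a.toMul) =
          Additive.ofMul (conj_model_cj f (Function.surjInv hf q)
            (conj_model_cj f (Function.surjInv hf q') a.toMul))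
        rw [conj_model_key f hab _ (Function.surjInv hf q * Function.surjInv hf q')
          (by rw [map_mul, hsec, hsec, hsec]), conj_model_mul]
      smul_zero := by
        intro q
        show Additive.ofMul (conj_model_cj f (Function.surjInv hf q) 1) = Additive.ofMul 1
        congr 1
        apply Subtype.ext
        show Function.surjInv hf q * 1 * (Function.surjInv hf q)⁻¹ = 1
        group
      smul_add := by
        intro q a b
        show Additive.ofMul (conj_model_cj f (Function.surjInv hf q) (a.toMul * b.toMul)) =
          Additive.ofMul (conj_model_cj f (Function.surjInv hf q) a.toMul *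
            conj_model_cj f (Function.surjInv hf q) b.toMul)
        congr 1
        apply Subtype.ext
        show Function.surjInv hf q * ((a.toMul : G) * (b.toMul : G)) * (Function.surjInv hf q)⁻¹ =
          Function.surjInv hf q * (a.toMul : G) * (Function.surjInv hf q)⁻¹ *
            (Function.surjInv hf q * (b.toMul : G) * (Function.surjInv hf q)⁻¹)
        group }
  refine ⟨Additive f.ker, iA, iD,
    { toFun := fun x => ((Additive.toMul (Multiplicative.toAdd x) : f.ker) : G)
      map_one' := rfl
      map_mul' := fun _ _ => rfl }, ?_, ?_, ?_⟩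
  · intro x y hxy
    exact Subtype.ext hxy
  · ext x
    constructor
    · rintro ⟨y, rfl⟩
      exact (Additive.toMul (Multiplicative.toAdd y) : f.ker).2
    · intro hx
      exact ⟨Multiplicative.ofAdd (Additive.ofMul ⟨x, hx⟩), rfl⟩
  · intro g a
    have h1 := conj_model_key f hab (Function.surjInv hf (f g)) g (by rw [hsec]) a.toMul
    have h2 := congrArg (fun z : f.ker => (z : G)) h1
    exact h2.symm

end Pool.Agent.Helper294.HallC
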