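import Pool.Agent.Helper294.HallC.Defs

set_option autoImplicit false

namespace Pool.Agent.Helper294.HallC


theorem cycs_of_cyc_del {Γ A M : Type} [Group Γ] [AddCommGroup A] [DistribMulAction Γ A]
    [AddCommGroup M] [DistribMulAction Γ M] {B : AddSubgroup A} (hB : Stb Γ B)
    (φ : ↥B →+ M)
    (he : ∀ (g : Γ) (x y : ↥B), (y : A) = g • (x : A) → φ y = g • φ x) (g : Γ) (a : A)
    (ha : a ∈ B) : ∃ hn : del g a ∈ B, φ ⟨del g a, hn⟩ = del g (φ ⟨a, ha⟩) := by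
  have hg : g • a ∈ B := hB g a ha
  refine ⟨B.sub_mem hg ha, ?_⟩
  have h1 : (⟨del g a, B.sub_mem hg ha⟩ : ↥B) = ⟨g • a, hg⟩ - ⟨a, ha⟩ := Subtype.ext rfl
  rw [h1, map_sub, he g ⟨a, ha⟩ ⟨g • a, hg⟩ rfl]
  rfl

theorem cycs_of_cyc_iter {Γ A M : Type} [Group Γ] [AddCommGroup A] [DistribMulAction Γ A]
    [AddCommGroup M] [DistribMulAction Γ M] {B : AddSubgroup A} (hB : Stb Γ B)
    (φ : ↥B →+ M)
    (he : ∀ (g : Γ) (x y : ↥B), (y : A) = g • (x : A) → φ y = g • φ x) (g : Γ) (a : A)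
    (ha : a ∈ B) (n : ℕ) :
    ∃ hn : (del g)^[n] a ∈ B, φ ⟨(del g)^[n] a, hn⟩ = (del g)^[n] (φ ⟨a, ha⟩) := by
  induction n with
  | zero => exact ⟨ha, rfl⟩
  | succ n ih =>
    obtain ⟨hn, e⟩ := ih
    obtain ⟨h2, e2⟩ := cycs_of_cyc_del hB φ he g _ hn
    simp only [Function.iterate_succ_apply']
    exact ⟨h2, by rw [e2, e]⟩

theorem cycs_of_cyc {Γ A M : Type} [Group Γ] [AddCommGroup A] [DistribMulAction Γ A]
    [AddCommGroup M] [DistribMulAction Γ M] {B C : AddSubgroup A} (hB : Stb Γ B) (hC : Stb Γ C)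
    (φ : ↥B →+ M) (h0 : ∀ x, φ x = 0 ↔ (x : A) ∈ C)
    (he : ∀ (g : Γ) (x y : ↥B), (y : A) = g • (x : A) → φ y = g • φ x) (hM : Cyc Γ M) :
    CycS Γ B C := by
  obtain ⟨h, e, he0, H⟩ := hM
  refine ⟨h, e, he0, fun g a ha => ⟨?_, ?_⟩⟩
  · rintro ⟨n, hn⟩
    obtain ⟨b1, e1⟩ := cycs_of_cyc_iter hB φ he g a ha n
    obtain ⟨b2, e2⟩ := cycs_of_cyc_iter hB φ he g a ha h
    have h1 : (del g)^[n] (φ ⟨a, ha⟩) = 0 := by
      rw [← e1]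
      exact (h0 _).2 hn
    have h2 := (H g (φ ⟨a, ha⟩)).1 ⟨n, h1⟩
    rw [← e2] at h2
    exact (h0 _).1 h2
  · rintro ⟨n, hn0, hn⟩
    obtain ⟨b1, e1⟩ := cycs_of_cyc_del hB φ he (g ^ n) a ha
    obtain ⟨b2, e2⟩ := cycs_of_cyc_del hB φ he (g ^ e) a ha
    have h1 : del (g ^ n) (φ ⟨a, ha⟩) = 0 := by
      rw [← e1]
      exact (h0 _).2 hn
    have h2 := (H g (φ ⟨a, ha⟩)).2 ⟨n, hn0, sub_eq_zero.1 h1⟩
    have h3 : del (g ^ e) (φ ⟨a, ha⟩) = 0 := sub_eq_zero.2 h2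
    rw [← e2] at h3
    exact (h0 _).1 h3


end Pool.Agent.Helper294.HallC
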