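import Pool.Agent.Helper294.HallC.Defs

set_option autoImplicit false

namespace Pool.Agent.Helper294.HallC


theorem stb_mulP {Γ A : Type} [Group Γ] [AddCommGroup A] [DistribMulAction Γ A]
    {D : AddSubgroup A} (hD : Stb Γ D) (g : Γ) (a : A) (n : ℕ) (h : g ^ n • a - a ∈ D) (k : ℕ) :
    g ^ (n * k) • a - a ∈ D := by
  induction k with
  | zero => simp
  | succ k ih =>
    have e : g ^ (n * (k + 1)) • a - a = g ^ (n * k) • (g ^ n • a - a) + (g ^ (n * k) • a - a) := by
      rw [Nat.mul_succ, pow_add, mul_smul, smul_sub]; abel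
    rw [e]
    exact D.add_mem (hD _ _ h) ih

theorem stb_del {Γ A : Type} [Group Γ] [AddCommGroup A] [DistribMulAction Γ A]
    {D : AddSubgroup A} (hD : Stb Γ D) (g : Γ) (n : ℕ) (a : A) (h : a ∈ D) :
    (del g)^[n] a ∈ D := by
  induction n with
  | zero => exact h
  | succ n ih =>
    rw [Function.iterate_succ_apply']
    exact D.sub_mem (hD _ _ ih) ih

theorem cycs_trans {Γ A : Type} [Group Γ] [AddCommGroup A] [DistribMulAction Γ A]
    {B C D : AddSubgroup A} (hB : Stb Γ B) (hC : Stb Γ C) (hD : Stb Γ D) (hDC : D ≤ C)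
    (hCB : C ≤ B) (h1 : CycS Γ B C) (h2 : CycS Γ C D)
    (ht : ∃ t : ℕ, 0 < t ∧ ∀ (n : ℕ), ∀ a ∈ C, 0 < n → n • a ∈ D → t • a ∈ D) :
    CycS Γ B D := by
  obtain ⟨a1, e1, he1, H1⟩ := h1
  obtain ⟨a2, e2, he2, H2⟩ := h2
  obtain ⟨t, ht0, Ht⟩ := ht
  refine ⟨a2 + a1, e1 * e2 * t, by positivity, fun g a ha => ⟨?_, ?_⟩⟩
  · rintro ⟨n, hn⟩
    rw [Function.iterate_add_apply]
    have hc : (del g)^[a1] a ∈ C := (H1 g a ha).1 ⟨n, hDC hn⟩
    apply (H2 g _ hc).1
    refine ⟨n, ?_⟩
    rw [← Function.iterate_add_apply, Nat.add_comm, Function.iterate_add_apply]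
    exact stb_del hD g a1 _ hn
  · rintro ⟨n, hn0, hn⟩
    have hc : g ^ e1 • a - a ∈ C := (H1 g a ha).2 ⟨n, hn0, hDC hn⟩
    have hun : g ^ (e1 * n) • a - a ∈ D := by
      rw [Nat.mul_comm]; exact stb_mulP hD g a n hn e1
    have hcD : g ^ (e1 * n) • (g ^ e1 • a - a) - (g ^ e1 • a - a) ∈ D := by
      have e : g ^ (e1 * n) • (g ^ e1 • a - a) - (g ^ e1 • a - a) =
          g ^ e1 • (g ^ (e1 * n) • a - a) - (g ^ (e1 * n) • a - a) := by
        rw [smul_sub, smul_sub, smul_smul, smul_smul, ← pow_add, ← pow_add, Nat.add_comm]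
        abel
      rw [e]
      exact D.sub_mem (hD _ _ hun) hun
    have hc2 : g ^ e2 • (g ^ e1 • a - a) - (g ^ e1 • a - a) ∈ D :=
      (H2 g _ hc).2 ⟨e1 * n, by positivity, hcD⟩
    have hx : ∀ k : ℕ, g ^ e2 • (g ^ (e1 * k) • a - a) - (g ^ (e1 * k) • a - a) ∈ D := by
      intro k
      induction k with
      | zero => simp
      | succ k ih =>
        have e : g ^ (e1 * (k + 1)) • a - a = g ^ e1 • (g ^ (e1 * k) • a - a) +
            (g ^ e1 • a - a) := by
          rw [smul_sub, smul_smul, ← pow_add, Nat.mul_succ, Nat.add_comm]; abel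
        have e' : g ^ e2 • (g ^ (e1 * (k + 1)) • a - a) - (g ^ (e1 * (k + 1)) • a - a) =
            g ^ e1 • (g ^ e2 • (g ^ (e1 * k) • a - a) - (g ^ (e1 * k) • a - a)) +
            (g ^ e2 • (g ^ e1 • a - a) - (g ^ e1 • a - a)) := by
          rw [e, smul_add, smul_sub (g ^ e1) (g ^ e2 • (g ^ (e1 * k) • a - a)),
            smul_smul (g ^ e2) (g ^ e1), smul_smul (g ^ e1) (g ^ e2), ← pow_add, ← pow_add,
            Nat.add_comm e2 e1]
          abel
        rw [e']
        exact D.add_mem (hD _ _ ih) hc2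
    set c' := g ^ (e1 * e2) • a - a with hc'
    have hc'C : c' ∈ C := stb_mulP hC g a e1 hc e2
    have hvc : g ^ (e1 * e2) • c' - c' ∈ D := by
      rw [Nat.mul_comm]; exact stb_mulP hD g c' e2 (hx e2) e1
    have hk : ∀ k : ℕ, g ^ (e1 * e2 * k) • a - a - k • c' ∈ D := by
      intro k
      induction k with
      | zero => simp
      | succ k ih =>
        have e : g ^ (e1 * e2 * (k + 1)) • a - a - (k + 1) • c' =
            g ^ (e1 * e2) • (g ^ (e1 * e2 * k) • a - a - k • c') +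
              k • (g ^ (e1 * e2) • c' - c') := by
          have e2' : g ^ (e1 * e2) • (k • c') = k • (g ^ (e1 * e2) • c') :=
            map_nsmul (DistribSMul.toAddMonoidHom A (g ^ (e1 * e2))) k c'
          have e3 : g ^ (e1 * e2 * (k + 1)) • a = g ^ (e1 * e2) • (g ^ (e1 * e2 * k) • a) := by
            rw [smul_smul, ← pow_add, Nat.mul_succ, Nat.add_comm]
          have e4 : g ^ (e1 * e2) • a = c' + a := by rw [hc']; abel
          have s1 : g ^ (e1 * e2) • (g ^ (e1 * e2 * k) • a - a - k • c') =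
              g ^ (e1 * e2) • (g ^ (e1 * e2 * k) • a) - (c' + a) - k • (g ^ (e1 * e2) • c') := by
            rw [smul_sub, smul_sub, e2', e4]
          have s2 : k • (g ^ (e1 * e2) • c' - c') = k • (g ^ (e1 * e2) • c') - k • c' :=
            nsmul_sub _ _ _
          rw [e3, s1, s2, succ_nsmul]
          generalize k • (g ^ (e1 * e2) • c') = z1
          generalize k • c' = z2
          generalize g ^ (e1 * e2) • (g ^ (e1 * e2 * k) • a) = z3
          abel
        rw [e]
        exact D.add_mem (hD _ _ ih) (D.nsmul_mem hvc k)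
    have hnc : n • c' ∈ D := by
      have h1 := hk n
      have h2 : g ^ (e1 * e2 * n) • a - a ∈ D := by
        rw [Nat.mul_comm]; exact stb_mulP hD g a n hn (e1 * e2)
      have := D.sub_mem h2 h1
      simpa using this
    have htc : t • c' ∈ D := Ht n c' hc'C hn0 hnc
    have := D.add_mem (hk t) htc
    simpa using this

end Pool.Agent.Helper294.HallC
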