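import Pool.Agent.Helper294.HallC.Defs

set_option autoImplicit false

namespace Pool.Agent.Helper294.HallC


section noe_step_sec
variable {Γ A : Type} [Group Γ] [AddCommGroup A] [DistribMulAction Γ A]

/-- sums of `t^i • x`, `i < n`, `x ∈ M` -/
def noe_step_S (t : Γ) (M : AddSubgroup A) (n : ℕ) : AddSubgroup A :=
  AddSubgroup.closure {a : A | ∃ i : ℕ, i < n ∧ ∃ x ∈ M, a = t ^ i • x}

theorem noe_step_S_zero (t : Γ) (M : AddSubgroup A) (z : A) (hz : z ∈ noe_step_S t M 0) : z = 0 := by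
  have h : noe_step_S t M 0 = ⊥ := by
    unfold noe_step_S
    rw [AddSubgroup.closure_eq_bot_iff]
    rintro a ⟨i, hi, -⟩
    omega
  rw [h] at hz
  exact (AddSubgroup.mem_bot).1 hz

theorem noe_step_S_mono (t : Γ) (M : AddSubgroup A) {n m : ℕ} (h : n ≤ m) :
    noe_step_S t M n ≤ noe_step_S t M m := by
  refine AddSubgroup.closure_mono ?_
  rintro a ⟨i, hi, hx⟩
  exact ⟨i, by omega, hx⟩

theorem noe_step_S_gen (t : Γ) (M : AddSubgroup A) {n i : ℕ} (h : i < n) {x : A} (hx : x ∈ M) :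
    t ^ i • x ∈ noe_step_S t M n :=
  AddSubgroup.subset_closure ⟨i, h, x, hx, rfl⟩

theorem noe_step_S_succ (t : Γ) (M : AddSubgroup A) (n : ℕ) (z : A)
    (hz : z ∈ noe_step_S t M (n + 1)) :
    ∃ m ∈ M, ∃ s ∈ noe_step_S t M n, z = t ^ n • m + s := by
  induction hz using AddSubgroup.closure_induction with
  | mem a ha =>
    obtain ⟨i, hi, x, hx, rfl⟩ := ha
    by_cases h : i = n
    · subst h
      exact ⟨x, hx, 0, AddSubgroup.zero_mem _, by simp⟩
    · exact ⟨0, M.zero_mem, _, noe_step_S_gen t M (show i < n by omega) hx, by simp⟩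
  | zero => exact ⟨0, M.zero_mem, 0, AddSubgroup.zero_mem _, by simp⟩
  | add a b _ _ h1 h2 =>
    obtain ⟨m1, hm1, s1, hs1, rfl⟩ := h1
    obtain ⟨m2, hm2, s2, hs2, rfl⟩ := h2
    exact ⟨m1 + m2, M.add_mem hm1 hm2, s1 + s2, AddSubgroup.add_mem _ hs1 hs2, by
      rw [smul_add]; abel⟩
  | neg a _ h1 =>
    obtain ⟨m1, hm1, s1, hs1, rfl⟩ := h1
    exact ⟨-m1, M.neg_mem hm1, -s1, AddSubgroup.neg_mem _ hs1, by
      rw [smul_neg]; abel⟩

theorem noe_step_S_t (t : Γ) (M : AddSubgroup A) (n : ℕ) (z : A)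
    (hz : z ∈ noe_step_S t M n) : t • z ∈ noe_step_S t M (n + 1) := by
  induction hz using AddSubgroup.closure_induction with
  | mem a ha =>
    obtain ⟨i, hi, x, hx, rfl⟩ := ha
    rw [← mul_smul, ← pow_succ']
    exact noe_step_S_gen t M (by omega) hx
  | zero => rw [smul_zero]; exact AddSubgroup.zero_mem _
  | add a b _ _ h1 h2 => rw [smul_add]; exact AddSubgroup.add_mem _ h1 h2
  | neg a _ h1 => rw [smul_neg]; exact AddSubgroup.neg_mem _ h1

theorem noe_step_S_tpow (t : Γ) (M : AddSubgroup A) (k n : ℕ) (z : A)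
    (hz : z ∈ noe_step_S t M n) : t ^ k • z ∈ noe_step_S t M (n + k) := by
  induction k with
  | zero => simpa using hz
  | succ k ih =>
    rw [pow_succ', mul_smul]
    exact noe_step_S_t t M _ _ ih

theorem noe_step_conj {R : Subgroup Γ} {t : Γ} (hn : ∀ x, x ∈ R ↔ t * x * t⁻¹ ∈ R) (i : ℕ) (r : Γ) :
    r ∈ R ↔ t ^ i * r * (t ^ i)⁻¹ ∈ R := by
  induction i with
  | zero => simp
  | succ i ih =>
    rw [ih, hn]
    have : t ^ (i + 1) * r * (t ^ (i + 1))⁻¹ = t * (t ^ i * r * (t ^ i)⁻¹) * t⁻¹ := by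
      rw [pow_succ']; group
    rw [this]

theorem noe_step_S_R {R : Subgroup Γ} {t : Γ} (hn : ∀ x, x ∈ R ↔ t * x * t⁻¹ ∈ R)
    {M : AddSubgroup A} (hM : ∀ g ∈ R, ∀ x ∈ M, g • x ∈ M) (n : ℕ) (r : Γ) (hr : r ∈ R) (z : A)
    (hz : z ∈ noe_step_S t M n) : r • z ∈ noe_step_S t M n := by
  induction hz using AddSubgroup.closure_induction with
  | mem a ha =>
    obtain ⟨i, hi, x, hx, rfl⟩ := ha
    have h1 : (t ^ i)⁻¹ * r * t ^ i ∈ R := by
      rw [noe_step_conj hn i]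
      have : t ^ i * ((t ^ i)⁻¹ * r * t ^ i) * (t ^ i)⁻¹ = r := by group
      rw [this]; exact hr
    have h2 : r • (t ^ i • x) = t ^ i • (((t ^ i)⁻¹ * r * t ^ i) • x) := by
      rw [← mul_smul, ← mul_smul]
      congr 1
      group
    rw [h2]
    exact noe_step_S_gen t M hi (hM _ h1 _ hx)
  | zero => rw [smul_zero]; exact AddSubgroup.zero_mem _
  | add a b _ _ h1 h2 => rw [smul_add]; exact AddSubgroup.add_mem _ h1 h2
  | neg a _ h1 => rw [smul_neg]; exact AddSubgroup.neg_mem _ h1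

theorem noe_step_cover {R P : Subgroup Γ} {t : Γ} (hc : ∀ x ∈ P, ∃ k : ℤ, t ^ (-k) * x ∈ R)
    {M : AddSubgroup A} (hM : ∀ g ∈ R, ∀ x ∈ M, g • x ∈ M) (z : A)
    (hz : z ∈ AddSubgroup.closure {a : A | ∃ g ∈ P, ∃ x ∈ M, a = g • x}) :
    ∃ K n : ℕ, t ^ K • z ∈ noe_step_S t M n := by
  induction hz using AddSubgroup.closure_induction with
  | mem a ha =>
    obtain ⟨g, hg, x, hx, rfl⟩ := ha
    obtain ⟨k, hk⟩ := hc g hg
    have h1 : (t ^ (-k) * g) • x ∈ M := hM _ hk _ hx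
    obtain ⟨m, hm⟩ : ∃ m : ℕ, (m : ℤ) = (k.natAbs : ℤ) + k := ⟨(k.natAbs + k).toNat, by omega⟩
    refine ⟨k.natAbs, m + 1, ?_⟩
    have h2 : t ^ k.natAbs • (g • x) = t ^ m • ((t ^ (-k) * g) • x) := by
      rw [← mul_smul, ← mul_smul]
      congr 1
      rw [← mul_assoc, ← zpow_natCast t m, hm, ← zpow_add, ← zpow_natCast t k.natAbs]
      congr 2
      ring
    rw [h2]
    exact noe_step_S_gen t M (by omega) h1
  | zero => exact ⟨0, 0, by rw [smul_zero]; exact AddSubgroup.zero_mem _⟩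
  | add a b _ _ h1 h2 =>
    obtain ⟨K1, n1, h1⟩ := h1
    obtain ⟨K2, n2, h2⟩ := h2
    refine ⟨K1 + K2, n1 + K2 + (n2 + K1), ?_⟩
    rw [smul_add]
    refine AddSubgroup.add_mem _ ?_ ?_
    · rw [add_comm K1 K2, pow_add, mul_smul]
      exact noe_step_S_mono t M (by omega) (noe_step_S_tpow t M K2 n1 _ h1)
    · rw [pow_add, mul_smul]
      exact noe_step_S_mono t M (by omega) (noe_step_S_tpow t M K1 n2 _ h2)
  | neg a _ h1 =>
    obtain ⟨K1, n1, h1⟩ := h1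
    exact ⟨K1, n1, by rw [smul_neg]; exact AddSubgroup.neg_mem _ h1⟩

/-- leading coefficients of degree `n` -/
def noe_step_L (t : Γ) (M : AddSubgroup A) (n : ℕ) (N : AddSubgroup A) : AddSubgroup A where
  carrier := {m | m ∈ M ∧ ∃ z ∈ N, z - t ^ n • m ∈ noe_step_S t M n}
  zero_mem' := ⟨M.zero_mem, 0, N.zero_mem, by rw [smul_zero, sub_zero]; exact AddSubgroup.zero_mem _⟩
  add_mem' := by
    rintro a b ⟨ha, z, hz, h1⟩ ⟨hb, w, hw, h2⟩
    refine ⟨M.add_mem ha hb, z + w, N.add_mem hz hw, ?_⟩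
    have : z + w - t ^ n • (a + b) = (z - t ^ n • a) + (w - t ^ n • b) := by
      rw [smul_add]; abel
    rw [this]
    exact AddSubgroup.add_mem _ h1 h2
  neg_mem' := by
    rintro a ⟨ha, z, hz, h1⟩
    refine ⟨M.neg_mem ha, -z, N.neg_mem hz, ?_⟩
    have : -z - t ^ n • (-a) = -(z - t ^ n • a) := by
      rw [smul_neg]; abel
    rw [this]
    exact AddSubgroup.neg_mem _ h1

theorem noe_step_mem_L (t : Γ) (M : AddSubgroup A) (n : ℕ) (N : AddSubgroup A) (m : A) :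
    m ∈ noe_step_L t M n N ↔ m ∈ M ∧ ∃ z ∈ N, z - t ^ n • m ∈ noe_step_S t M n := Iff.rfl

theorem noe_step_L_succ {P : Subgroup Γ} (t : Γ) (ht : t ∈ P) (M : AddSubgroup A) (n : ℕ)
    (N : AddSubgroup A) (hNP : ∀ g ∈ P, ∀ x ∈ N, g • x ∈ N) :
    noe_step_L t M n N ≤ noe_step_L t M (n + 1) N := by
  rintro m ⟨hm, z, hz, h⟩
  refine ⟨hm, t • z, hNP t ht z hz, ?_⟩
  have : t • z - t ^ (n + 1) • m = t • (z - t ^ n • m) := by
    rw [smul_sub, ← mul_smul, ← pow_succ']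
  rw [this]
  exact noe_step_S_t t M n _ h

theorem noe_step_L_deg {P : Subgroup Γ} (t : Γ) (ht : t ∈ P) (M : AddSubgroup A) {n m : ℕ}
    (hnm : n ≤ m) (N : AddSubgroup A) (hNP : ∀ g ∈ P, ∀ x ∈ N, g • x ∈ N) :
    noe_step_L t M n N ≤ noe_step_L t M m N := by
  induction m, hnm using Nat.le_induction with
  | base => exact le_rfl
  | succ m _ ih => exact ih.trans (noe_step_L_succ t ht M m N hNP)

theorem noe_step_L_mono (t : Γ) (M : AddSubgroup A) (n : ℕ) {N N' : AddSubgroup A} (h : N ≤ N') :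
    noe_step_L t M n N ≤ noe_step_L t M n N' := by
  rintro m ⟨hm, z, hz, h'⟩
  exact ⟨hm, z, h hz, h'⟩

theorem noe_step_L_R {R P : Subgroup Γ} (hRP : R ≤ P) {t : Γ}
    (hn : ∀ x, x ∈ R ↔ t * x * t⁻¹ ∈ R) {M : AddSubgroup A}
    (hM : ∀ g ∈ R, ∀ x ∈ M, g • x ∈ M) (n : ℕ) (N : AddSubgroup A)
    (hNP : ∀ g ∈ P, ∀ x ∈ N, g • x ∈ N) (r : Γ) (hr : r ∈ R) (m : A) (hm : m ∈ noe_step_L t M n N) :
    r • m ∈ noe_step_L t M n N := by
  obtain ⟨hm, z, hz, h⟩ := hm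
  have hr' : t ^ n * r * (t ^ n)⁻¹ ∈ R := (noe_step_conj hn n r).1 hr
  refine ⟨hM r hr m hm, (t ^ n * r * (t ^ n)⁻¹) • z, hNP _ (hRP hr') z hz, ?_⟩
  have : (t ^ n * r * (t ^ n)⁻¹) • z - t ^ n • (r • m)
      = (t ^ n * r * (t ^ n)⁻¹) • (z - t ^ n • m) := by
    rw [smul_sub, ← mul_smul, ← mul_smul]
    congr 2
    group
  rw [this]
  exact noe_step_S_R hn hM n _ hr' _ h

end noe_step_sec

/-- the twisted Hilbert basis theorem (P. Hall): adjoining one element. -/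
theorem noe_step {Γ A : Type} [Group Γ] [AddCommGroup A] [DistribMulAction Γ A]
    (R P : Subgroup Γ) (t : Γ) (hRP : R ≤ P) (ht : t ∈ P) (hn : ∀ x, x ∈ R ↔ t * x * t⁻¹ ∈ R)
    (hc : ∀ x ∈ P, ∃ k : ℤ, t ^ (-k) * x ∈ R) (M : AddSubgroup A)
    (hM : ∀ g ∈ R, ∀ x ∈ M, g • x ∈ M) (hN : NoeOn R M) :
    NoeOn P (AddSubgroup.closure {a : A | ∃ g ∈ P, ∃ x ∈ M, a = g • x}) := by
  intro f hf hfs
  have hLM : ∀ n N, noe_step_L t M n N ≤ M := fun n N m hm => hm.1
  have hstab : ∀ n j, ∀ g ∈ R, ∀ x ∈ noe_step_L t M n (f j), g • x ∈ noe_step_L t M n (f j) :=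
    fun n j g hg x hx => noe_step_L_R hRP hn hM n (f j) (hfs j).2 g hg x hx
  obtain ⟨j0, hj0⟩ := hN (fun j => noe_step_L t M j (f j))
    (monotone_nat_of_le_succ fun j => (noe_step_L_succ t ht M j (f j) (hfs j).2).trans
      (noe_step_L_mono t M (j + 1) (hf (Nat.le_succ j))))
    (fun j => ⟨hLM _ _, hstab j j⟩)
  have hcol : ∀ n, ∃ j, ∀ m, j ≤ m → noe_step_L t M n (f m) = noe_step_L t M n (f j) := fun n =>
    hN (fun j => noe_step_L t M n (f j)) (fun i j hij => noe_step_L_mono t M n (hf hij))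
      (fun j => ⟨hLM _ _, hstab n j⟩)
  choose c hcc using hcol
  let J := max j0 ((Finset.range j0).sup c)
  have hJ0 : j0 ≤ J := le_max_left _ _
  have hJc : ∀ n, n < j0 → c n ≤ J := fun n hn' =>
    (Finset.le_sup (f := c) (Finset.mem_range.2 hn')).trans (le_max_right _ _)
  have hA : ∀ n j, J ≤ j → noe_step_L t M n (f j) = noe_step_L t M n (f J) := by
    intro n j hj
    by_cases hnj : n < j0
    · rw [hcc n j ((hJc n hnj).trans hj), hcc n J (hJc n hnj)]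
    · refine le_antisymm ?_ (noe_step_L_mono t M n (hf hj))
      calc noe_step_L t M n (f j) ≤ noe_step_L t M (max n j) (f j) :=
            noe_step_L_deg t ht M (le_max_left _ _) _ (hfs j).2
        _ ≤ noe_step_L t M (max n j) (f (max n j)) := noe_step_L_mono t M _ (hf (le_max_right _ _))
        _ = noe_step_L t M j0 (f j0) := hj0 (max n j) (by omega)
        _ ≤ noe_step_L t M n (f j0) := noe_step_L_deg t ht M (by omega) _ (hfs j0).2
        _ ≤ noe_step_L t M n (f J) := noe_step_L_mono t M _ (hf hJ0)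
  refine ⟨J, fun j hj => le_antisymm ?_ (hf hj)⟩
  have hB : ∀ n, ∀ z ∈ f j, z ∈ noe_step_S t M n → z ∈ f J := by
    intro n
    induction n with
    | zero =>
      intro z _ hz
      rw [noe_step_S_zero t M z hz]
      exact (f J).zero_mem
    | succ n ih =>
      intro z hzf hz
      obtain ⟨m, hm, s, hs, hzs⟩ := noe_step_S_succ t M n z hz
      have h1 : m ∈ noe_step_L t M n (f j) := ⟨hm, z, hzf, by rw [hzs, add_sub_cancel_left]; exact hs⟩
      rw [hA n j hj] at h1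
      obtain ⟨_, z', hz', h2⟩ := h1
      have h3 : z - z' ∈ noe_step_S t M n := by
        have : z - z' = s - (z' - t ^ n • m) := by rw [hzs]; abel
        rw [this]
        exact AddSubgroup.sub_mem _ hs h2
      have h4 : z - z' ∈ f j := (f j).sub_mem hzf (hf hj hz')
      have h5 := (f J).add_mem (ih _ h4 h3) hz'
      rwa [sub_add_cancel] at h5
  intro z hz
  obtain ⟨K, n, hKn⟩ := noe_step_cover hc hM z ((hfs j).1 hz)
  have h1 : t ^ K • z ∈ f J := hB n _ ((hfs j).2 _ (P.pow_mem ht K) z hz) hKn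
  have h2 := (hfs J).2 _ (P.inv_mem (P.pow_mem ht K)) _ h1
  rwa [inv_smul_smul] at h2

end Pool.Agent.Helper294.HallC
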