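import Pool.Agent.Helper294.HallC.Defs
import Pool.Agent.Helper294.HallC.Base
import Pool.Agent.Helper294.HallC.NoeStep

set_option autoImplicit false

namespace Pool.Agent.Helper294.HallC


theorem noe_of_fg_stable {Γ A : Type} [Group Γ] [AddCommGroup A] [DistribMulAction Γ A]
    (P R : Subgroup Γ) (hRP : R ≤ P) (S : Set A) (N : AddSubgroup A)
    (hN : ∀ g ∈ P, ∀ s ∈ S, g • s ∈ N) :
    ∀ g ∈ P, ∀ x ∈ AddSubgroup.closure {a : A | ∃ g ∈ R, ∃ s ∈ S, a = g • s}, g • x ∈ N := by
  intro g hg x hx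
  induction hx using AddSubgroup.closure_induction with
  | mem x hx =>
    obtain ⟨g', hg', s, hs, rfl⟩ := hx
    rw [← mul_smul]
    exact hN _ (P.mul_mem hg (hRP hg')) s hs
  | zero => rw [smul_zero]; exact N.zero_mem
  | add x y _ _ hx hy => rw [smul_add]; exact N.add_mem hx hy
  | neg x _ hx => rw [smul_neg]; exact N.neg_mem hx

theorem noe_of_fg_base {Γ A : Type} [Group Γ] [AddCommGroup A] [DistribMulAction Γ A]
    (S : Finset A) :
    NoeOn (⊥ : Subgroup Γ) (AddSubgroup.closure {a : A | ∃ g ∈ (⊥ : Subgroup Γ), ∃ s ∈ (S : Set A), a = g • s}) := by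
  intro f hf hfs
  have hset : {a : A | ∃ g ∈ (⊥ : Subgroup Γ), ∃ s ∈ (S : Set A), a = g • s} = (S : Set A) := by
    ext a
    constructor
    · rintro ⟨g, hg, s, hs, rfl⟩
      rw [Subgroup.mem_bot.1 hg, one_smul]; exact hs
    · intro ha
      exact ⟨1, Subgroup.mem_bot.2 rfl, a, ha, (one_smul _ _).symm⟩
  rw [hset] at hfs
  haveI : IsNoetherian ℤ (Submodule.span ℤ (S : Set A)) :=
    isNoetherian_span_of_finite ℤ S.finite_toSet
  have hmem : ∀ n, ∀ x ∈ f n, x ∈ Submodule.span ℤ (S : Set A) := by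
    intro n x hx
    have h1 := (hfs n).1 hx
    rw [← Submodule.span_int_eq_addSubgroupClosure] at h1
    exact h1
  obtain ⟨n, hn⟩ := monotone_stabilizes_iff_noetherian.2 this
    ⟨fun n => (AddSubgroup.toIntSubmodule (f n)).comap (Submodule.span ℤ (S : Set A)).subtype,
      fun a b hab x hx => hf hab hx⟩
  refine ⟨n, fun m hm => ?_⟩
  have h1 := hn m hm
  ext x
  constructor
  · intro hx
    have h2 : (⟨x, hmem m x hx⟩ : Submodule.span ℤ (S : Set A)) ∈
        (AddSubgroup.toIntSubmodule (f m)).comap (Submodule.span ℤ (S : Set A)).subtype := hx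
    have h3 : (⟨x, hmem m x hx⟩ : Submodule.span ℤ (S : Set A)) ∈
        (AddSubgroup.toIntSubmodule (f n)).comap (Submodule.span ℤ (S : Set A)).subtype := by
      have h4 : (AddSubgroup.toIntSubmodule (f n)).comap (Submodule.span ℤ (S : Set A)).subtype =
        (AddSubgroup.toIntSubmodule (f m)).comap (Submodule.span ℤ (S : Set A)).subtype := h1
      rw [h4]; exact h2
    exact h3
  · intro hx
    exact hf hm hx

/-- P. Hall: finitely generated modules over polycyclic groups are Noetherian. -/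
theorem noe_of_fg {Γ A : Type} [Group Γ] [AddCommGroup A] [DistribMulAction Γ A] (h : PC Γ)
    (hA : FGM Γ A) : Noe Γ A := by
  obtain ⟨S, hS⟩ := hA
  have key : NoeOn (⊤ : Subgroup Γ)
      (AddSubgroup.closure {a : A | ∃ g ∈ (⊤ : Subgroup Γ), ∃ s ∈ (S : Set A), a = g • s}) := by
    refine poly_ind h (fun R => NoeOn R
      (AddSubgroup.closure {a : A | ∃ g ∈ R, ∃ s ∈ (S : Set A), a = g • s}))
      (noe_of_fg_base S) ?_
    intro R P t hRP ht hn hc hR
    have h1 := noe_step R P t hRP ht hn hc _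
      (noe_of_fg_stable R R le_rfl (S : Set A) _ (fun g hg s hs =>
        AddSubgroup.subset_closure ⟨g, hg, s, hs, rfl⟩)) hR
    have h2 : AddSubgroup.closure {a : A | ∃ g ∈ P, ∃ x ∈
        AddSubgroup.closure {a : A | ∃ g ∈ R, ∃ s ∈ (S : Set A), a = g • s}, a = g • x} =
        AddSubgroup.closure {a : A | ∃ g ∈ P, ∃ s ∈ (S : Set A), a = g • s} := by
      apply le_antisymm
      · rw [AddSubgroup.closure_le]
        rintro a ⟨g, hg, x, hx, rfl⟩
        exact noe_of_fg_stable P R hRP (S : Set A)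
          (AddSubgroup.closure {a : A | ∃ g ∈ P, ∃ s ∈ (S : Set A), a = g • s}) (fun g hg s hs =>
          AddSubgroup.subset_closure ⟨g, hg, s, hs, rfl⟩) g hg x hx
      · rw [AddSubgroup.closure_le]
        rintro a ⟨g, hg, s, hs, rfl⟩
        have hs1 : s ∈ AddSubgroup.closure {a : A | ∃ g ∈ R, ∃ s ∈ (S : Set A), a = g • s} :=
          AddSubgroup.subset_closure ⟨1, R.one_mem, s, hs, (one_smul _ _).symm⟩
        exact AddSubgroup.subset_closure ⟨g, hg, s, hs1, rfl⟩
    rw [h2] at h1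
    exact h1
  have htop : AddSubgroup.closure
      {a : A | ∃ g ∈ (⊤ : Subgroup Γ), ∃ s ∈ (S : Set A), a = g • s} = ⊤ := by
    rw [← hS]
    congr 1
    ext a
    simp
  rw [htop] at key
  intro f hf hfs
  refine key f hf ?_
  intro n
  exact And.intro le_top (fun g _ x hx => hfs n g x hx)

end Pool.Agent.Helper294.HallC
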