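import Pool.Agent.Helper294.HallC.Defs

set_option autoImplicit false

namespace Pool.Agent.Helper294.HallC


/-- the action on the quotient by a stable subgroup -/
@[reducible] def sec_model_q {Γ A : Type} [Group Γ] [AddCommGroup A] [DistribMulAction Γ A]
    (C : AddSubgroup A) (hC : Stb Γ C) : DistribMulAction Γ (A ⧸ C) where
  smul g := QuotientAddGroup.map C C (DistribMulAction.toAddMonoidHom A g) (fun x hx => hC g x hx)
  one_smul := by
    rintro ⟨x⟩
    exact congrArg (QuotientAddGroup.mk (s := C)) (one_smul Γ x)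
  mul_smul := by
    rintro g h ⟨x⟩
    exact congrArg (QuotientAddGroup.mk (s := C)) (mul_smul g h x)
  smul_zero g := map_zero (QuotientAddGroup.map C C (DistribMulAction.toAddMonoidHom A g) (fun x hx => hC g x hx))
  smul_add g x y := map_add (QuotientAddGroup.map C C (DistribMulAction.toAddMonoidHom A g) (fun x hx => hC g x hx)) x y

/-- the restricted action -/
@[reducible] def sec_model_r {Γ A : Type} [Group Γ] [AddCommGroup A] [DistribMulAction Γ A]
    (B : AddSubgroup A) (hB : Stb Γ B) : DistribMulAction Γ B where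
  smul g x := ⟨g • x.1, hB g x.1 x.2⟩
  one_smul x := Subtype.ext (one_smul Γ x.1)
  mul_smul g h x := Subtype.ext (mul_smul g h x.1)
  smul_zero g := Subtype.ext (smul_zero g)
  smul_add g x y := Subtype.ext (smul_add g x.1 y.1)

theorem sec_model_stb {Γ A : Type} [Group Γ] [AddCommGroup A] [DistribMulAction Γ A] (a : A) :
    Stb Γ (AddSubgroup.closure {x : A | ∃ g : Γ, x = g • a}) := by
  intro g x hx
  induction hx using AddSubgroup.closure_induction with
  | mem x hx =>
    obtain ⟨h, rfl⟩ := hx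
    exact AddSubgroup.subset_closure ⟨g * h, by rw [mul_smul]⟩
  | zero => rw [smul_zero]; exact zero_mem _
  | add x y _ _ hx hy => rw [smul_add]; exact add_mem hx hy
  | neg x _ hx => rw [smul_neg]; exact neg_mem hx

theorem sec_model_fg {Γ A : Type} [Group Γ] [AddCommGroup A] [DistribMulAction Γ A] (a : A) :
    letI := sec_model_r _ (sec_model_stb (Γ := Γ) a)
    FGM Γ ↥(AddSubgroup.closure {x : A | ∃ g : Γ, x = g • a}) := by
  letI := sec_model_r _ (sec_model_stb (Γ := Γ) a)
  have ha : a ∈ AddSubgroup.closure {x : A | ∃ g : Γ, x = g • a} :=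
    AddSubgroup.subset_closure ⟨1, by rw [one_smul]⟩
  refine ⟨{⟨a, ha⟩}, ?_⟩
  rw [eq_top_iff]
  rintro ⟨x, hx⟩ -
  induction hx using AddSubgroup.closure_induction with
  | mem x hx =>
    obtain ⟨h, rfl⟩ := hx
    refine AddSubgroup.subset_closure ⟨h, ⟨a, ha⟩, by simp, ?_⟩
    rfl
  | zero => exact zero_mem _
  | add x y h1 h2 hx hy => exact add_mem hx hy
  | neg x h1 hx => exact neg_mem hx

/-- a model of the cyclic section `(C + ℤΓ a)/C`. -/
theorem sec_model {Γ A : Type} [Group Γ] [AddCommGroup A] [DistribMulAction Γ A]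
    (C : AddSubgroup A) (hC : Stb Γ C) (a : A) :
    ∃ (M : Type) (_ : AddCommGroup M) (_ : DistribMulAction Γ M)
      (φ : ↥(C ⊔ AddSubgroup.closure {x : A | ∃ g : Γ, x = g • a}) →+ M),
      FGM Γ M ∧ Function.Surjective φ ∧ (∀ x, φ x = 0 ↔ (x : A) ∈ C) ∧
      (∀ (g : Γ) (x y : ↥(C ⊔ AddSubgroup.closure {x : A | ∃ g : Γ, x = g • a})),
        (y : A) = g • (x : A) → φ y = g • φ x) := by
  letI := sec_model_q C hC
  set am : A ⧸ C := QuotientAddGroup.mk a with ham
  letI := sec_model_r _ (sec_model_stb (Γ := Γ) am)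
  have hmem : ∀ x : ↥(C ⊔ AddSubgroup.closure {x : A | ∃ g : Γ, x = g • a}),
      ((QuotientAddGroup.mk' C).comp (AddSubgroup.subtype _)) x ∈
        AddSubgroup.closure {x : A ⧸ C | ∃ g : Γ, x = g • am} := by
    rintro ⟨x, hx⟩
    show (QuotientAddGroup.mk' C) x ∈ _
    rw [← AddSubgroup.mem_comap]
    have hle : C ⊔ AddSubgroup.closure {x : A | ∃ g : Γ, x = g • a} ≤
        (AddSubgroup.closure {x : A ⧸ C | ∃ g : Γ, x = g • am}).comap (QuotientAddGroup.mk' C) := by
      refine sup_le ?_ ?_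
      · intro y hy
        rw [AddSubgroup.mem_comap]
        have : (QuotientAddGroup.mk' C) y = 0 := (QuotientAddGroup.eq_zero_iff y).2 hy
        rw [this]
        exact zero_mem _
      · rw [AddSubgroup.closure_le]
        rintro y ⟨g, rfl⟩
        exact AddSubgroup.subset_closure ⟨g, rfl⟩
    exact hle hx
  refine ⟨↥(AddSubgroup.closure {x : A ⧸ C | ∃ g : Γ, x = g • am}), inferInstance,
    sec_model_r _ (sec_model_stb (Γ := Γ) am),
    AddMonoidHom.codRestrict ((QuotientAddGroup.mk' C).comp (AddSubgroup.subtype _)) _ hmem,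
    sec_model_fg am, ?_, ?_, ?_⟩
  · rintro ⟨y, hy⟩
    have hle : AddSubgroup.closure {x : A ⧸ C | ∃ g : Γ, x = g • am} ≤
        (AddSubgroup.closure {x : A | ∃ g : Γ, x = g • a}).map (QuotientAddGroup.mk' C) := by
      rw [AddSubgroup.closure_le]
      rintro y ⟨g, rfl⟩
      exact ⟨g • a, AddSubgroup.subset_closure ⟨g, rfl⟩, rfl⟩
    obtain ⟨x, hx, rfl⟩ := hle hy
    exact ⟨⟨x, (le_sup_right : _ ≤ C ⊔ _) hx⟩, rfl⟩
  · rintro ⟨x, hx⟩
    rw [Subtype.ext_iff]
    exact QuotientAddGroup.eq_zero_iff x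
  · rintro g ⟨x, hx⟩ ⟨y, hy⟩ h
    have h' : y = g • x := h
    subst h'
    rfl

end Pool.Agent.Helper294.HallC
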