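import Pool.Agent.Helper294.HallC.Defs

set_option autoImplicit false

namespace Pool.Agent.Helper294.HallC


theorem tors_bdd {Γ A : Type} [Group Γ] [AddCommGroup A] [DistribMulAction Γ A]
    (h : Noe Γ A) : ∃ t : ℕ, 0 < t ∧ ∀ (n : ℕ) (a : A), 0 < n → n • a = 0 → t • a = 0 := by
  let f : ℕ → AddSubgroup A := fun n =>
    { carrier := {a | n.factorial • a = 0}
      zero_mem' := smul_zero _
      add_mem' := fun {a b} ha hb => by
        show n.factorial • (a + b) = 0
        have ha' : n.factorial • a = 0 := ha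
        have hb' : n.factorial • b = 0 := hb
        rw [smul_add, ha', hb', add_zero]
      neg_mem' := fun {a} ha => by
        show n.factorial • (-a) = 0
        have ha' : n.factorial • a = 0 := ha
        rw [smul_neg, ha', neg_zero] }
  have hmem : ∀ n a, a ∈ f n ↔ n.factorial • a = 0 := fun n a => Iff.rfl
  have hdvd : ∀ k l : ℕ, k ∣ l → ∀ a : A, k • a = 0 → l • a = 0 := by
    rintro k l ⟨c, rfl⟩ a ha
    rw [mul_comm, mul_smul, ha, smul_zero]
  have hmono : Monotone f := by
    intro n m hnm a ha
    exact hdvd _ _ (Nat.factorial_dvd_factorial hnm) a ha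
  have hst : ∀ n, Stb Γ (f n) := by
    intro n g a ha
    rw [hmem] at ha ⊢
    have h1 : g • (n.factorial • a) = n.factorial • (g • a) :=
      map_nsmul (DistribSMul.toAddMonoidHom A g) n.factorial a
    rw [← h1, ha, smul_zero]
  obtain ⟨N, hN⟩ := h f hmono hst
  refine ⟨N.factorial, Nat.factorial_pos N, fun n a hn ha => ?_⟩
  have h1 : a ∈ f (max n N) :=
    hdvd n _ (Nat.dvd_factorial hn (le_max_left _ _)) a ha
  rw [hN _ (le_max_right _ _)] at h1
  exact h1

end Pool.Agent.Helper294.HallC
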