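import Pool.Agent.Helper294.HallC.Defs
import Pool.Agent.Helper294.HallC.CycsOfCyc
import Pool.Agent.Helper294.HallC.CycsTrans
import Pool.Agent.Helper294.HallC.NoeOfFg
import Pool.Agent.Helper294.HallC.SecModel
import Pool.Agent.Helper294.HallC.TorsBdd

set_option autoImplicit false

namespace Pool.Agent.Helper294.HallC


theorem cyc_all_smul_nsmul {Γ A : Type} [Group Γ] [AddCommGroup A] [DistribMulAction Γ A]
    (g : Γ) (n : ℕ) (a : A) : g • (n • a) = n • (g • a) :=
  map_nsmul (DistribSMul.toAddMonoidHom A g) n a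

theorem cyc_all_stb_bot {Γ A : Type} [Group Γ] [AddCommGroup A] [DistribMulAction Γ A] :
    Stb Γ (⊥ : AddSubgroup A) := by
  intro g x hx
  rw [AddSubgroup.mem_bot] at hx ⊢
  rw [hx, smul_zero]

theorem cyc_all_cycs_bot {Γ A : Type} [Group Γ] [AddCommGroup A] [DistribMulAction Γ A] :
    CycS Γ (⊥ : AddSubgroup A) ⊥ := by
  refine ⟨0, 1, one_pos, fun g a ha => ⟨fun _ => ha, fun _ => ?_⟩⟩
  rw [AddSubgroup.mem_bot] at ha ⊢
  rw [ha, smul_zero, sub_zero]

theorem cyc_all_stb_sup {Γ A : Type} [Group Γ] [AddCommGroup A] [DistribMulAction Γ A]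
    (C : AddSubgroup A) (hC : Stb Γ C) (a : A) :
    Stb Γ (C ⊔ AddSubgroup.closure {x : A | ∃ g : Γ, x = g • a}) := by
  intro g x hx
  rw [AddSubgroup.mem_sup] at hx ⊢
  obtain ⟨c, hc, y, hy, rfl⟩ := hx
  refine ⟨g • c, hC g c hc, g • y, ?_, (smul_add g c y).symm⟩
  induction hy using AddSubgroup.closure_induction with
  | mem z hz =>
    obtain ⟨g', rfl⟩ := hz
    exact AddSubgroup.subset_closure ⟨g * g', smul_smul g g' a⟩
  | zero => rw [smul_zero]; exact AddSubgroup.zero_mem _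
  | add u v _ _ hu hv => rw [smul_add]; exact AddSubgroup.add_mem _ hu hv
  | neg u _ hu => rw [smul_neg]; exact AddSubgroup.neg_mem _ hu

theorem cyc_all_nsmul_mem {Γ A : Type} [Group Γ] [AddCommGroup A] [DistribMulAction Γ A]
    (C : AddSubgroup A) (hC : Stb Γ C) (a : A) (p : ℕ) (hp : p • a ∈ C) (x : A)
    (hx : x ∈ C ⊔ AddSubgroup.closure {x : A | ∃ g : Γ, x = g • a}) : p • x ∈ C := by
  rw [AddSubgroup.mem_sup] at hx
  obtain ⟨c, hc, y, hy, rfl⟩ := hx
  rw [nsmul_add]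
  refine AddSubgroup.add_mem _ (AddSubgroup.nsmul_mem _ hc _) ?_
  induction hy using AddSubgroup.closure_induction with
  | mem z hz =>
    obtain ⟨g', rfl⟩ := hz
    rw [← cyc_all_smul_nsmul]
    exact hC g' _ hp
  | zero => rw [nsmul_zero]; exact AddSubgroup.zero_mem _
  | add u v _ _ hu hv => rw [nsmul_add]; exact AddSubgroup.add_mem _ hu hv
  | neg u _ hu => rw [smul_neg]; exact AddSubgroup.neg_mem _ hu

theorem cyc_all_max {Γ A : Type} [Group Γ] [AddCommGroup A] [DistribMulAction Γ A]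
    (hN : Noe Γ A) : ∃ C : AddSubgroup A, Stb Γ C ∧ CycS Γ C ⊥ ∧
      ∀ B : AddSubgroup A, C < B → Stb Γ B → CycS Γ B ⊥ → False := by
  by_contra hno
  have key : ∀ C : {C : AddSubgroup A // Stb Γ C ∧ CycS Γ C ⊥},
      ∃ B : {C : AddSubgroup A // Stb Γ C ∧ CycS Γ C ⊥}, C.1 < B.1 := by
    intro C
    by_contra h
    apply hno
    refine ⟨C.1, C.2.1, C.2.2, fun B hB h1 h2 => h ⟨⟨B, h1, h2⟩, hB⟩⟩
  choose f hf using key
  let s : ℕ → {C : AddSubgroup A // Stb Γ C ∧ CycS Γ C ⊥} :=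
    fun n => f^[n] ⟨⊥, cyc_all_stb_bot, cyc_all_cycs_bot⟩
  have hs : ∀ n, (s n).1 < (s (n + 1)).1 := by
    intro n
    show (s n).1 < (f^[n + 1] _).1
    rw [Function.iterate_succ_apply']
    exact hf _
  have hmono : Monotone fun n => (s n).1 := monotone_nat_of_le_succ fun n => (hs n).le
  obtain ⟨n, hn⟩ := hN (fun n => (s n).1) hmono (fun n => (s n).2.1)
  exact absurd (hn (n + 1) (Nat.le_succ n)) (hs n).ne'

theorem cyc_all_div {A : Type} [AddCommGroup A] (C : AddSubgroup A)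
    (h : ∀ b : A, ∀ p : ℕ, p.Prime → p • b ∈ C → b ∈ C) :
    ∀ (n : ℕ) (b : A), 0 < n → n • b ∈ C → b ∈ C := by
  intro n
  induction n using Nat.strong_induction_on with
  | _ n ih =>
    intro b hn hb
    by_cases h1 : n = 1
    · rw [h1, one_nsmul] at hb; exact hb
    · have hp := Nat.minFac_prime h1
      obtain ⟨m, hm⟩ := Nat.minFac_dvd n
      have hm0 : 0 < m := by
        rcases Nat.eq_zero_or_pos m with h0 | h0
        · rw [h0, mul_zero] at hm; omega
        · exact h0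
      have hlt : m < n := by
        rw [hm]
        have := hp.two_le
        nlinarith
      refine ih m hlt b hm0 (h _ _ hp ?_)
      rw [← mul_nsmul', ← hm]
      exact hb

/-- dévissage: the theorem for all finitely generated modules. -/
theorem cyc_all (hp : HypP) (h0 : Hyp0) {Γ A : Type} [Group Γ] [AddCommGroup A]
    [DistribMulAction Γ A] (h : PC Γ) (hA : FGM Γ A) : Cyc Γ A := by
  have hN := noe_of_fg h hA
  obtain ⟨C, hC, hCb, hmax⟩ := cyc_all_max hN
  obtain ⟨t, ht0, ht⟩ := tors_bdd hN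
  have step : ∀ b : A, b ∉ C →
      ∀ (M : Type) [AddCommGroup M] [DistribMulAction Γ M]
      (φ : ↥(C ⊔ AddSubgroup.closure {x : A | ∃ g : Γ, x = g • b}) →+ M),
      (∀ x, φ x = 0 ↔ (x : A) ∈ C) →
      (∀ (g : Γ) (x y : ↥(C ⊔ AddSubgroup.closure {x : A | ∃ g : Γ, x = g • b})),
        (y : A) = g • (x : A) → φ y = g • φ x) → Cyc Γ M → False := by
    intro b hb M _ _ φ hφ hg hM
    have hB := cyc_all_stb_sup C hC b
    refine hmax _ ?_ hB (cycs_trans hB hC cyc_all_stb_bot bot_le le_sup_left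
      (cycs_of_cyc hB hC φ hφ hg hM) hCb ⟨t, ht0, ?_⟩)
    · refine lt_of_le_of_ne le_sup_left ?_
      intro heq
      apply hb
      rw [heq]
      exact AddSubgroup.mem_sup_right (AddSubgroup.subset_closure ⟨1, (one_smul Γ b).symm⟩)
    · intro n a _ hn hna
      rw [AddSubgroup.mem_bot] at hna ⊢
      exact ht n a hn hna
  have hCtop : ∀ b : A, b ∈ C := by
    by_cases hcase : ∀ b : A, ∀ p : ℕ, p.Prime → p • b ∈ C → b ∈ C
    · have hdiv := cyc_all_div C hcase
      intro b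
      by_contra hb
      obtain ⟨M, _, _, φ, hfg, hsurj, hker, hg⟩ := sec_model C hC b
      refine step b hb M φ hker hg (h0 Γ M h hfg ?_)
      intro n m hn hm
      obtain ⟨x, rfl⟩ := hsurj m
      rw [← map_nsmul, hker] at hm
      rw [hker]
      exact hdiv n x hn hm
    · exfalso
      push Not at hcase
      obtain ⟨b, p, hpp, hpb, hb⟩ := hcase
      obtain ⟨M, _, _, φ, hfg, hsurj, hker, hg⟩ := sec_model C hC b
      refine step b hb M φ hker hg (hp p Γ M hpp h hfg ?_)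
      intro m
      obtain ⟨x, rfl⟩ := hsurj m
      rw [← map_nsmul, hker]
      exact cyc_all_nsmul_mem C hC b p hpb x x.2
  obtain ⟨n, e, he, hne⟩ := hCb
  refine ⟨n, e, he, fun g a => ⟨?_, ?_⟩⟩
  · rintro ⟨k, hk⟩
    have := (hne g a (hCtop a)).1 ⟨k, by rw [AddSubgroup.mem_bot]; exact hk⟩
    rwa [AddSubgroup.mem_bot] at this
  · rintro ⟨k, hk0, hk⟩
    have := (hne g a (hCtop a)).2 ⟨k, hk0, by rw [AddSubgroup.mem_bot, hk, sub_self]⟩
    rwa [AddSubgroup.mem_bot, sub_eq_zero] at this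

end Pool.Agent.Helper294.HallC
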