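import Pool.Agent.Helper294.HallC.Defs

set_option autoImplicit false

namespace Pool.Agent.Helper294.HallC


theorem orb_span_comm {Γ V : Type} [Group Γ] [AddCommGroup V] [DistribMulAction Γ V] (g : Γ)
    (i : ℤ) (n : ℕ) (x : V) : (del g)^[n] (g ^ i • x) = g ^ i • (del g)^[n] x := by
  induction n generalizing x with
  | zero => rfl
  | succ n ih =>
    rw [Function.iterate_succ_apply, Function.iterate_succ_apply, ← ih]
    congr 1
    unfold del
    rw [smul_sub, ← mul_smul, ← mul_smul, ← zpow_one_add, ← zpow_add_one, add_comm]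

theorem orb_span_add {Γ V : Type} [Group Γ] [AddCommGroup V] [DistribMulAction Γ V] (g : Γ)
    (n : ℕ) (x y : V) : (del g)^[n] (x + y) = (del g)^[n] x + (del g)^[n] y := by
  induction n generalizing x y with
  | zero => rfl
  | succ n ih =>
    rw [Function.iterate_succ_apply, Function.iterate_succ_apply, Function.iterate_succ_apply, ← ih]
    congr 1
    unfold del
    rw [smul_add]
    abel

theorem orb_span_smul {K Γ V : Type} [DivisionRing K] [Group Γ] [AddCommGroup V] [Module K V]
    [DistribMulAction Γ V] (hlin : ∀ (g : Γ) (k : K) (x : V), g • k • x = k • g • x) (g : Γ)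
    (n : ℕ) (k : K) (x : V) : (del g)^[n] (k • x) = k • (del g)^[n] x := by
  induction n generalizing x with
  | zero => rfl
  | succ n ih =>
    rw [Function.iterate_succ_apply, Function.iterate_succ_apply, ← ih]
    congr 1
    unfold del
    rw [hlin, smul_sub]

theorem orb_span_zero {Γ V : Type} [Group Γ] [AddCommGroup V] [DistribMulAction Γ V] (g : Γ)
    (n : ℕ) : (del g)^[n] (0 : V) = 0 := by
  induction n with
  | zero => rfl
  | succ n ih =>
    rw [Function.iterate_succ_apply]
    unfold del at ih ⊢
    rw [smul_zero, sub_zero]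
    exact ih

/-- unipotent case -/
theorem orb_span_uni {K Γ V : Type} [DivisionRing K] [Group Γ] [AddCommGroup V] [Module K V]
    [DistribMulAction Γ V] (hlin : ∀ (g : Γ) (k : K) (x : V), g • k • x = k • g • x) (g : Γ)
    (a : V) (n : ℕ) (h : (del g)^[n] a = 0) :
    ∃ W0 : Submodule K V, FiniteDimensional K W0 ∧ ∀ i : ℤ, g ^ i • a ∈ W0 := by
  have hz : ∀ i, n ≤ i → (del g)^[i] a = 0 := by
    intro i hi
    obtain ⟨j, rfl⟩ := Nat.exists_eq_add_of_le hi
    rw [add_comm, Function.iterate_add_apply, h, orb_span_zero]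
  let W0 : Submodule K V := Submodule.span K ((fun i : ℕ => (del g)^[i] a) '' Set.Iio n)
  have hW : ∀ i, (del g)^[i] a ∈ W0 := by
    intro i
    by_cases hi : i < n
    · exact Submodule.subset_span ⟨i, hi, rfl⟩
    · rw [hz i (not_lt.mp hi)]
      exact W0.zero_mem
  have hg : ∀ x ∈ W0, g • x ∈ W0 := by
    intro x hx
    induction hx using Submodule.span_induction with
    | mem x hx =>
      obtain ⟨i, -, rfl⟩ := hx
      have e : g • (del g)^[i] a = (del g)^[i] a + (del g)^[i + 1] a := by
        rw [Function.iterate_succ_apply']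
        show _ = (del g)^[i] a + (g • (del g)^[i] a - (del g)^[i] a)
        abel
      show g • (del g)^[i] a ∈ W0
      rw [e]
      exact W0.add_mem (hW i) (hW (i + 1))
    | zero => rw [smul_zero]; exact W0.zero_mem
    | add x y _ _ hx hy => rw [smul_add]; exact W0.add_mem hx hy
    | smul k x _ hx => rw [hlin]; exact W0.smul_mem k hx
  have hinv : ∀ k i, n ≤ i + k → g⁻¹ • (del g)^[i] a ∈ W0 := by
    intro k
    induction k with
    | zero =>
      intro i hi
      rw [hz i (by omega), smul_zero]
      exact W0.zero_mem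
    | succ k ih =>
      intro i hi
      have e : g⁻¹ • (del g)^[i] a = (del g)^[i] a - g⁻¹ • (del g)^[i + 1] a := by
        rw [Function.iterate_succ_apply']
        show _ = (del g)^[i] a - g⁻¹ • (g • (del g)^[i] a - (del g)^[i] a)
        rw [smul_sub, inv_smul_smul]
        abel
      rw [e]
      exact W0.sub_mem (hW i) (ih (i + 1) (by omega))
  have hg' : ∀ x ∈ W0, g⁻¹ • x ∈ W0 := by
    intro x hx
    induction hx using Submodule.span_induction with
    | mem x hx =>
      obtain ⟨i, -, rfl⟩ := hx
      exact hinv n i (by omega)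
    | zero => rw [smul_zero]; exact W0.zero_mem
    | add x y _ _ hx hy => rw [smul_add]; exact W0.add_mem hx hy
    | smul k x _ hx => rw [hlin]; exact W0.smul_mem k hx
  refine ⟨W0, FiniteDimensional.span_of_finite K ((Set.finite_Iio n).image _), ?_⟩
  intro i
  induction i using Int.induction_on with
  | zero => rw [zpow_zero, one_smul]; exact hW 0
  | succ i ih =>
    rw [add_comm, zpow_one_add, mul_smul]
    exact hg _ ih
  | pred i ih =>
    have e : (-(i : ℤ) - 1) = -1 + -(i : ℤ) := by ring
    rw [e, zpow_add, zpow_neg_one, mul_smul]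
    exact hg' _ ih

theorem orb_span {K Γ V : Type} [DivisionRing K] [Group Γ] [AddCommGroup V] [Module K V]
    [DistribMulAction Γ V] (hlin : ∀ (g : Γ) (k : K) (x : V), g • k • x = k • g • x) (g : Γ)
    (a : V) (h : (∃ n, (del g)^[n] a = 0) ∨ ∃ n, 0 < n ∧ g ^ n • a = a) :
    ∃ W : Submodule K V, FiniteDimensional K W ∧ Stable (ac g) W ∧ a ∈ W ∧
      (∀ n, (del g)^[n] a = 0 → ∀ x ∈ W, (del g)^[n] x = 0) ∧
      (∀ n, g ^ n • a = a → ∀ x ∈ W, g ^ n • x = x) := by
  let S : Set V := {y | ∃ i : ℤ, y = g ^ i • a}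
  let W : Submodule K V := Submodule.span K S
  have hpow : ∀ (j : ℤ), ∀ x ∈ W, g ^ j • x ∈ W := by
    intro j x hx
    induction hx using Submodule.span_induction with
    | mem x hx =>
      obtain ⟨i, rfl⟩ := hx
      rw [← mul_smul, ← zpow_add]
      exact Submodule.subset_span ⟨j + i, rfl⟩
    | zero => rw [smul_zero]; exact W.zero_mem
    | add x y _ _ hx hy => rw [smul_add]; exact W.add_mem hx hy
    | smul k x _ hx => rw [hlin]; exact W.smul_mem k hx
  refine ⟨W, ?_, ?_, ?_, ?_, ?_⟩
  · rcases h with ⟨n, hn⟩ | ⟨n, hn0, hn⟩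
    · obtain ⟨W0, hW0, hmem⟩ := orb_span_uni hlin g a n hn
      have hle : W ≤ W0 := by
        apply Submodule.span_le.mpr
        rintro y ⟨i, rfl⟩
        exact hmem i
      exact Submodule.finiteDimensional_of_le hle
    · apply FiniteDimensional.span_of_finite K
      apply Set.Finite.subset ((Set.finite_Iio n).image (fun i : ℕ => g ^ i • a))
      rintro y ⟨i, rfl⟩
      have hst : ∀ k : ℤ, (g ^ n) ^ k • a = a := by
        intro k
        have h1 : g ^ n ∈ MulAction.stabilizer Γ a := hn
        exact Subgroup.zpow_mem _ h1 k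
      have hnz : (n : ℤ) ≠ 0 := by exact_mod_cast hn0.ne'
      have h2 : 0 ≤ i % (n : ℤ) := Int.emod_nonneg i hnz
      have h3 : i % (n : ℤ) < n := Int.emod_lt_of_pos i (by exact_mod_cast hn0)
      refine ⟨(i % (n : ℤ)).toNat, ?_, ?_⟩
      · show (i % (n : ℤ)).toNat < n
        omega
      · show g ^ (i % (n : ℤ)).toNat • a = g ^ i • a
        have h4 : g ^ i = g ^ (i % (n : ℤ)).toNat * (g ^ n) ^ (i / (n : ℤ)) := by
          rw [← zpow_natCast g (i % (n : ℤ)).toNat, ← zpow_natCast g n, ← zpow_mul, ← zpow_add,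
            Int.toNat_of_nonneg h2, Int.emod_add_mul_ediv]
        rw [h4, mul_smul, hst]
  · intro x
    constructor
    · intro hx
      have h1 := hpow (-1) _ hx
      have h2 : g ^ (-1 : ℤ) • (ac g : V ≃+ V) x = x := by
        rw [zpow_neg_one]
        exact inv_smul_smul g x
      rw [h2] at h1
      exact h1
    · intro hx
      have h1 := hpow 1 _ hx
      rw [zpow_one] at h1
      exact h1
  · exact Submodule.subset_span ⟨0, by rw [zpow_zero, one_smul]⟩
  · intro n hn x hx
    induction hx using Submodule.span_induction with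
    | mem x hx =>
      obtain ⟨i, rfl⟩ := hx
      rw [orb_span_comm, hn, smul_zero]
    | zero => exact orb_span_zero g n
    | add x y _ _ hx hy => rw [orb_span_add, hx, hy, add_zero]
    | smul k x _ hx => rw [orb_span_smul hlin, hx, smul_zero]
  · intro n hn x hx
    induction hx using Submodule.span_induction with
    | mem x hx =>
      obtain ⟨i, rfl⟩ := hx
      rw [← mul_smul, ← zpow_natCast, ← zpow_add, add_comm, zpow_add, zpow_natCast, mul_smul, hn]
    | zero => rw [smul_zero]
    | add x y _ _ hx hy => rw [smul_add, hx, hy]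
    | smul k x _ hx => rw [hlin, hx]

end Pool.Agent.Helper294.HallC
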