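import Pool.Agent.Helper294.HallC.Defs

set_option autoImplicit false

namespace Pool.Agent.Helper294.HallC


open Polynomial in
theorem period_codim_0_tot (d m : ℕ) (hm : 0 < m) (h : Nat.totient m ≤ d) :
    m ∣ (2 * d).factorial := by
  rw [Nat.dvd_iff_prime_pow_dvd_dvd]
  intro p k hp hpk
  rcases Nat.eq_zero_or_pos k with hk | hk
  · subst hk; simp
  · apply Nat.dvd_factorial (pow_pos hp.pos k)
    have h1 : Nat.totient (p ^ k) ≤ d :=
      (Nat.le_of_dvd (Nat.totient_pos.mpr hm) (Nat.totient_dvd_of_dvd hpk)).trans h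
    rw [Nat.totient_prime_pow hp hk] at h1
    have h2 : p ^ k = p ^ (k - 1) * p := by
      rw [← pow_succ]; congr 1; omega
    rw [h2]
    have h3 : p ≤ 2 * (p - 1) := by have := hp.two_le; omega
    calc p ^ (k - 1) * p ≤ p ^ (k - 1) * (2 * (p - 1)) := Nat.mul_le_mul_left _ h3
      _ = 2 * (p ^ (k - 1) * (p - 1)) := by ring
      _ ≤ 2 * d := Nat.mul_le_mul_left _ h1

open Polynomial in
theorem period_codim_0_fin (d : ℕ) (E : Type) [AddCommGroup E] [Module ℚ E]
    [FiniteDimensional ℚ E] (hd : Module.finrank ℚ E ≤ d) (S : Module.End ℚ E) (n : ℕ) (hn : 0 < n)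
    (hS : S ^ n = 1) : S ^ ((2 * d).factorial) = 1 := by
  classical
  set e := (2 * d).factorial with he
  set μ := minpoly ℚ S with hμ
  have hint : IsIntegral ℚ S := Algebra.IsIntegral.isIntegral S
  have hμ0 : μ ≠ 0 := minpoly.ne_zero hint
  have hμn : μ ∣ X ^ n - 1 := minpoly.dvd ℚ S (by simp [hS])
  have hsq : Squarefree μ := by
    refine Squarefree.squarefree_of_dvd hμn ?_
    apply Polynomial.Separable.squarefree
    rw [Polynomial.X_pow_sub_one_separable_iff]
    exact_mod_cast hn.ne'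
  have hdeg : μ.natDegree ≤ d := by
    have h1 : μ ∣ LinearMap.charpoly S := LinearMap.minpoly_dvd_charpoly S
    have h2 := Polynomial.natDegree_le_of_dvd h1 (LinearMap.charpoly_monic S).ne_zero
    rw [LinearMap.charpoly_natDegree] at h2
    omega
  have hirr : ∀ q : ℚ[X], Irreducible q → q ∣ μ → q ∣ X ^ e - 1 := by
    intro q hq hqμ
    have h1 : q ∣ ∏ m ∈ n.divisors, cyclotomic m ℚ := by
      rw [prod_cyclotomic_eq_X_pow_sub_one hn]
      exact hqμ.trans hμn
    obtain ⟨m, hm, hqm⟩ := (hq.prime.dvd_finsetProd_iff _).mp h1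
    have hmpos : 0 < m := Nat.pos_of_mem_divisors hm
    have hass : Associated q (cyclotomic m ℚ) :=
      (hq.dvd_irreducible_iff_associated (cyclotomic.irreducible_rat hmpos)).mp hqm
    have hdegq : Nat.totient m ≤ d := by
      have h3 : (cyclotomic m ℚ).natDegree = Nat.totient m := natDegree_cyclotomic m ℚ
      have h4 : cyclotomic m ℚ ∣ μ := hass.symm.dvd.trans hqμ
      have h5 := Polynomial.natDegree_le_of_dvd h4 hμ0
      omega
    have h6 : m ∣ e := period_codim_0_tot d m hmpos hdegq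
    obtain ⟨c, hc⟩ := h6
    refine hqm.trans ((cyclotomic.dvd_X_pow_sub_one m ℚ).trans ?_)
    rw [hc, pow_mul]
    simpa using sub_dvd_pow_sub_pow (X ^ m : ℚ[X]) 1 c
  have hdvd : μ ∣ X ^ e - 1 := by
    set g := EuclideanDomain.gcd μ (X ^ e - 1) with hg
    obtain ⟨h, hh⟩ : g ∣ μ := EuclideanDomain.gcd_dvd_left _ _
    have hu : IsUnit h := by
      by_contra hnu
      have hh0 : h ≠ 0 := by
        rintro rfl
        rw [mul_zero] at hh
        exact hμ0 hh
      obtain ⟨q, hq, hqh⟩ := WfDvdMonoid.exists_irreducible_factor hnu hh0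
      have hqμ : q ∣ μ := by rw [hh]; exact hqh.mul_left _
      have hqg : q ∣ g := EuclideanDomain.dvd_gcd hqμ (hirr q hq hqμ)
      have : q * q ∣ μ := by rw [hh]; exact mul_dvd_mul hqg hqh
      exact hq.not_isUnit (hsq q this)
    have : μ ∣ g := by
      rw [hh]
      exact hu.mul_right_dvd.mpr dvd_rfl
    exact this.trans (EuclideanDomain.gcd_dvd_right _ _)
  obtain ⟨r, hr⟩ := hdvd
  have h7 : aeval S (X ^ e - 1 : ℚ[X]) = 0 := by
    rw [hr, map_mul, minpoly.aeval, zero_mul]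
  simp at h7
  exact sub_eq_zero.mp h7

theorem period_codim_0 (d : ℕ) : ∃ e : ℕ, 0 < e ∧
    ∀ (V : Type) [AddCommGroup V] [Module ℚ V] (T : V →ₗ[ℚ] V) (W V' : Submodule ℚ V),
      FiniteDimensional ℚ W → V' ≤ W → (∀ x ∈ W, T x ∈ W) → (∀ x ∈ V', T x ∈ V') →
      (∃ n, 0 < n ∧ ∀ x ∈ W, (T ^ n) x = x) →
      Module.finrank ℚ W ≤ Module.finrank ℚ V' + d → ∀ x ∈ W, (T ^ e) x - x ∈ V' := by
  refine ⟨(2 * d).factorial, Nat.factorial_pos _, ?_⟩
  intro V _ _ T W V' hW hV'W hTW hTV' ⟨n, hn, hper⟩ hrank x hx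
  let TW : Module.End ℚ W := T.restrict hTW
  have hTWk : ∀ (k : ℕ) (w : W), ((TW ^ k) w : V) = (T ^ k) (w : V) := by
    intro k
    induction k with
    | zero => intro w; simp
    | succ k ih =>
      intro w
      rw [pow_succ, pow_succ, Module.End.mul_apply, Module.End.mul_apply, ih]
      rfl
  let P : Submodule ℚ W := V'.comap W.subtype
  have hP : P ≤ P.comap TW := by
    intro w hw
    exact hTV' w hw
  let TQ : Module.End ℚ (W ⧸ P) := P.mapQ P TW hP
  have hTQk : ∀ (k : ℕ) (w : W), (TQ ^ k) (P.mkQ w) = P.mkQ ((TW ^ k) w) := by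
    intro k
    induction k with
    | zero => intro w; simp
    | succ k ih =>
      intro w
      rw [pow_succ, pow_succ, Module.End.mul_apply, Module.End.mul_apply, ← ih]
      rfl
  have hTQn : TQ ^ n = 1 := by
    ext w
    have h1 := hTQk n w
    have h2 : (TW ^ n) w = w := by
      apply Subtype.ext
      rw [hTWk]
      exact hper w w.2
    rw [h2] at h1
    exact h1
  have hfr : Module.finrank ℚ (W ⧸ P) ≤ d := by
    have h1 := Submodule.finrank_quotient_add_finrank P
    have h2 : Module.finrank ℚ P = Module.finrank ℚ V' :=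
      (Submodule.comapSubtypeEquivOfLe hV'W).finrank_eq
    omega
  have hfin := period_codim_0_fin d (W ⧸ P) hfr TQ n hn hTQn
  have h3 := hTQk ((2 * d).factorial) ⟨x, hx⟩
  rw [hfin] at h3
  have h4 : P.mkQ ((TW ^ ((2 * d).factorial)) ⟨x, hx⟩) = P.mkQ ⟨x, hx⟩ := h3.symm
  have h5 : (TW ^ ((2 * d).factorial)) ⟨x, hx⟩ - ⟨x, hx⟩ ∈ P := (Submodule.Quotient.eq P).mp h4
  have h6 : (((TW ^ ((2 * d).factorial)) ⟨x, hx⟩ - ⟨x, hx⟩ : W) : V) ∈ V' := h5
  rw [AddSubgroupClass.coe_sub, hTWk] at h6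
  exact h6

end Pool.Agent.Helper294.HallC
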