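import Pool.Agent.Helper294.HallC.Defs

set_option autoImplicit false

namespace Pool.Agent.Helper294.HallC


theorem rad_iter_aux {K V : Type} [DivisionRing K] [AddCommGroup V] [Module K V] (u : V ≃+ V)
    (d l : ℕ) (W : Submodule K V) (hW : Stable u W) (f : V → V)
    (hf : ∀ W' V' : Submodule K V, W' ≤ W → Stable u W' → V' ≤ W' → Stable u V' →
      Module.finrank K W' ≤ Module.finrank K V' + d → ∀ x ∈ W', f x ∈ V') :
    (rad u d)^[l] W ≤ W ∧ Stable u ((rad u d)^[l] W) ∧ ∀ x ∈ W, f^[l] x ∈ (rad u d)^[l] W := by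
  induction l with
  | zero => exact ⟨le_refl _, hW, fun x hx => hx⟩
  | succ l ih =>
    obtain ⟨h1, h2, h3⟩ := ih
    rw [Function.iterate_succ_apply']
    set Wl := (rad u d)^[l] W with hWl
    refine ⟨?_, ?_, ?_⟩
    · refine le_trans ?_ h1
      exact sInf_le ⟨le_refl _, h2, Nat.le_add_right _ _⟩
    · intro x
      unfold rad
      rw [Submodule.mem_sInf, Submodule.mem_sInf]
      constructor
      · intro h V' hV'
        exact (hV'.2.1 x).mp (h V' hV')
      · intro h V' hV'
        exact (hV'.2.1 x).mpr (h V' hV')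
    · intro x hx
      rw [Function.iterate_succ_apply']
      unfold rad
      rw [Submodule.mem_sInf]
      intro V' hV'
      exact hf Wl V' h1 h2 hV'.1 hV'.2.1 hV'.2.2 _ (h3 x hx)

theorem rad_iter {K V : Type} [DivisionRing K] [AddCommGroup V] [Module K V] (u : V ≃+ V)
    (d l : ℕ) (W : Submodule K V) (hW : Stable u W) (f : V → V)
    (hf : ∀ W' V' : Submodule K V, W' ≤ W → Stable u W' → V' ≤ W' → Stable u V' →
      Module.finrank K W' ≤ Module.finrank K V' + d → ∀ x ∈ W', f x ∈ V') :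
    ∀ x ∈ W, f^[l] x ∈ (rad u d)^[l] W :=
  (rad_iter_aux u d l W hW f hf).2.2

end Pool.Agent.Helper294.HallC
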