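import Pool.Agent.Helper294.HallC.Defs

set_option autoImplicit false

namespace Pool.Agent.Helper294.HallC


theorem nilp_codim {K V : Type} [DivisionRing K] [AddCommGroup V] [Module K V] (N : V →ₗ[K] V)
    (W V' : Submodule K V) (hfd : FiniteDimensional K W) (hV : V' ≤ W)
    (hNW : ∀ x ∈ W, N x ∈ W) (hNV : ∀ x ∈ V', N x ∈ V')
    (hn : ∃ n, ∀ x ∈ W, (N ^ n) x = 0) (d : ℕ)
    (hd : Module.finrank K W ≤ Module.finrank K V' + d) : ∀ x ∈ W, (N ^ d) x ∈ V' := by
  set F : ℕ → Submodule K V := fun i => V' ⊔ Submodule.map (N ^ i) W with hF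
  have hNV' : Submodule.map N V' ≤ V' := by
    rintro _ ⟨x, hx, rfl⟩
    exact hNV x hx
  have hstep : ∀ i, F (i + 1) = V' ⊔ Submodule.map N (F i) := by
    intro i
    simp only [hF]
    rw [Submodule.map_sup, ← sup_assoc, sup_eq_left.2 hNV', ← Submodule.map_comp, pow_succ']
    rfl
  have hmono : ∀ i, F (i + 1) ≤ F i := by
    intro i
    apply sup_le_sup_left
    rintro _ ⟨x, hx, rfl⟩
    refine ⟨N x, hNW x hx, ?_⟩
    rw [pow_succ]
    rfl
  have hF0 : F 0 = W := by
    simp only [hF, pow_zero]
    rw [show (1 : V →ₗ[K] V) = LinearMap.id from rfl, Submodule.map_id]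
    exact sup_eq_right.2 hV
  have hFW : ∀ i, F i ≤ W := by
    intro i
    induction i with
    | zero => exact hF0.le
    | succ i ih => exact (hmono i).trans ih
  have hFfd : ∀ i, FiniteDimensional K (F i) := fun i =>
    Submodule.finiteDimensional_of_le (hFW i)
  obtain ⟨n, hn⟩ := hn
  have hFn : ∀ m, n ≤ m → F m = V' := by
    intro m hm
    induction m, hm using Nat.le_induction with
    | base =>
      apply sup_eq_left.2
      rintro _ ⟨x, hx, rfl⟩
      rw [hn x hx]
      exact Submodule.zero_mem _
    | succ m hm ih =>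
      rw [hstep, ih]
      exact sup_eq_left.2 hNV'
  have hstab : ∀ i, F (i + 1) = F i → F i = V' := by
    intro i hi
    have h1 : ∀ k, F (i + k) = F i := by
      intro k
      induction k with
      | zero => rfl
      | succ k ih =>
        rw [← Nat.add_assoc, hstep, ih, ← hstep, hi]
    rw [← h1 n]
    exact hFn _ (Nat.le_add_left _ _)
  have hmain : ∀ i, F i = V' ∨ Module.finrank K (F i) + i ≤ Module.finrank K W := by
    intro i
    induction i with
    | zero =>
      right
      rw [hF0]
      exact le_rfl
    | succ i ih =>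
      rcases ih with ih | ih
      · left
        rw [hstep, ih]
        exact sup_eq_left.2 hNV'
      · by_cases h : F (i + 1) = F i
        · left
          rw [h]
          exact hstab i h
        · right
          have := hFfd i
          have h1 := Submodule.finrank_lt_finrank_of_lt (lt_of_le_of_ne (hmono i) h)
          omega
  have hFd : F d = V' := by
    rcases hmain d with h | h
    · exact h
    · have := hFfd d
      have h2 : V' ≤ F d := le_sup_left
      have h3 : Module.finrank K (F d) ≤ Module.finrank K V' := by omega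
      exact (Submodule.eq_of_le_of_finrank_le h2 h3).symm
  intro x hx
  rw [← hFd]
  exact Submodule.mem_sup_right ⟨x, hx, rfl⟩



end Pool.Agent.Helper294.HallC
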