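import Pool.Agent.Helper294.HallC.Defs
import Pool.Agent.Helper294.HallC.NilpCodim
import Pool.Agent.Helper294.HallC.OrbSpan
import Pool.Agent.Helper294.HallC.RadIter

set_option autoImplicit false

namespace Pool.Agent.Helper294.HallC


theorem t_height {K Γ V : Type} [DivisionRing K] [Group Γ] [AddCommGroup V] [Module K V]
    [DistribMulAction Γ V] (hlin : ∀ (g : Γ) (k : K) (x : V), g • k • x = k • g • x)
    {l d : ℕ} (h : ∀ (g : Γ) (W : Submodule K V), FiniteDimensional K W →
      Stable (ac g) W → Bdd (ac g : V ≃+ V) l d W) (g : Γ) (a : V)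
    (ha : ∃ n, (del g)^[n] a = 0) : (del g)^[d * l] a = 0 := by
  obtain ⟨W, hfd, hst, haW, hdel, -⟩ := orb_span hlin g a (Or.inl ha)
  obtain ⟨n, hn⟩ := ha
  let N : V →ₗ[K] V :=
    { toFun := fun x => g • x - x
      map_add' := fun x y => by
        rw [smul_add]
        abel
      map_smul' := fun k x => by
        rw [hlin, RingHom.id_apply, smul_sub] }
  have hN : ∀ m x, (N ^ m) x = (del g)^[m] x := fun m x => Module.End.pow_apply N m x
  have key := rad_iter (ac g) d l W hst ((del g)^[d]) (by
    intro W' V' hW' hs' hV' hsV' hfr x hx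
    have hfd' : FiniteDimensional K W' := Submodule.finiteDimensional_of_le hW'
    have h1 := nilp_codim N W' V' hfd' hV'
      (fun x hx => W'.sub_mem ((hs' x).2 hx) hx) (fun x hx => V'.sub_mem ((hsV' x).2 hx) hx)
      ⟨n, fun x hx => by rw [hN]; exact hdel n hn x (hW' hx)⟩ d hfr x hx
    rwa [hN] at h1) a haW
  have h2 : (rad (ac g) d)^[l] W = ⊥ := h g W hfd hst
  rw [h2, Submodule.mem_bot, ← Function.iterate_mul] at key
  exact key

end Pool.Agent.Helper294.HallC
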