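import Pool.Agent.Helper294.HallC.Defs

set_option autoImplicit false

namespace Pool.Agent.Helper294.HallC


theorem unip_fin_0_aux {V : Type} [AddCommGroup V] [Module ℚ V] (T : V →ₗ[ℚ] V) (n : ℕ)
    (hn : 0 < n) (z : V) (h1 : T (T z - z) = T z - z) (h2 : (T ^ n) z = z) : T z = z := by
  have key : ∀ i : ℕ, (T ^ i) z = z + (i : ℚ) • (T z - z) := by
    intro i
    induction i with
    | zero => simp
    | succ i ih =>
      rw [pow_succ', Module.End.mul_apply, ih, map_add, map_smul, h1]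
      push_cast
      rw [add_smul, one_smul]
      abel
  have h3 := key n
  rw [h2] at h3
  have h4 : (n : ℚ) • (T z - z) = 0 := by
    have h5 : z + (n : ℚ) • (T z - z) = z + 0 := by rw [← h3, add_zero]
    exact add_left_cancel h5
  rcases smul_eq_zero.1 h4 with h | h
  · exact absurd h (by exact_mod_cast hn.ne')
  · exact sub_eq_zero.1 h

theorem unip_fin_0_main {V : Type} [AddCommGroup V] [Module ℚ V] (T : V →ₗ[ℚ] V) (n : ℕ)
    (hn : 0 < n) (l : ℕ) : ∀ z : V, ((T - 1) ^ l) z = 0 → (T ^ n) z = z → T z = z := by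
  induction l with
  | zero =>
    intro z h1 _
    have h2 : z = 0 := by simpa using h1
    rw [h2, map_zero]
  | succ l ih =>
    intro z h1 h2
    have h3 : ((T - 1) ^ l) (T z - z) = 0 := by
      rw [pow_succ, Module.End.mul_apply] at h1
      exact h1
    have h4 : (T ^ n) (T z - z) = T z - z := by
      rw [map_sub, h2]
      congr 1
      have h5 : (T ^ n) (T z) = T ((T ^ n) z) := by
        rw [← Module.End.mul_apply, ← Module.End.mul_apply, ← pow_succ, ← pow_succ']
      rw [h5, h2]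
    exact unip_fin_0_aux T n hn z (ih _ h3 h4) h2

theorem unip_fin_0 {V : Type} [AddCommGroup V] [Module ℚ V] (T : V →ₗ[ℚ] V)
    (W : Submodule ℚ V) (hT : ∀ x ∈ W, T x ∈ W) (l n : ℕ) (hn : 0 < n)
    (h1 : ∀ x ∈ W, ((T - 1) ^ l) x = 0) (h2 : ∀ x ∈ W, (T ^ n) x = x) : ∀ x ∈ W, T x = x :=
  fun x hx => unip_fin_0_main T n hn l x (h1 x hx) (h2 x hx)

end Pool.Agent.Helper294.HallC
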