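import Pool.Agent.Helper294.HallC.Defs
import Pool.Agent.Helper294.HallC.OrbSpan
import Pool.Agent.Helper294.HallC.PeriodCodim0
import Pool.Agent.Helper294.HallC.RadIter
import Pool.Agent.Helper294.HallC.THeight
import Pool.Agent.Helper294.HallC.UnipFin0

set_option autoImplicit false

namespace Pool.Agent.Helper294.HallC


theorem cyc_of_t0 {Γ V : Type} [Group Γ] [AddCommGroup V] [Module ℚ V]
    [DistribMulAction Γ V] (h : TProp ℚ Γ V) : Cyc Γ V := by
  obtain ⟨l, d, hb⟩ := h
  have hlin : ∀ (g : Γ) (k : ℚ) (x : V), g • k • x = k • g • x := by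
    intro g k x
    exact map_rat_smul (DistribMulAction.toAddMonoidHom V g) k x
  obtain ⟨e, he, hper⟩ := period_codim_0 d
  refine ⟨d * l, e, he, fun g a => ⟨fun ha => t_height hlin hb g a ha, fun ha => ?_⟩⟩
  obtain ⟨W, hWf, hWs, haW, _, hWp⟩ := orb_span (K := ℚ) hlin g a (Or.inr ha)
  obtain ⟨n, hn, hna⟩ := ha
  have hfix : ∀ x ∈ W, g ^ n • x = x := hWp n hna
  let T : V →ₗ[ℚ] V :=
    { toFun := fun x => g • x
      map_add' := fun x y => smul_add g x y
      map_smul' := fun k x => hlin g k x }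
  have hT : ∀ x, T x = g • x := fun x => rfl
  have hTk : ∀ (k : ℕ) (x : V), (T ^ k) x = g ^ k • x := by
    intro k
    induction k with
    | zero => intro x; simp
    | succ k ih =>
      intro x
      rw [pow_succ, Module.End.mul_apply, hT, ih, smul_smul, ← pow_succ]
  have hf : ∀ W' V' : Submodule ℚ V, W' ≤ W → Stable (ac g : V ≃+ V) W' → V' ≤ W' →
      Stable (ac g : V ≃+ V) V' →
      Module.finrank ℚ W' ≤ Module.finrank ℚ V' + d → ∀ x ∈ W', (g ^ e • x - x) ∈ V' := by
    intro W' V' hW' hsW' hV' hsV' hfin x hx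
    have hW'f : FiniteDimensional ℚ W' := Submodule.finiteDimensional_of_le hW'
    have := hper V T W' V' hW'f hV' (fun y hy => (hsW' y).2 hy) (fun y hy => (hsV' y).2 hy)
      ⟨n, hn, fun y hy => by rw [hTk]; exact hfix y (hW' hy)⟩ hfin x hx
    rw [hTk] at this
    exact this
  have hrad := rad_iter (K := ℚ) (ac g : V ≃+ V) d l W hWs (fun x => g ^ e • x - x) hf
  have hbot : (rad (ac g : V ≃+ V) d)^[l] W = ⊥ := hb g W hWf hWs
  have hSf : (fun x => (T ^ e - 1) x) = (fun x => g ^ e • x - x) := by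
    funext x
    rw [LinearMap.sub_apply, hTk]
    rfl
  have hS1 : ∀ x ∈ W, ((T ^ e - 1) ^ l) x = 0 := by
    intro x hx
    have h1 := hrad x hx
    rw [hbot, Submodule.mem_bot] at h1
    rw [Module.End.pow_apply]
    have h2 : (⇑(T ^ e - 1) : V → V) = fun x => g ^ e • x - x := hSf
    rw [h2]
    exact h1
  have hS2 : ∀ x ∈ W, ((T ^ e) ^ n) x = x := by
    intro x hx
    rw [← pow_mul, hTk, pow_mul']
    clear_value T
    clear hSf hS1 hrad hbot hf hper he
    induction e with
    | zero => simp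
    | succ e ih => rw [pow_succ, ← smul_smul, hfix x hx, ih]
  have hS0 : ∀ x ∈ W, (T ^ e) x ∈ W := by
    intro x hx
    rw [hTk]
    have h1 : ∀ k : ℕ, g ^ k • x ∈ W := by
      intro k
      induction k with
      | zero => simpa using hx
      | succ k ih =>
        rw [pow_succ', ← smul_smul]
        exact (hWs _).2 ih
    exact h1 e
  have := unip_fin_0 (T ^ e) W hS0 l n hn hS1 hS2 a haW
  rw [hTk] at this
  exact this

end Pool.Agent.Helper294.HallC
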