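import Pool.Agent.Helper294.HallC.Defs

set_option autoImplicit false

namespace Pool.Agent.Helper294.HallC


theorem period_codim_p (p : ℕ) [Fact p.Prime] (d : ℕ) : ∃ e : ℕ, 0 < e ∧
    ∀ (V : Type) [AddCommGroup V] [Module (ZMod p) V] (T : V →ₗ[ZMod p] V)
      (W V' : Submodule (ZMod p) V),
      FiniteDimensional (ZMod p) W → V' ≤ W → (∀ x ∈ W, T x ∈ W) → (∀ x ∈ V', T x ∈ V') →
      (∃ n, 0 < n ∧ ∀ x ∈ W, (T ^ n) x = x) →
      Module.finrank (ZMod p) W ≤ Module.finrank (ZMod p) V' + d →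
      ∀ x ∈ W, (T ^ e) x - x ∈ V' := by
  refine ⟨(p ^ d).factorial, Nat.factorial_pos _, ?_⟩
  intro V _ _ T W V' hfd hVW hW hV' hn hrank x hx
  obtain ⟨n, hn0, hn⟩ := hn
  let TW : W →ₗ[ZMod p] W := T.restrict hW
  let V2 : Submodule (ZMod p) W := V'.comap W.subtype
  have hmem2 : ∀ y : W, y ∈ V2 ↔ (y : V) ∈ V' := fun y => Iff.rfl
  have hTV2 : V2 ≤ V2.comap TW := by
    intro y hy
    rw [Submodule.mem_comap, hmem2]
    exact hV' _ ((hmem2 y).mp hy)
  let Tb : (W ⧸ V2) →ₗ[ZMod p] (W ⧸ V2) := V2.mapQ V2 TW hTV2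
  have hTb : ∀ y : W, Tb (V2.mkQ y) = V2.mkQ (TW y) := fun y => Submodule.mapQ_apply _ _ _ _
  have hit1 : ∀ (k : ℕ) (y : W), ((TW^[k] y : W) : V) = T^[k] (y : V) := by
    intro k
    induction k with
    | zero => intro y; rfl
    | succ k ih =>
      intro y
      rw [Function.iterate_succ_apply, Function.iterate_succ_apply, ih]
      rfl
  have hit2 : ∀ (k : ℕ) (y : W), Tb^[k] (V2.mkQ y) = V2.mkQ (TW^[k] y) := by
    intro k
    induction k with
    | zero => intro y; rfl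
    | succ k ih =>
      intro y
      rw [Function.iterate_succ_apply, Function.iterate_succ_apply, hTb, ih]
  have hTWn : ∀ y : W, TW^[n] y = y := by
    intro y
    apply Subtype.ext
    rw [hit1, ← Module.End.pow_apply]
    exact hn y y.2
  have hTbn : ∀ z : W ⧸ V2, Tb^[n] z = z := by
    intro z
    obtain ⟨y, rfl⟩ := V2.mkQ_surjective z
    rw [hit2, hTWn]
  have hinj : Function.Injective Tb := by
    intro z z' h
    obtain ⟨m, hm⟩ : ∃ m, n = m + 1 := ⟨n - 1, by omega⟩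
    rw [← hTbn z, ← hTbn z', hm, Function.iterate_succ_apply, Function.iterate_succ_apply, h]
  have hfinE : Finite (W ⧸ V2) := Module.finite_of_finite (ZMod p)
  have hbij : Function.Bijective Tb := Finite.injective_iff_bijective.mp hinj
  let σ : Equiv.Perm (W ⧸ V2) := Equiv.ofBijective Tb hbij
  haveI : Fintype (W ⧸ V2) := Fintype.ofFinite _
  classical
  have hrankV2 : Module.finrank (ZMod p) V2 = Module.finrank (ZMod p) V' :=
    (Submodule.comapSubtypeEquivOfLe hVW).finrank_eq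
  have hrE : Module.finrank (ZMod p) (W ⧸ V2) ≤ d := by
    have h1 := Submodule.finrank_quotient_add_finrank V2
    omega
  have hcard : Fintype.card (W ⧸ V2) ≤ p ^ d := by
    rw [Module.card_eq_pow_finrank (K := ZMod p), ZMod.card]
    exact Nat.pow_le_pow_right (Fact.out : p.Prime).pos hrE
  have hσ : σ ^ (p ^ d).factorial = 1 := by
    have h1 : σ ^ (Fintype.card (W ⧸ V2)).factorial = 1 := by
      rw [← Fintype.card_perm]
      exact pow_card_eq_one
    obtain ⟨c, hc⟩ := Nat.factorial_dvd_factorial hcard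
    rw [hc, pow_mul, h1, one_pow]
  have hfin : Tb^[(p ^ d).factorial] (V2.mkQ ⟨x, hx⟩) = V2.mkQ ⟨x, hx⟩ := by
    have h1 : (⇑σ)^[(p ^ d).factorial] = ⇑(σ ^ (p ^ d).factorial) := Equiv.Perm.iterate_eq_pow _ _
    have h2 : (⇑σ) = ⇑Tb := rfl
    rw [← h2, h1, hσ]
    rfl
  rw [hit2] at hfin
  have h3 := (Submodule.Quotient.eq V2).mp hfin
  rw [hmem2] at h3
  rw [Module.End.pow_apply, ← hit1 _ ⟨x, hx⟩]
  exact h3

end Pool.Agent.Helper294.HallC
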