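import Pool.Agent.Helper294.HallC.Defs

set_option autoImplicit false

namespace Pool.Agent.Helper294.HallC


theorem unip_fin_p_pow (p : ℕ) [Fact p.Prime] {V : Type} [AddCommGroup V] [Module (ZMod p) V]
    (T : V →ₗ[ZMod p] V) (k : ℕ) : (T - 1) ^ (p ^ k) = T ^ (p ^ k) - 1 := by
  have h : ((Polynomial.X : Polynomial (ZMod p)) - 1) ^ (p ^ k) = Polynomial.X ^ (p ^ k) - 1 := by
    have := sub_pow_char_pow (Polynomial.X : Polynomial (ZMod p)) 1 (p := p) (n := k)
    rwa [one_pow] at this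
  have h2 := congrArg (Polynomial.aeval (R := ZMod p) (A := Module.End (ZMod p) V) T) h
  rw [map_pow, map_sub, map_sub, map_pow, Polynomial.aeval_X, map_one] at h2
  exact h2

theorem unip_fin_p (p : ℕ) [Fact p.Prime] {V : Type} [AddCommGroup V] [Module (ZMod p) V]
    (T : V →ₗ[ZMod p] V) (l k : ℕ) (hk : l ≤ p ^ k) (x : V) (h1 : ((T - 1) ^ l) x = 0) :
    (T ^ (p ^ k)) x = x := by
  have h2 : ((T - 1) ^ (p ^ k)) x = 0 := by
    rw [← Nat.sub_add_cancel hk, pow_add, Module.End.mul_apply, h1, map_zero]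
  rw [unip_fin_p_pow, LinearMap.sub_apply, Module.End.one_apply] at h2
  exact sub_eq_zero.1 h2

end Pool.Agent.Helper294.HallC
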