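import Pool.Agent.Helper294.HallC.Defs
import Pool.Agent.Helper294.HallC.OrbSpan
import Pool.Agent.Helper294.HallC.PeriodCodimP
import Pool.Agent.Helper294.HallC.RadIter
import Pool.Agent.Helper294.HallC.THeight
import Pool.Agent.Helper294.HallC.UnipFinP

set_option autoImplicit false

namespace Pool.Agent.Helper294.HallC


theorem cyc_of_tp_lin (p : ℕ) [Fact p.Prime] {Γ V : Type} [Group Γ] [AddCommGroup V]
    [Module (ZMod p) V] [DistribMulAction Γ V] (g : Γ) (k : ZMod p) (x : V) :
    g • k • x = k • g • x :=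
  ZMod.map_smul (DistribMulAction.toAddMonoidHom V g) k x

/-- the linear map `x ↦ g • x` -/
def cyc_of_tp_T (p : ℕ) [Fact p.Prime] {Γ V : Type} [Group Γ] [AddCommGroup V]
    [Module (ZMod p) V] [DistribMulAction Γ V] (g : Γ) : V →ₗ[ZMod p] V where
  toFun x := g • x
  map_add' := smul_add g
  map_smul' k x := cyc_of_tp_lin p g k x

theorem cyc_of_tp_pow (p : ℕ) [Fact p.Prime] {Γ V : Type} [Group Γ] [AddCommGroup V]
    [Module (ZMod p) V] [DistribMulAction Γ V] (g : Γ) (n : ℕ) (x : V) :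
    ((cyc_of_tp_T p g : V →ₗ[ZMod p] V) ^ n) x = g ^ n • x := by
  induction n with
  | zero => simp
  | succ n ih =>
    rw [pow_succ', Module.End.mul_apply, ih, pow_succ', mul_smul]
    rfl

theorem cyc_of_tp (p : ℕ) [Fact p.Prime] {Γ V : Type} [Group Γ] [AddCommGroup V]
    [Module (ZMod p) V] [DistribMulAction Γ V] (h : TProp (ZMod p) Γ V) : Cyc Γ V := by
  classical
  obtain ⟨l, d, h⟩ := h
  obtain ⟨e0, he0, hper⟩ := period_codim_p p d
  have hp : p.Prime := Fact.out
  have hk : l ≤ p ^ l := (Nat.lt_pow_self hp.one_lt).le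
  refine ⟨d * l, e0 * p ^ l, Nat.mul_pos he0 (pow_pos hp.pos l), fun g a => ⟨fun ha => ?_, ?_⟩⟩
  · exact t_height (fun g k x => cyc_of_tp_lin p g k x) h g a ha
  · rintro ⟨n, hn, hna⟩
    obtain ⟨W, hfd, hst, haW, -, hW2⟩ := orb_span (K := ZMod p)
      (fun g k x => cyc_of_tp_lin p g k x) g a (Or.inr ⟨n, hn, hna⟩)
    set T : V →ₗ[ZMod p] V := cyc_of_tp_T p g with hT
    have hTx : ∀ x, T x = ac g x := fun x => rfl
    have hf := rad_iter (ac g : V ≃+ V) d l W hst (fun x => g ^ e0 • x - x) (by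
      intro W' V' hW' hsW' hV' hsV' hfr x hx
      haveI : FiniteDimensional (ZMod p) W' := Submodule.finiteDimensional_of_le hW'
      have := hper V T W' V' inferInstance hV' (fun x hx => (hsW' x).2 hx)
        (fun x hx => (hsV' x).2 hx) ⟨n, hn, fun x hx => by
          rw [hT, cyc_of_tp_pow]
          exact hW2 n hna x (hW' hx)⟩ hfr x hx
      rw [hT, cyc_of_tp_pow] at this
      exact this) a haW
    have hB : (rad (ac g : V ≃+ V) d)^[l] W = ⊥ := h g W hfd hst
    rw [hB, Submodule.mem_bot] at hf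
    have h1 : ((T ^ e0 - 1) ^ l) a = 0 := by
      rw [Module.End.pow_apply]
      have h2 : (⇑(T ^ e0 - 1) : V → V) = fun x => g ^ e0 • x - x := by
        funext x
        rw [LinearMap.sub_apply, hT, cyc_of_tp_pow]
        rfl
      rw [h2]
      exact hf
    have h3 := unip_fin_p p (T ^ e0) l l hk a h1
    rw [← pow_mul, hT, cyc_of_tp_pow] at h3
    exact h3

end Pool.Agent.Helper294.HallC
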