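import Mathlib

set_option autoImplicit false

namespace Pool.Agent.Helper294.HallC

/-- polycyclic: solvable with all subgroups finitely generated. -/
def PC (Q : Type) [Group Q] : Prop := IsSolvable Q ∧ ∀ H : Subgroup Q, H.FG

/-- every increasing chain of subgroups has at most `n` infinite jumps (Hirsch length at most `n`). -/
def HL (Q : Type) [Group Q] (n : ℕ) : Prop :=
  ∀ H : ℕ → Subgroup Q, Monotone H → ∀ s : Finset ℕ,
    (∀ i ∈ s, (H i).relIndex (H (i + 1)) = 0) → s.card ≤ n

/-- the operator `g - 1`. -/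
def del {Γ A : Type} [Group Γ] [AddCommGroup A] [DistribMulAction Γ A] (g : Γ) (a : A) : A :=
  g • a - a

/-- finitely generated as a `ℤΓ`-module. -/
def FGM (Γ A : Type) [Group Γ] [AddCommGroup A] [DistribMulAction Γ A] : Prop :=
  ∃ S : Finset A, AddSubgroup.closure {a : A | ∃ g : Γ, ∃ s ∈ S, a = g • s} = ⊤

/-- `Γ`-stable additive subgroups. -/
def Stb (Γ : Type) {A : Type} [Group Γ] [AddCommGroup A] [DistribMulAction Γ A]
    (B : AddSubgroup A) : Prop := ∀ g : Γ, ∀ x ∈ B, g • x ∈ B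

/-- ascending chain condition for the `Γ`-stable subgroups. -/
def Noe (Γ A : Type) [Group Γ] [AddCommGroup A] [DistribMulAction Γ A] : Prop :=
  ∀ f : ℕ → AddSubgroup A, Monotone f → (∀ n, Stb Γ (f n)) → ∃ n, ∀ m, n ≤ m → f m = f n

/-- bounded heights and periods of single elements of `Γ` on `A`. -/
def Cyc (Γ A : Type) [Group Γ] [AddCommGroup A] [DistribMulAction Γ A] : Prop :=
  ∃ h e : ℕ, 0 < e ∧ ∀ (g : Γ) (a : A),
    ((∃ n, (del g)^[n] a = 0) → (del g)^[h] a = 0) ∧
    ((∃ n, 0 < n ∧ g ^ n • a = a) → g ^ e • a = a)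

/-- bounded heights and periods of single elements of `Γ` on the section `B/C`. -/
def CycS (Γ : Type) {A : Type} [Group Γ] [AddCommGroup A] [DistribMulAction Γ A]
    (B C : AddSubgroup A) : Prop :=
  ∃ h e : ℕ, 0 < e ∧ ∀ g : Γ, ∀ a ∈ B,
    ((∃ n, (del g)^[n] a ∈ C) → (del g)^[h] a ∈ C) ∧
    ((∃ n, 0 < n ∧ g ^ n • a - a ∈ C) → g ^ e • a - a ∈ C)

/-- `[a, x₁, …, xₙ] = 0` for all `x₁, …, xₙ ∈ H`. -/
def Nil {Γ A : Type} [Group Γ] [AddCommGroup A] [DistribMulAction Γ A] (H : Subgroup Γ) (n : ℕ)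
    (a : A) : Prop :=
  ∀ l : List Γ, l.length = n → (∀ x ∈ l, x ∈ H) →
    l.foldl (fun (b : A) (x : Γ) => x • b - b) a = 0

/-- `H` has a subnormal series of length `s` with cyclic factors. -/
def Ser {Γ : Type} [Group Γ] : ℕ → Subgroup Γ → Prop
  | 0, H => H = ⊥
  | s + 1, H => ∃ H' : Subgroup Γ, ∃ t : Γ, H' ≤ H ∧ t ∈ H ∧ (∀ x, x ∈ H' ↔ t * x * t⁻¹ ∈ H') ∧
      (∀ x ∈ H, ∃ k : ℤ, t ^ (-k) * x ∈ H') ∧ Ser s H'

/-- periods of centralisers are bounded. -/
def Erem (G : Type) [Group G] : Prop :=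
  ∃ e : ℕ, 0 < e ∧ ∀ (x y : G) (n : ℕ), 0 < n → y * x ^ n = x ^ n * y → y * x ^ e = x ^ e * y

/-- the conjugation action of `Q` on the (abelian) kernel of `f : G →* Q`. -/
structure ConjAct' {G Q : Type} [Group G] [Group Q] (f : G →* Q) (A : Type) [AddCommGroup A]
    [DistribMulAction Q A] (ι : Multiplicative A →* G) : Prop where
  inj : Function.Injective ι
  range : ι.range = f.ker
  act : ∀ (g : G) (a : A), g * ι (Multiplicative.ofAdd a) * g⁻¹ =
    ι (Multiplicative.ofAdd (f g • a))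

/-- ascending chain condition for the `R`-stable subgroups of `M₀`. -/
def NoeOn {Γ A : Type} [Group Γ] [AddCommGroup A] [DistribMulAction Γ A] (R : Subgroup Γ)
    (M₀ : AddSubgroup A) : Prop :=
  ∀ f : ℕ → AddSubgroup A, Monotone f → (∀ n, f n ≤ M₀ ∧ ∀ g ∈ R, ∀ x ∈ f n, g • x ∈ f n) →
    ∃ n, ∀ m, n ≤ m → f m = f n

/-- the main theorem for modules of prime exponent. -/
def HypP : Prop :=
  ∀ (p : ℕ) (Γ A : Type) [Group Γ] [AddCommGroup A] [DistribMulAction Γ A], p.Prime → PC Γ →
    FGM Γ A → (∀ a : A, p • a = 0) → Cyc Γ A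

/-- the main theorem for torsion-free modules. -/
def Hyp0 : Prop :=
  ∀ (Γ A : Type) [Group Γ] [AddCommGroup A] [DistribMulAction Γ A], PC Γ →
    FGM Γ A → (∀ (n : ℕ) (a : A), 0 < n → n • a = 0 → a = 0) → Cyc Γ A

/-- fixed points of a set of group elements. -/
def Fx {Γ A : Type} [Group Γ] [AddCommGroup A] [DistribMulAction Γ A] (X : Set Γ) : Set A :=
  {a | ∀ x ∈ X, x • a = a}

/-- `u` is semilinear over the division ring `K` (for some automorphism of `K`). -/
def Semi (K : Type) {M : Type} [DivisionRing K] [AddCommGroup M] [Module K M] (u : M ≃+ M) : Prop :=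
  ∃ σ : K ≃+* K, ∀ (k : K) (x : M), u (k • x) = σ k • u x

/-- the subspace `V` is `u`-stable, i.e. `u V = V`. -/
def Stable {K M : Type} [DivisionRing K] [AddCommGroup M] [Module K M] (u : M ≃+ M)
    (V : Submodule K M) : Prop := ∀ x, u x ∈ V ↔ x ∈ V

/-- intersection of all `u`-stable subspaces of `W` of codimension at most `d` in `W`
(used for finite dimensional `W` only). -/
def rad {K M : Type} [DivisionRing K] [AddCommGroup M] [Module K M] (u : M ≃+ M) (d : ℕ)
    (W : Submodule K M) : Submodule K M :=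
  sInf {V | V ≤ W ∧ Stable u V ∧ Module.finrank K W ≤ Module.finrank K V + d}

/-- the `l`-th iterated `d`-radical of `W` vanishes. -/
def Bdd {K M : Type} [DivisionRing K] [AddCommGroup M] [Module K M] (u : M ≃+ M) (l d : ℕ)
    (W : Submodule K M) : Prop := (rad u d)^[l] W = ⊥

/-- the additive automorphism given by a group element. -/
abbrev ac {G A : Type} [Group G] [AddCommGroup A] [DistribMulAction G A] (g : G) : A ≃+ A :=
  DistribMulAction.toAddEquiv A g

/-- the uniform bound for the whole of `A`. -/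
def TProp (K G A : Type) [DivisionRing K] [Group G] [AddCommGroup A] [Module K A]
    [DistribMulAction G A] : Prop :=
  ∃ l d : ℕ, ∀ (g : G) (W : Submodule K A), FiniteDimensional K W →
    Stable (ac g) W → Bdd (ac g : A ≃+ A) l d W

/-- a system: `G` acts semilinearly on the `K`-space `A`, elements of the kernel of `ρ : G →* Q`
act as scalars, and `A` is finitely generated over `K` and `G`. -/
structure Sys (K G A Q : Type) [DivisionRing K] [Group G] [AddCommGroup A] [Module K A]
    [DistribMulAction G A] [Group Q] (ρ : G →* Q) : Prop where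
  semi : ∀ g : G, Semi K (ac g : A ≃+ A)
  scal : ∀ g : G, ρ g = 1 → ∃ c : K, ∀ a : A, g • a = c • a
  fg : ∃ S : Finset A, Submodule.span K {x : A | ∃ g : G, ∃ s ∈ S, x = g • s} = ⊤

/-- the main property for all systems with quotient group `Q`. -/
def MainFor (Q : Type) [Group Q] : Prop :=
  ∀ (K G A : Type) [DivisionRing K] [Group G] [AddCommGroup A] [Module K A]
    [DistribMulAction G A] (ρ : G →* Q), Sys K G A Q ρ → TProp K G A

end Pool.Agent.Helper294.HallC
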