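import Pool.Agent.Helper294.HallC.Defs

set_option autoImplicit false

namespace Pool.Agent.Helper294.HallC


section embed_q
open TensorProduct

/-- the ℤ-linear map given by a group element -/
def embed_q_L (Γ A : Type) [Group Γ] [AddCommGroup A] [DistribMulAction Γ A] (g : Γ) :
    A →ₗ[ℤ] A := (DistribSMul.toAddMonoidHom A g).toIntLinearMap

theorem embed_q_L_apply (Γ A : Type) [Group Γ] [AddCommGroup A] [DistribMulAction Γ A] (g : Γ)
    (a : A) : embed_q_L Γ A g a = g • a := rfl

theorem embed_q_L_one (Γ A : Type) [Group Γ] [AddCommGroup A] [DistribMulAction Γ A] :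
    embed_q_L Γ A 1 = LinearMap.id := by
  ext a
  simp [embed_q_L_apply]

theorem embed_q_L_mul (Γ A : Type) [Group Γ] [AddCommGroup A] [DistribMulAction Γ A] (g h : Γ) :
    embed_q_L Γ A (g * h) = embed_q_L Γ A g ∘ₗ embed_q_L Γ A h := by
  ext a
  simp [embed_q_L_apply, mul_smul]

/-- the action on the scalar extension -/
@[reducible] noncomputable def embed_q_act (Γ A : Type) [Group Γ] [AddCommGroup A]
    [DistribMulAction Γ A] : DistribMulAction Γ (ℚ ⊗[ℤ] A) where
  smul g v := (embed_q_L Γ A g).baseChange ℚ v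
  one_smul v := by
    change (embed_q_L Γ A 1).baseChange ℚ v = v
    rw [embed_q_L_one, LinearMap.baseChange_id]
    rfl
  mul_smul g h v := by
    change (embed_q_L Γ A (g * h)).baseChange ℚ v =
      (embed_q_L Γ A g).baseChange ℚ ((embed_q_L Γ A h).baseChange ℚ v)
    rw [embed_q_L_mul, LinearMap.baseChange_comp]
    rfl
  smul_zero g := map_zero ((embed_q_L Γ A g).baseChange ℚ)
  smul_add g v w := map_add ((embed_q_L Γ A g).baseChange ℚ) v w

theorem embed_q_inj (A : Type) [AddCommGroup A]
    (htf : ∀ (n : ℕ) (a : A), 0 < n → n • a = 0 → a = 0) (a : A)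
    (h : (TensorProduct.mk ℤ ℚ A 1) a = 0) : a = 0 := by
  haveI : IsLocalizedModule (nonZeroDivisors ℤ) (TensorProduct.mk ℤ ℚ A 1) :=
    (isLocalizedModule_iff_isBaseChange (nonZeroDivisors ℤ) ℚ _).mpr
      (TensorProduct.isBaseChange ℤ A ℚ)
  obtain ⟨s, hs⟩ := (IsLocalizedModule.eq_zero_iff (nonZeroDivisors ℤ)
    (TensorProduct.mk ℤ ℚ A 1)).mp h
  have hs0 : (s : ℤ) ≠ 0 := nonZeroDivisors.coe_ne_zero s
  have h1 : (s : ℤ) • a = 0 := hs
  refine htf (s : ℤ).natAbs a (Int.natAbs_pos.mpr hs0) ?_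
  have h2 : (((s : ℤ).natAbs : ℕ) : ℤ) • a = 0 := by
    rcases Int.natAbs_eq (s : ℤ) with h3 | h3
    · rw [← h3]; exact h1
    · have h4 : (((s : ℤ).natAbs : ℕ) : ℤ) = -(s : ℤ) := by omega
      rw [h4, neg_smul, h1, neg_zero]
  rwa [natCast_zsmul] at h2

end embed_q

theorem embed_q {Γ A : Type} [Group Γ] [AddCommGroup A] [DistribMulAction Γ A]
    (hA : FGM Γ A) (htf : ∀ (n : ℕ) (a : A), 0 < n → n • a = 0 → a = 0) :
    ∃ (V : Type) (_ : AddCommGroup V) (_ : Module ℚ V) (_ : DistribMulAction Γ V) (j : A →+ V),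
      Function.Injective j ∧ (∀ (g : Γ) (a : A), j (g • a) = g • j a) ∧
      Sys ℚ Γ V Γ (MonoidHom.id Γ) := by
  letI act : DistribMulAction Γ (TensorProduct ℤ ℚ A) := embed_q_act Γ A
  have hsm : ∀ (g : Γ) (v : TensorProduct ℤ ℚ A),
      g • v = (embed_q_L Γ A g).baseChange ℚ v := fun _ _ => rfl
  refine ⟨TensorProduct ℤ ℚ A, inferInstance, inferInstance, act,
    (TensorProduct.mk ℤ ℚ A 1).toAddMonoidHom, ?_, ?_, ?_⟩
  · rw [injective_iff_map_eq_zero]
    intro a ha
    exact embed_q_inj A htf a ha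
  · intro g a
    rw [hsm]
    simp [embed_q_L_apply]
  · refine ⟨?_, ?_, ?_⟩
    · intro g
      refine ⟨RingEquiv.refl ℚ, fun k x => ?_⟩
      change (embed_q_L Γ A g).baseChange ℚ (k • x) = k • (embed_q_L Γ A g).baseChange ℚ x
      rw [map_smul]
    · intro g hg
      refine ⟨1, fun a => ?_⟩
      have : g = 1 := hg
      rw [this, one_smul, one_smul]
    · classical
      obtain ⟨S, hS⟩ := hA
      refine ⟨S.image (TensorProduct.mk ℤ ℚ A 1), ?_⟩
      rw [eq_top_iff]
      rintro x -
      have key : ∀ a : A, TensorProduct.mk ℤ ℚ A 1 a ∈ Submodule.span ℚ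
          {x : TensorProduct ℤ ℚ A | ∃ g : Γ, ∃ s ∈ S.image (TensorProduct.mk ℤ ℚ A 1),
            x = g • s} := by
        intro a
        have ha : a ∈ AddSubgroup.closure {a : A | ∃ g : Γ, ∃ s ∈ S, a = g • s} := by
          rw [hS]
          trivial
        induction ha using AddSubgroup.closure_induction with
        | mem a ha =>
          obtain ⟨g, s, hs, rfl⟩ := ha
          refine Submodule.subset_span ⟨g, TensorProduct.mk ℤ ℚ A 1 s,
            Finset.mem_image_of_mem _ hs, ?_⟩
          rw [hsm]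
          simp [embed_q_L_apply]
        | zero => rw [map_zero]; exact Submodule.zero_mem _
        | add a b _ _ ha hb => rw [map_add]; exact Submodule.add_mem _ ha hb
        | neg a _ ha => rw [map_neg]; exact Submodule.neg_mem _ ha
      induction x using TensorProduct.induction_on with
      | zero => exact Submodule.zero_mem _
      | tmul q a =>
        have : TensorProduct.tmul ℤ q a = q • (TensorProduct.mk ℤ ℚ A 1 a) := by
          rw [TensorProduct.mk_apply, TensorProduct.smul_tmul', smul_eq_mul, mul_one]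
        rw [this]
        exact Submodule.smul_mem _ _ (key a)
      | add x y hx hy => exact Submodule.add_mem _ hx hy

end Pool.Agent.Helper294.HallC
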