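import Pool.Agent.Helper294.HallC.Defs

set_option autoImplicit false

namespace Pool.Agent.Helper294.HallC


theorem erem_ext_cancel {G : Type} [Group G] {a b y : G} (h : a * y = a * b * y) : b = 1 := by
  have h1 := mul_right_cancel h
  have h2 : a * 1 = a * b := by rw [mul_one]; exact h1
  exact (mul_left_cancel h2).symm

theorem erem_ext_conj {G Q A : Type} [Group G] [Group Q] [AddCommGroup A] [DistribMulAction Q A]
    (f : G →* Q) (ι : Multiplicative A →* G) (h : ConjAct' f A ι) (u : G) (a : A) :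
    ι (Multiplicative.ofAdd a) * u = u * ι (Multiplicative.ofAdd ((f u)⁻¹ • a)) := by
  have h1 := h.act u⁻¹ a
  rw [map_inv] at h1
  rw [← h1]
  group

theorem erem_ext_pow {G Q A : Type} [Group G] [Group Q] [AddCommGroup A] [DistribMulAction Q A]
    (f : G →* Q) (ι : Multiplicative A →* G) (h : ConjAct' f A ι) {u y : G} {c : A}
    (hy : y * u = u * ι (Multiplicative.ofAdd c) * y) (k : ℕ) :
    y * u ^ k =
      u ^ k * ι (Multiplicative.ofAdd (∑ i ∈ Finset.range k, ((f u)⁻¹) ^ i • c)) * y := by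
  induction k with
  | zero => simp
  | succ k ih =>
    have e1 : ∑ i ∈ Finset.range (k + 1), ((f u)⁻¹) ^ i • c =
        (f u)⁻¹ • (∑ i ∈ Finset.range k, ((f u)⁻¹) ^ i • c) + c := by
      rw [Finset.sum_range_succ', Finset.smul_sum]
      congr 1
      · refine Finset.sum_congr rfl fun i _ => ?_
        rw [pow_succ', mul_smul]
      · simp
    rw [e1, ofAdd_add, map_mul]
    calc y * u ^ (k + 1) = (y * u ^ k) * u := by rw [pow_succ, mul_assoc]
      _ = u ^ k * ι (Multiplicative.ofAdd (∑ i ∈ Finset.range k, ((f u)⁻¹) ^ i • c)) * (y * u) := by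
          rw [ih]; group
      _ = u ^ k * (ι (Multiplicative.ofAdd (∑ i ∈ Finset.range k, ((f u)⁻¹) ^ i • c)) * u) *
            ι (Multiplicative.ofAdd c) * y := by
          rw [hy]; simp only [mul_assoc]
      _ = _ := by
          rw [erem_ext_conj f ι h u, pow_succ]
          simp only [mul_assoc]


theorem erem_ext {G Q A : Type} [Group G] [Group Q] [AddCommGroup A] [DistribMulAction Q A]
    (f : G →* Q) (ι : Multiplicative A →* G)
    (h : ConjAct' f A ι) (hQ : Erem Q) (hc : Cyc Q A)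
    (ht : ∃ t : ℕ, 0 < t ∧ ∀ (n : ℕ) (a : A), 0 < n → n • a = 0 → t • a = 0) : Erem G := by
  obtain ⟨e1, he1, hQ⟩ := hQ
  obtain ⟨_, e2, he2, hc⟩ := hc
  obtain ⟨t, ht0, ht⟩ := ht
  have hinj : ∀ a : A, ι (Multiplicative.ofAdd a) = 1 → a = 0 := by
    intro a ha
    have h1 : ι (Multiplicative.ofAdd a) = ι (Multiplicative.ofAdd 0) := by
      rw [ha, ofAdd_zero, map_one]
    exact Multiplicative.ofAdd.injective (h.inj h1)
  refine ⟨e1 * e2 * t, by positivity, fun x y n hn hxy => ?_⟩
  -- the first step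
  have h1 : f y * f x ^ e1 = f x ^ e1 * f y := by
    refine hQ (f x) (f y) n hn ?_
    rw [← map_pow, ← map_mul, hxy, map_mul, map_pow]
  set u := x ^ e1 with hu
  obtain ⟨c, hcu⟩ : ∃ c : A, y * u = u * ι (Multiplicative.ofAdd c) * y := by
    have h2 : u⁻¹ * y * u * y⁻¹ ∈ f.ker := by
      rw [MonoidHom.mem_ker, map_mul, map_mul, map_mul, map_inv, map_inv, hu, map_pow,
        mul_assoc (f x ^ e1)⁻¹, h1]
      group
    rw [← h.range] at h2
    obtain ⟨c, hc'⟩ := h2
    refine ⟨Multiplicative.toAdd c, ?_⟩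
    rw [ofAdd_toAdd, hc']
    group
  have hp := erem_ext_pow f ι h hcu
  set v := (f u)⁻¹ with hv
  -- powers commute
  have hcomm : ∀ k : ℕ, y * (x ^ n) ^ k = (x ^ n) ^ k * y := fun k =>
    (show Commute y (x ^ n) from hxy).pow_right k
  have hN : ∑ i ∈ Finset.range n, v ^ i • c = 0 := by
    apply hinj
    have h2 := hp n
    have h3 : u ^ n = (x ^ n) ^ e1 := by rw [hu, ← pow_mul, ← pow_mul, mul_comm]
    rw [h3, hcomm e1] at h2
    exact erem_ext_cancel h2
  have hvn : v ^ n • c = c := by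
    have h2 : ∑ i ∈ Finset.range (n + 1), v ^ i • c =
        v • (∑ i ∈ Finset.range n, v ^ i • c) + c := by
      rw [Finset.sum_range_succ', Finset.smul_sum]
      congr 1
      · refine Finset.sum_congr rfl fun i _ => ?_
        rw [pow_succ', mul_smul]
      · simp
    rw [Finset.sum_range_succ, hN, zero_add, smul_zero, zero_add] at h2
    exact h2
  have hv2 : v ^ e2 • c = c := (hc v c).2 ⟨n, hn, hvn⟩
  set c' := ∑ i ∈ Finset.range e2, v ^ i • c with hc'
  have hvc : v ^ e2 • c' = c' := by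
    rw [hc', Finset.smul_sum]
    refine Finset.sum_congr rfl fun i _ => ?_
    rw [smul_smul, ← pow_add, add_comm, pow_add, mul_smul, hv2]
  have hw := hp e2
  rw [← hc'] at hw
  have hp2 := erem_ext_pow f ι h hw
  have hfw : (f (u ^ e2))⁻¹ = v ^ e2 := by rw [map_pow, hv, inv_pow]
  rw [hfw] at hp2
  have hfix : ∀ i : ℕ, (v ^ e2) ^ i • c' = c' := by
    intro i
    induction i with
    | zero => simp
    | succ i ih => rw [pow_succ, mul_smul, hvc, ih]
  have hsum : ∀ k : ℕ, ∑ i ∈ Finset.range k, (v ^ e2) ^ i • c' = k • c' := by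
    intro k
    rw [Finset.sum_congr rfl fun i _ => hfix i, Finset.sum_const, Finset.card_range]
  simp only [hsum] at hp2
  have hn' : n • c' = 0 := by
    apply hinj
    have h2 := hp2 n
    have h3 : (u ^ e2) ^ n = (x ^ n) ^ (e1 * e2) := by
      rw [hu, ← pow_mul, ← pow_mul, ← pow_mul]
      congr 1
      ring
    rw [h3, hcomm] at h2
    exact erem_ext_cancel h2
  have ht' := ht n c' hn hn'
  have h2 := hp2 t
  rw [ht', ofAdd_zero, map_one, mul_one] at h2
  have h3 : (u ^ e2) ^ t = x ^ (e1 * e2 * t) := by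
    rw [hu, ← pow_mul, ← pow_mul, mul_assoc]
  rwa [h3] at h2

end Pool.Agent.Helper294.HallC
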