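import Pool.Agent.Helper294.HallC.Defs
import Pool.Agent.Helper294.HallC.Base
import Pool.Agent.Helper294.HallC.ConjFgm
import Pool.Agent.Helper294.HallC.ConjModel
import Pool.Agent.Helper294.HallC.CycAll
import Pool.Agent.Helper294.HallC.EremExt
import Pool.Agent.Helper294.HallC.NoeOfFg
import Pool.Agent.Helper294.HallC.TorsBdd

set_option autoImplicit false

namespace Pool.Agent.Helper294.HallC


theorem erem_pc_aux (hp : HypP) (h0 : Hyp0) (d : ℕ) : ∀ (Q : Type) [Group Q], PC Q →
    derivedSeries Q d = ⊥ → Erem Q := by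
  induction d with
  | zero =>
    intro Q _ _ hd
    rw [derivedSeries_zero] at hd
    have hs : ∀ x : Q, x = 1 := fun x => by
      have hx : x ∈ (⊤ : Subgroup Q) := Subgroup.mem_top x
      rw [hd] at hx
      exact Subgroup.mem_bot.1 hx
    exact ⟨1, one_pos, fun x y n _ _ => (hs _).trans (hs _).symm⟩
  | succ d ih =>
    intro Q _ hQ hd
    set f : Q →* Q ⧸ derivedSeries Q d := QuotientGroup.mk' (derivedSeries Q d) with hf
    have hfs : Function.Surjective f := QuotientGroup.mk'_surjective _
    have hker : f.ker = derivedSeries Q d := QuotientGroup.ker_mk' _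
    have hab : ∀ x ∈ f.ker, ∀ y ∈ f.ker, x * y = y * x := by
      rw [hker]
      rw [derivedSeries_succ, Subgroup.commutator_eq_bot_iff_le_centralizer] at hd
      intro x hx y hy
      exact (Subgroup.mem_centralizer_iff.1 (hd hx) y hy).symm
    have hPC : PC (Q ⧸ derivedSeries Q d) := pc_surj hQ f hfs
    have hd' : derivedSeries (Q ⧸ derivedSeries Q d) d = ⊥ := by
      rw [← map_derivedSeries_eq hfs d]
      exact (Subgroup.map_eq_bot_iff _).2 hker.ge
    have hE := ih _ hPC hd'
    obtain ⟨A, _, _, ι, hA⟩ := conj_model f hfs hab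
    have hFG : Group.FG f.ker := (Group.fg_iff_subgroup_fg _).mpr (hQ.2 f.ker)
    have hfg : f.ker.IsFinitelyNormallyGenerated :=
      Subgroup.IsFinitelyNormallyGenerated.of_FG f.ker
    have hFGM := conj_fgm f hfs ι hA hfg
    exact erem_ext f ι hA hE (cyc_all hp h0 hPC hFGM) (tors_bdd (noe_of_fg hPC hFGM))

theorem erem_pc (hp : HypP) (h0 : Hyp0) {Q : Type} [Group Q] (h : PC Q) : Erem Q := by
  obtain ⟨d, hd⟩ := h.1.solvable
  exact erem_pc_aux hp h0 d Q h hd

end Pool.Agent.Helper294.HallC
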