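import Pool.Agent.Helper294.HallC.Defs

set_option autoImplicit false

namespace Pool.Agent.Helper294.HallC


theorem heights_nil_succ {Γ A : Type} [Group Γ] [AddCommGroup A] [DistribMulAction Γ A]
    (K : Subgroup Γ) (n : ℕ) (a : A) :
    Nil K (n + 1) a ↔ ∀ x ∈ K, Nil K n (x • a - a) := by
  constructor
  · intro h x hx l hl hlK
    have := h (x :: l) (by simp [hl]) (by
      intro y hy
      rcases List.mem_cons.1 hy with rfl | hy
      · exact hx
      · exact hlK y hy)
    simpa using this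
  · intro h l hl hlK
    rcases l with _ | ⟨x, l⟩
    · simp at hl
    · rw [List.foldl_cons]
      exact h x (hlK x (by simp)) l (by simpa using hl) (fun y hy => hlK y (by simp [hy]))

theorem heights_comm {G Q A : Type} [Group G] [Group Q] [AddCommGroup A] [DistribMulAction Q A]
    (f : G →* Q) (ι : Multiplicative A →* G) (h : ConjAct' f A ι) (y : G) (a : A) :
    ι (Multiplicative.ofAdd a) * y * (ι (Multiplicative.ofAdd a))⁻¹ * y⁻¹ =
      (ι (Multiplicative.ofAdd (f y • a - a)))⁻¹ := by
  have h1 : y * (ι (Multiplicative.ofAdd a))⁻¹ * y⁻¹ = (ι (Multiplicative.ofAdd (f y • a)))⁻¹ := by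
    rw [← h.act y a]; group
  calc ι (Multiplicative.ofAdd a) * y * (ι (Multiplicative.ofAdd a))⁻¹ * y⁻¹
      = ι (Multiplicative.ofAdd a) * (y * (ι (Multiplicative.ofAdd a))⁻¹ * y⁻¹) := by group
    _ = ι (Multiplicative.ofAdd a) * (ι (Multiplicative.ofAdd (f y • a)))⁻¹ := by rw [h1]
    _ = _ := by
      rw [← map_inv ι, ← map_mul ι, ← map_inv ι, ← ofAdd_neg, ← ofAdd_neg, ← ofAdd_add]
      congr 2
      abel

theorem heights_mem {G Q A : Type} [Group G] [Group Q] [AddCommGroup A] [DistribMulAction Q A]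
    (f : G →* Q) (ι : Multiplicative A →* G) (h : ConjAct' f A ι) (H : Subgroup G) (n : ℕ) :
    ∀ (a : A) (ha : ι (Multiplicative.ofAdd a) ∈ H),
      (⟨ι (Multiplicative.ofAdd a), ha⟩ : H) ∈ Subgroup.upperCentralSeries (↥H) n ↔ Nil (H.map f) n a := by
  induction n with
  | zero =>
    intro a ha
    rw [Subgroup.upperCentralSeries_zero, Subgroup.mem_bot]
    constructor
    · intro h0 l hl _
      have : l = [] := List.length_eq_zero_iff.1 hl
      subst this
      have h1 : ι (Multiplicative.ofAdd a) = 1 := congrArg Subtype.val h0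
      have h2 : Multiplicative.ofAdd a = 1 := h.inj (by rw [h1, map_one])
      simpa using h2
    · intro h0
      have h1 := h0 [] rfl (by simp)
      simp only [List.foldl_nil] at h1
      subst h1
      apply Subtype.ext
      simp
  | succ n ih =>
    intro a ha
    rw [Subgroup.mem_upperCentralSeries_succ_iff, heights_nil_succ]
    have key : ∀ y : H, ι (Multiplicative.ofAdd (f y.1 • a - a)) ∈ H := by
      intro y
      rw [← inv_mem_iff, ← heights_comm f ι h y.1 a]
      exact H.mul_mem (H.mul_mem (H.mul_mem ha y.2) (H.inv_mem ha)) (H.inv_mem y.2)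
    have key2 : ∀ y : H, (⟨ι (Multiplicative.ofAdd a), ha⟩ : H) * y *
        (⟨ι (Multiplicative.ofAdd a), ha⟩ : H)⁻¹ * y⁻¹ =
        (⟨ι (Multiplicative.ofAdd (f y.1 • a - a)), key y⟩ : H)⁻¹ := by
      intro y
      apply Subtype.ext
      exact heights_comm f ι h y.1 a
    constructor
    · intro h1 x hx
      obtain ⟨y, hy, rfl⟩ := Subgroup.mem_map.1 hx
      have h2 := h1 ⟨y, hy⟩
      rw [commutatorElement_def, key2, inv_mem_iff] at h2
      exact (ih _ _).1 h2
    · intro h1 y
      rw [commutatorElement_def, key2, inv_mem_iff]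
      exact (ih _ _).2 (h1 _ (Subgroup.mem_map_of_mem f y.2))

theorem heights_chain {Q : Type} [Group Q] (hQ : ∀ H : Subgroup Q, H.FG) (C : ℕ → Subgroup Q)
    (hC : Monotone C) : ∃ N, ∀ n, N ≤ n → C n = C N := by
  obtain ⟨S, hS⟩ := hQ (⨆ n, C n)
  have hdir : Directed (· ≤ ·) C := hC.directed_le
  have hex : ∀ s ∈ S, ∃ n, s ∈ C n := by
    intro s hs
    have : s ∈ ⨆ n, C n := by
      rw [← hS]; exact Subgroup.subset_closure hs
    exact (Subgroup.mem_iSup_of_directed hdir).1 this
  choose! g hg using hex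
  refine ⟨S.sup g, fun n hn => le_antisymm ?_ (hC hn)⟩
  refine le_trans (le_iSup C n) ?_
  rw [← hS, Subgroup.closure_le]
  intro s hs
  exact hC (Finset.le_sup (f := g) hs) (hg s hs)

theorem heights {G Q A : Type} [Group G] [Group Q] [AddCommGroup A] [DistribMulAction Q A]
    (hQ : PC Q) (f : G →* Q) (ι : Multiplicative A →* G)
    (h : ConjAct' f A ι)
    (hn : ∃ m : ℕ, ∀ (H : Subgroup Q) (a : A), (∃ n, Nil H n a) → Nil H m a) (H : Subgroup G) :
    ∃ n : ℕ, upperCentralSeries (↥H) n = upperCentralSeries (↥H) (n + 1) := by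
  change ∃ n : ℕ, Subgroup.upperCentralSeries (↥H) n = Subgroup.upperCentralSeries (↥H) (n + 1)
  obtain ⟨m, hm⟩ := hn
  have hmono := Subgroup.upperCentralSeries_mono (↥H)
  obtain ⟨N, hN⟩ := heights_chain hQ.2
    (fun n => (Subgroup.upperCentralSeries (↥H) n).map (f.comp H.subtype))
    (fun i j hij => Subgroup.map_mono (hmono hij))
  refine ⟨max m N, le_antisymm (hmono (Nat.le_succ _)) ?_⟩
  intro x hx
  have h1 : (f.comp H.subtype) x ∈ (Subgroup.upperCentralSeries (↥H) (max m N)).map (f.comp H.subtype) := by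
    have e1 := hN (max m N) (le_max_right _ _)
    have e2 := hN (max m N + 1) (le_trans (le_max_right _ _) (Nat.le_succ _))
    have e3 : (Subgroup.upperCentralSeries (↥H) (max m N + 1)).map (f.comp H.subtype) =
        (Subgroup.upperCentralSeries (↥H) (max m N)).map (f.comp H.subtype) := e2.trans e1.symm
    rw [← e3]
    exact Subgroup.mem_map_of_mem _ hx
  obtain ⟨y, hy, hxy⟩ := Subgroup.mem_map.1 h1
  have hker : (x * y⁻¹ : H).1 ∈ f.ker := by
    rw [MonoidHom.mem_ker]
    have : f (x * y⁻¹ : H).1 = (f.comp H.subtype) (x * y⁻¹) := rfl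
    rw [this, map_mul, map_inv, hxy, mul_inv_cancel]
  rw [← h.range] at hker
  obtain ⟨a, ha⟩ := hker
  have haH : ι (Multiplicative.ofAdd (Multiplicative.toAdd a)) ∈ H := by
    change ι a ∈ H
    rw [ha]; exact (x * y⁻¹).2
  have heq : (⟨ι (Multiplicative.ofAdd (Multiplicative.toAdd a)), haH⟩ : H) = x * y⁻¹ :=
    Subtype.ext ha
  have hxy' : x * y⁻¹ ∈ Subgroup.upperCentralSeries (↥H) (max m N + 1) :=
    mul_mem hx (inv_mem (hmono (Nat.le_succ _) hy))
  rw [← heq, heights_mem f ι h H] at hxy'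
  have h3 := hm _ _ ⟨_, hxy'⟩
  rw [← heights_mem f ι h H m _ haH, heq] at h3
  have h4 := mul_mem (hmono (le_max_left m N) h3) hy
  simpa using h4

end Pool.Agent.Helper294.HallC
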