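import Pool.Agent.Helper294.HallC.Defs
import Pool.Agent.Helper294.HallC.SerExists

set_option autoImplicit false

namespace Pool.Agent.Helper294.HallC


section nil_of_cyc_aux

variable {Γ A : Type} [Group Γ] [AddCommGroup A] [DistribMulAction Γ A]

theorem nil_of_cyc_nil_zero (H : Subgroup Γ) (a : A) : Nil H 0 a ↔ a = 0 := by
  constructor
  · intro h
    exact h [] rfl (by simp)
  · rintro rfl l hl _
    rw [List.length_eq_zero_iff] at hl
    subst hl
    rfl

theorem nil_of_cyc_nil_succ (H : Subgroup Γ) (n : ℕ) (a : A) :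
    Nil H (n + 1) a ↔ ∀ x ∈ H, Nil H n (x • a - a) := by
  constructor
  · intro h x hx l hl hlH
    exact h (x :: l) (by simp [hl]) (by
      intro y hy
      rcases List.mem_cons.1 hy with hy | hy
      · rw [hy]; exact hx
      · exact hlH y hy)
  · intro h l hl hlH
    match l, hl, hlH with
    | x :: l, hl, hlH =>
      exact h x (hlH x (by simp)) l (by simpa using hl) (fun y hy => hlH y (by simp [hy]))

theorem nil_of_cyc_nil_z (H : Subgroup Γ) (n : ℕ) : Nil H n (0 : A) := by
  induction n with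
  | zero => rw [nil_of_cyc_nil_zero]
  | succ n ih =>
    rw [nil_of_cyc_nil_succ]
    intro x _
    rw [smul_zero, sub_zero]
    exact ih

theorem nil_of_cyc_nil_add (H : Subgroup Γ) (n : ℕ) : ∀ a b : A, Nil H n a → Nil H n b →
    Nil H n (a + b) := by
  induction n with
  | zero =>
    intro a b ha hb
    rw [nil_of_cyc_nil_zero] at ha hb ⊢
    rw [ha, hb, add_zero]
  | succ n ih =>
    intro a b ha hb
    rw [nil_of_cyc_nil_succ] at ha hb ⊢
    intro x hx
    have e : x • (a + b) - (a + b) = (x • a - a) + (x • b - b) := by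
      rw [smul_add]; abel
    rw [e]
    exact ih _ _ (ha x hx) (hb x hx)

theorem nil_of_cyc_nil_neg (H : Subgroup Γ) (n : ℕ) : ∀ a : A, Nil H n a → Nil H n (-a) := by
  induction n with
  | zero =>
    intro a ha
    rw [nil_of_cyc_nil_zero] at ha ⊢
    rw [ha, neg_zero]
  | succ n ih =>
    intro a ha
    rw [nil_of_cyc_nil_succ] at ha ⊢
    intro x hx
    have e : x • (-a) - (-a) = -(x • a - a) := by
      rw [smul_neg]; abel
    rw [e]
    exact ih _ (ha x hx)

theorem nil_of_cyc_nil_sub (H : Subgroup Γ) (n : ℕ) (a b : A) (ha : Nil H n a) (hb : Nil H n b) :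
    Nil H n (a - b) := by
  rw [sub_eq_add_neg]
  exact nil_of_cyc_nil_add H n _ _ ha (nil_of_cyc_nil_neg H n _ hb)

theorem nil_of_cyc_nil_mono1 (H : Subgroup Γ) (n : ℕ) : ∀ a : A, Nil H n a → Nil H (n + 1) a := by
  induction n with
  | zero =>
    intro a ha
    rw [nil_of_cyc_nil_zero] at ha
    rw [ha]
    exact nil_of_cyc_nil_z H _
  | succ n ih =>
    intro a ha
    rw [nil_of_cyc_nil_succ] at ha ⊢
    exact fun x hx => ih _ (ha x hx)

theorem nil_of_cyc_nil_mono (H : Subgroup Γ) {m n : ℕ} (h : m ≤ n) (a : A) (ha : Nil H m a) :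
    Nil H n a := by
  induction h with
  | refl => exact ha
  | step _ ih => exact nil_of_cyc_nil_mono1 H _ _ ih

theorem nil_of_cyc_nil_le {H' H : Subgroup Γ} (h : H' ≤ H) (n : ℕ) (a : A) (ha : Nil H n a) :
    Nil H' n a := fun l hl hl' => ha l hl (fun x hx => h (hl' x hx))

theorem nil_of_cyc_nil_smul (H : Subgroup Γ) (g : Γ) (hg : g ∈ Subgroup.normalizer (H : Set Γ)) (n : ℕ) :
    ∀ a : A, Nil H n a → Nil H n (g • a) := by
  induction n with
  | zero =>
    intro a ha
    rw [nil_of_cyc_nil_zero] at ha ⊢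
    rw [ha, smul_zero]
  | succ n ih =>
    intro a ha
    rw [nil_of_cyc_nil_succ] at ha ⊢
    intro x hx
    have hx' : g⁻¹ * x * g ∈ H := by
      rw [Subgroup.mem_normalizer_iff] at hg
      rw [hg (g⁻¹ * x * g)]
      have : g * (g⁻¹ * x * g) * g⁻¹ = x := by group
      rw [this]; exact hx
    have e : x • (g • a) - g • a = g • ((g⁻¹ * x * g) • a - a) := by
      rw [smul_sub, ← mul_smul, ← mul_smul]
      congr 2
      group
    rw [e]
    exact ih _ (ha _ hx')

theorem nil_of_cyc_del_sub (t : Γ) (i : ℕ) : ∀ a b : A,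
    (del t)^[i] (a - b) = (del t)^[i] a - (del t)^[i] b := by
  induction i with
  | zero => intro a b; rfl
  | succ i ih =>
    intro a b
    rw [Function.iterate_succ_apply, Function.iterate_succ_apply, Function.iterate_succ_apply]
    have : del t (a - b) = del t a - del t b := by
      unfold del; rw [smul_sub]; abel
    rw [this, ih]

theorem nil_of_cyc_del_add (t : Γ) (i : ℕ) : ∀ a b : A,
    (del t)^[i] (a + b) = (del t)^[i] a + (del t)^[i] b := by
  induction i with
  | zero => intro a b; rfl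
  | succ i ih =>
    intro a b
    rw [Function.iterate_succ_apply, Function.iterate_succ_apply, Function.iterate_succ_apply]
    have : del t (a + b) = del t a + del t b := by
      unfold del; rw [smul_add]; abel
    rw [this, ih]

theorem nil_of_cyc_del_zpow (t : Γ) (k : ℤ) (i : ℕ) : ∀ a : A,
    (del t)^[i] (t ^ k • a) = t ^ k • (del t)^[i] a := by
  induction i with
  | zero => intro a; rfl
  | succ i ih =>
    intro a
    rw [Function.iterate_succ_apply, Function.iterate_succ_apply]
    have : del t (t ^ k • a) = t ^ k • del t a := by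
      unfold del
      rw [smul_sub, ← mul_smul, ← mul_smul]
      congr 2
      exact (Commute.refl t).zpow_right k
    rw [this, ih]

theorem nil_of_cyc_nil_del (H : Subgroup Γ) (t : Γ) (ht : t ∈ Subgroup.normalizer (H : Set Γ)) (n i : ℕ) :
    ∀ a : A, Nil H n a → Nil H n ((del t)^[i] a) := by
  induction i with
  | zero => intro a ha; exact ha
  | succ i ih =>
    intro a ha
    rw [Function.iterate_succ_apply]
    exact ih _ (nil_of_cyc_nil_sub H n _ _ (nil_of_cyc_nil_smul H t ht n a ha) ha)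

theorem nil_of_cyc_iter (H : Subgroup Γ) (t : Γ) (ht : t ∈ H) (n : ℕ) :
    ∀ a : A, Nil H n a → (del t)^[n] a = 0 := by
  induction n with
  | zero => intro a ha; exact (nil_of_cyc_nil_zero H a).1 ha
  | succ n ih =>
    intro a ha
    rw [Function.iterate_succ_apply]
    exact ih _ ((nil_of_cyc_nil_succ H n a).1 ha t ht)

theorem nil_of_cyc_zp (H : Subgroup Γ) (t : Γ) (ht : t ∈ Subgroup.normalizer (H : Set Γ)) (n : ℕ) (c : A)
    (hc : Nil H n (t • c - c)) (k : ℤ) : Nil H n (t ^ k • c - c) := by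
  induction k using Int.induction_on with
  | zero => simpa using nil_of_cyc_nil_z H n
  | succ k ih =>
    have e : t ^ ((k : ℤ) + 1) • c - c = t ^ (k : ℤ) • (t • c - c) + (t ^ (k : ℤ) • c - c) := by
      rw [smul_sub, zpow_add_one, mul_smul]; abel
    rw [e]
    exact nil_of_cyc_nil_add H n _ _
      (nil_of_cyc_nil_smul H _ (Subgroup.zpow_mem _ ht _) n _ hc) ih
  | pred k ih =>
    have e : t ^ (-(k : ℤ) - 1) • c - c =
        -(t ^ (-(k : ℤ) - 1) • (t • c - c)) + (t ^ (-(k : ℤ)) • c - c) := by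
      rw [smul_sub, ← mul_smul, ← zpow_add_one]
      have : -(k : ℤ) - 1 + 1 = -(k : ℤ) := by ring
      rw [this]; abel
    rw [e]
    exact nil_of_cyc_nil_add H n _ _ (nil_of_cyc_nil_neg H n _
      (nil_of_cyc_nil_smul H _ (Subgroup.zpow_mem _ ht _) n _ hc)) ih

theorem nil_of_cyc_claim (H H' : Subgroup Γ) (t : Γ) (h : ℕ) (hle : H' ≤ H) (htH : t ∈ H)
    (htn : t ∈ Subgroup.normalizer (H' : Set Γ)) (hdec : ∀ x ∈ H, ∃ k : ℤ, t ^ (-k) * x ∈ H')
    (hh : ∀ b : A, (∃ n, Nil H n b) → (del t)^[h] b = 0) :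
    ∀ j i : ℕ, ∀ b : A, (∃ n, Nil H n b) → Nil H' (j + 1) b → Nil H' j ((del t)^[i] b) →
      Nil H (j * h + i) b := by
  have hn : ∀ y ∈ H, y ∈ Subgroup.normalizer (H' : Set Γ) := by
    intro y hy
    obtain ⟨k, hk⟩ := hdec y hy
    have e : y = t ^ k * (t ^ (-k) * y) := by group
    rw [e]
    exact Subgroup.mul_mem _ (Subgroup.zpow_mem _ htn _) (Subgroup.le_normalizer hk)
  intro j
  induction j with
  | zero =>
    intro i
    induction i with
    | zero =>
      intro b _ _ h3
      have h4 : b = 0 := (nil_of_cyc_nil_zero H' _).1 h3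
      rw [h4]
      exact nil_of_cyc_nil_z H _
    | succ i ihi =>
      intro b h1 h2 h3
      have e : 0 * h + (i + 1) = (0 * h + i) + 1 := by ring
      rw [e, nil_of_cyc_nil_succ]
      intro y hy
      obtain ⟨n, hnb⟩ := h1
      refine ihi _ ⟨n, ?_⟩ ?_ ?_
      · exact nil_of_cyc_nil_sub H n _ _
          (nil_of_cyc_nil_smul H y (Subgroup.le_normalizer hy) n b hnb) hnb
      · exact nil_of_cyc_nil_sub H' _ _ _ (nil_of_cyc_nil_smul H' y (hn y hy) _ b h2) h2
      · obtain ⟨k, hk⟩ := hdec y hy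
        have e1 : y • b - b = t ^ k • ((t ^ (-k) * y) • b - b) + (t ^ k • b - b) := by
          rw [smul_sub, ← mul_smul]
          have : t ^ k * (t ^ (-k) * y) = y := by group
          rw [this]; abel
        rw [e1, nil_of_cyc_del_add, nil_of_cyc_del_zpow, nil_of_cyc_del_sub t i (t ^ k • b) b,
          nil_of_cyc_del_zpow t k i b]
        refine nil_of_cyc_nil_add H' _ _ _ ?_ ?_
        · exact nil_of_cyc_nil_smul H' _ (Subgroup.zpow_mem _ htn _) _ _
            (nil_of_cyc_nil_del H' t htn _ _ _ ((nil_of_cyc_nil_succ H' _ b).1 h2 _ hk))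
        · refine nil_of_cyc_zp H' t htn _ _ ?_ k
          rw [Function.iterate_succ_apply'] at h3
          exact h3
  | succ j ihj =>
    intro i
    induction i with
    | zero =>
      intro b h1 h2 h3
      have h5 := ihj h b h1 h3 (by rw [hh b h1]; exact nil_of_cyc_nil_z H' _)
      have e : (j + 1) * h + 0 = j * h + h := by ring
      rw [e]
      exact h5
    | succ i ihi =>
      intro b h1 h2 h3
      have e : (j + 1) * h + (i + 1) = ((j + 1) * h + i) + 1 := by ring
      rw [e, nil_of_cyc_nil_succ]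
      intro y hy
      obtain ⟨n, hnb⟩ := h1
      refine ihi _ ⟨n, ?_⟩ ?_ ?_
      · exact nil_of_cyc_nil_sub H n _ _
          (nil_of_cyc_nil_smul H y (Subgroup.le_normalizer hy) n b hnb) hnb
      · exact nil_of_cyc_nil_sub H' _ _ _ (nil_of_cyc_nil_smul H' y (hn y hy) _ b h2) h2
      · obtain ⟨k, hk⟩ := hdec y hy
        have e1 : y • b - b = t ^ k • ((t ^ (-k) * y) • b - b) + (t ^ k • b - b) := by
          rw [smul_sub, ← mul_smul]
          have : t ^ k * (t ^ (-k) * y) = y := by group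
          rw [this]; abel
        rw [e1, nil_of_cyc_del_add, nil_of_cyc_del_zpow, nil_of_cyc_del_sub t i (t ^ k • b) b,
          nil_of_cyc_del_zpow t k i b]
        refine nil_of_cyc_nil_add H' _ _ _ ?_ ?_
        · exact nil_of_cyc_nil_smul H' _ (Subgroup.zpow_mem _ htn _) _ _
            (nil_of_cyc_nil_del H' t htn _ _ _ ((nil_of_cyc_nil_succ H' _ b).1 h2 _ hk))
        · refine nil_of_cyc_zp H' t htn _ _ ?_ k
          rw [Function.iterate_succ_apply'] at h3
          exact h3

end nil_of_cyc_aux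

theorem nil_of_cyc {Γ A : Type} [Group Γ] [AddCommGroup A] [DistribMulAction Γ A] (h : PC Γ)
    (hA : Cyc Γ A) :
    ∃ m : ℕ, ∀ (H : Subgroup Γ) (a : A), (∃ n, Nil H n a) → Nil H m a := by
  obtain ⟨ht, e, -, hA⟩ := hA
  obtain ⟨s, hs⟩ := ser_exists h
  suffices key : ∀ (s : ℕ) (H : Subgroup Γ), Ser s H → ∀ a : A, (∃ n, Nil H n a) →
      Nil H (ht ^ s) a from ⟨ht ^ s, fun H a ha => key s H (hs H) a ha⟩
  intro s
  induction s with
  | zero =>
    intro H hH a _
    have hH' : H = ⊥ := hH
    rw [pow_zero, hH']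
    show Nil ⊥ (0 + 1) a
    rw [nil_of_cyc_nil_succ]
    intro x hx
    rw [Subgroup.mem_bot] at hx
    rw [hx, one_smul, sub_self]
    exact nil_of_cyc_nil_z _ _
  | succ s ih =>
    intro H hH a ha
    obtain ⟨H', t, hle, htH, hnorm, hdec, hser⟩ := hH
    have htn : t ∈ Subgroup.normalizer (H' : Set Γ) := by
      rw [Subgroup.mem_normalizer_iff]
      exact hnorm
    have hh : ∀ b : A, (∃ n, Nil H n b) → (del t)^[ht] b = 0 := by
      rintro b ⟨n, hn⟩
      exact (hA t b).1 ⟨n, nil_of_cyc_iter H t htH n b hn⟩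
    obtain ⟨n, hn⟩ := ha
    have hq := ih H' hser a ⟨n, nil_of_cyc_nil_le hle n a hn⟩
    rcases hqe : ht ^ s with _ | j
    · rw [hqe, nil_of_cyc_nil_zero] at hq
      rw [hq]
      exact nil_of_cyc_nil_z _ _
    · rw [hqe] at hq
      have := nil_of_cyc_claim H H' t ht hle htH htn hdec hh j ht a ⟨n, hn⟩ hq
        (by rw [hh a ⟨n, hn⟩]; exact nil_of_cyc_nil_z _ _)
      have e2 : ht ^ (s + 1) = j * ht + ht := by rw [pow_succ, hqe]; ring
      rw [e2]
      exact this


end Pool.Agent.Helper294.HallC
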