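import Pool.Agent.Helper294.HallC.Defs

set_option autoImplicit false

namespace Pool.Agent.Helper294.HallC


theorem fp_step_conj {n : ℕ} {G' : Type} [Group G'] (τ : G') (ψ : FreeGroup (Fin n) →* G')
    (h : ∀ i, ∃ v, τ * ψ (FreeGroup.of i) * τ⁻¹ = ψ v) (u : FreeGroup (Fin n)) :
    ∃ v, τ * ψ u * τ⁻¹ = ψ v := by
  induction u using FreeGroup.induction_on with
  | C1 => exact ⟨1, by rw [map_one, mul_one, mul_inv_cancel]⟩
  | of i => exact h i
  | inv_of i ih =>
    obtain ⟨v, hv⟩ := ih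
    refine ⟨v⁻¹, ?_⟩
    rw [map_inv, map_inv, ← hv]
    group
  | mul x y hx hy =>
    obtain ⟨v, hv⟩ := hx
    obtain ⟨v', hv'⟩ := hy
    refine ⟨v * v', ?_⟩
    rw [map_mul, map_mul, ← hv, ← hv']
    group

theorem fp_step_zconj {n : ℕ} {G' : Type} [Group G'] (τ : G') (ψ : FreeGroup (Fin n) →* G')
    (h1 : ∀ u, ∃ v, τ * ψ u * τ⁻¹ = ψ v) (h2 : ∀ u, ∃ v, τ⁻¹ * ψ u * τ⁻¹⁻¹ = ψ v) (l : ℤ) :
    ∀ u, ∃ v, τ ^ l * ψ u * τ ^ (-l) = ψ v := by
  induction l using Int.induction_on with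
  | zero => exact fun u => ⟨u, by rw [neg_zero, zpow_zero, one_mul, mul_one]⟩
  | succ i ih =>
    intro u
    obtain ⟨v, hv⟩ := h1 u
    obtain ⟨v', hv'⟩ := ih v
    refine ⟨v', ?_⟩
    rw [← hv', ← hv, zpow_add_one, neg_add, zpow_add, zpow_neg_one]
    group
  | pred i ih =>
    intro u
    obtain ⟨v, hv⟩ := h2 u
    obtain ⟨v', hv'⟩ := ih v
    refine ⟨v', ?_⟩
    rw [← hv', ← hv]
    group

theorem fp_step_gen {n : ℕ} {G' : Type} [Group G'] (τ : G') (ψ : FreeGroup (Fin n) →* G')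
    (hz : ∀ (l : ℤ) u, ∃ v, τ ^ l * ψ u * τ ^ (-l) = ψ v)
    (q : FreeGroup (Option (Fin n)) →* G') (q0 : q (FreeGroup.of none) = τ)
    (q1 : ∀ i, q (FreeGroup.of (some i)) = ψ (FreeGroup.of i))
    (z : FreeGroup (Option (Fin n))) : ∃ (k : ℤ) (u : FreeGroup (Fin n)), q z = τ ^ k * ψ u := by
  induction z using FreeGroup.induction_on with
  | C1 => exact ⟨0, 1, by rw [map_one, zpow_zero, map_one, mul_one]⟩
  | of o =>
    cases o with
    | none => exact ⟨1, 1, by rw [q0, zpow_one, map_one, mul_one]⟩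
    | some i => exact ⟨0, FreeGroup.of i, by rw [q1, zpow_zero, one_mul]⟩
  | inv_of o ih =>
    obtain ⟨k, u, hu⟩ := ih
    obtain ⟨v, hv⟩ := hz k u⁻¹
    refine ⟨-k, v, ?_⟩
    rw [map_inv, hu, ← hv, map_inv]
    group
  | mul x y hx hy =>
    obtain ⟨k, u, hu⟩ := hx
    obtain ⟨k', u', hu'⟩ := hy
    obtain ⟨v, hv⟩ := hz (-k') u
    refine ⟨k + k', v * u', ?_⟩
    rw [map_mul, hu, hu', map_mul, ← hv, neg_neg]
    group

/-- cyclic extensions of finitely presented groups are finitely presented. -/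
theorem fp_step {Q : Type} [Group Q] (R P : Subgroup Q) (t : Q) (hRP : R ≤ P) (ht : t ∈ P)
    (hn : ∀ x, x ∈ R ↔ t * x * t⁻¹ ∈ R) (hc : ∀ x ∈ P, ∃ k : ℤ, t ^ (-k) * x ∈ R)
    (hR : Group.IsFinitelyPresented ↥R) : Group.IsFinitelyPresented ↥P := by
  obtain ⟨n, φ, hφ, S, hS, hSk⟩ := hR.out
  let Hk : AddSubgroup ℤ :=
    { carrier := {k | t ^ k ∈ R}
      zero_mem' := by
        change t ^ (0 : ℤ) ∈ R
        rw [zpow_zero]
        exact R.one_mem
      add_mem' := by
        intro a b ha hb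
        change t ^ (a + b) ∈ R
        rw [zpow_add]
        exact R.mul_mem ha hb
      neg_mem' := by
        intro a ha
        change t ^ (-a) ∈ R
        rw [zpow_neg]
        exact R.inv_mem ha }
  obtain ⟨m, hm⟩ := Int.subgroup_cyclic Hk
  have hmem : ∀ k : ℤ, t ^ k ∈ R ↔ ∃ j : ℤ, j * m = k := by
    intro k
    have h1 : k ∈ Hk ↔ t ^ k ∈ R := Iff.rfl
    rw [← h1, hm, AddSubgroup.mem_closure_singleton]
    simp only [smul_eq_mul]
  have ht1 : ∀ x ∈ R, t * x * t⁻¹ ∈ R := fun x hx => (hn x).1 hx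
  have ht2 : ∀ x ∈ R, t⁻¹ * x * t ∈ R := fun x hx => (hn _).2 (by
    have : t * (t⁻¹ * x * t) * t⁻¹ = x := by group
    rwa [this])
  choose w hw using fun i : Fin n =>
    hφ ⟨t * (φ (FreeGroup.of i) : Q) * t⁻¹, ht1 _ (φ (FreeGroup.of i)).2⟩
  choose w' hw' using fun i : Fin n =>
    hφ ⟨t⁻¹ * (φ (FreeGroup.of i) : Q) * t, ht2 _ (φ (FreeGroup.of i)).2⟩
  obtain ⟨w0, hw0⟩ := hφ ⟨t ^ m, (hmem m).2 ⟨1, one_mul m⟩⟩
  let ι : FreeGroup (Fin n) →* FreeGroup (Option (Fin n)) := FreeGroup.map some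
  let T : FreeGroup (Option (Fin n)) := FreeGroup.of none
  let Φ : FreeGroup (Option (Fin n)) →* ↥P := FreeGroup.lift
    (fun o => o.elim (⟨t, ht⟩ : ↥P) (fun i => Subgroup.inclusion hRP (φ (FreeGroup.of i))))
  have hΦT : Φ T = ⟨t, ht⟩ := FreeGroup.lift_apply_of
  have hΦi : ∀ i : Fin n, Φ (FreeGroup.of (some i)) =
      Subgroup.inclusion hRP (φ (FreeGroup.of i)) := fun i => FreeGroup.lift_apply_of
  have hιi : ∀ i : Fin n, ι (FreeGroup.of i) = FreeGroup.of (some i) := fun i => FreeGroup.map.of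
  have hΦι : ∀ u, Φ (ι u) = Subgroup.inclusion hRP (φ u) := by
    have : Φ.comp ι = (Subgroup.inclusion hRP).comp φ := by
      refine FreeGroup.ext_hom _ _ fun i => ?_
      rw [MonoidHom.comp_apply, MonoidHom.comp_apply, hιi, hΦi]
    intro u
    exact congrArg (fun f : FreeGroup (Fin n) →* ↥P => f u) this
  have hΦTk : ∀ k : ℤ, ((Φ (T ^ k) : ↥P) : Q) = t ^ k := fun k => by
    rw [map_zpow, hΦT]
    rfl
  have hΦιQ : ∀ u, ((Φ (ι u) : ↥P) : Q) = (φ u : Q) := fun u => by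
    rw [hΦι]
    rfl
  let rels : Set (FreeGroup (Option (Fin n))) := (((ι '' S) ∪
    Set.range (fun i : Fin n => T * ι (FreeGroup.of i) * T⁻¹ * (ι (w i))⁻¹)) ∪
    Set.range (fun i : Fin n => T⁻¹ * ι (FreeGroup.of i) * T * (ι (w' i))⁻¹)) ∪
    {T ^ m * (ι w0)⁻¹}
  have hfin : rels.Finite :=
    (((hS.image _).union (Set.finite_range _)).union (Set.finite_range _)).union
      (Set.finite_singleton _)
  let N : Subgroup (FreeGroup (Option (Fin n))) := Subgroup.normalClosure rels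
  have hsurj : Function.Surjective Φ := by
    rintro ⟨x, hx⟩
    obtain ⟨k, hk⟩ := hc x hx
    obtain ⟨u, hu⟩ := hφ ⟨t ^ (-k) * x, hk⟩
    refine ⟨T ^ k * ι u, Subtype.ext ?_⟩
    rw [map_mul, Subgroup.coe_mul, hΦTk, hΦιQ, hu]
    change t ^ k * (t ^ (-k) * x) = x
    rw [zpow_neg, mul_inv_cancel_left]
  have hker : Φ.ker = N := by
    have hNle : N ≤ Φ.ker := by
      refine Subgroup.normalClosure_le_normal ?_
      rintro y (((⟨s, hs, rfl⟩ | ⟨i, rfl⟩) | ⟨i, rfl⟩) | hy)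
      · change Φ (ι s) = 1
        have h2 : s ∈ Subgroup.normalClosure S := Subgroup.subset_normalClosure hs
        rw [hSk, MonoidHom.mem_ker] at h2
        rw [hΦι, h2, map_one]
      · change Φ (T * ι (FreeGroup.of i) * T⁻¹ * (ι (w i))⁻¹) = 1
        apply Subtype.ext
        rw [map_mul, map_mul, map_mul, map_inv, map_inv, hΦT, hΦι, hΦι, hw]
        change t * (φ (FreeGroup.of i) : Q) * t⁻¹ * (t * (φ (FreeGroup.of i) : Q) * t⁻¹)⁻¹ = 1
        rw [mul_inv_cancel]
      · change Φ (T⁻¹ * ι (FreeGroup.of i) * T * (ι (w' i))⁻¹) = 1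
        apply Subtype.ext
        rw [map_mul, map_mul, map_mul, map_inv, map_inv, hΦT, hΦι, hΦι, hw']
        change t⁻¹ * (φ (FreeGroup.of i) : Q) * t * (t⁻¹ * (φ (FreeGroup.of i) : Q) * t)⁻¹ = 1
        rw [mul_inv_cancel]
      · rw [Set.mem_singleton_iff] at hy
        rw [hy]
        change Φ (T ^ m * (ι w0)⁻¹) = 1
        apply Subtype.ext
        rw [map_mul, map_inv, Subgroup.coe_mul, Subgroup.coe_inv, hΦTk, hΦιQ, hw0,
          mul_inv_cancel]
        rfl
    apply le_antisymm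
    · intro z hz
      rw [MonoidHom.mem_ker] at hz
      set q := QuotientGroup.mk' N with hq
      have hqN : ∀ y, q y = 1 ↔ y ∈ N := fun y => by
        rw [hq, ← MonoidHom.mem_ker, QuotientGroup.ker_mk']
      have hrel : ∀ y z : FreeGroup (Option (Fin n)), y * z⁻¹ ∈ rels → q y = q z := by
        intro y z hyz
        have h1 : q (y * z⁻¹) = 1 := (hqN _).2 (Subgroup.subset_normalClosure hyz)
        rw [map_mul, map_inv] at h1
        exact mul_inv_eq_one.1 h1
      have hSN : ∀ u, φ u = 1 → q (ι u) = 1 := by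
        intro u hu
        rw [hqN]
        have h1 : u ∈ Subgroup.normalClosure S := by
          rw [hSk]
          exact hu
        have h2 : Subgroup.normalClosure S ≤ N.comap ι := by
          refine Subgroup.normalClosure_le_normal ?_
          intro s hs
          exact Subgroup.subset_normalClosure (Or.inl (Or.inl (Or.inl ⟨s, hs, rfl⟩)))
        exact h2 h1
      have hA : ∀ i, ∃ v, q T * (q.comp ι) (FreeGroup.of i) * (q T)⁻¹ = (q.comp ι) v := by
        intro i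
        refine ⟨w i, ?_⟩
        have h1 := hrel (T * ι (FreeGroup.of i) * T⁻¹) (ι (w i))
          (Or.inl (Or.inl (Or.inr ⟨i, rfl⟩)))
        rw [map_mul, map_mul, map_inv] at h1
        exact h1
      have hB : ∀ i, ∃ v, (q T)⁻¹ * (q.comp ι) (FreeGroup.of i) * (q T)⁻¹⁻¹ = (q.comp ι) v := by
        intro i
        refine ⟨w' i, ?_⟩
        have h1 := hrel (T⁻¹ * ι (FreeGroup.of i) * T) (ι (w' i)) (Or.inl (Or.inr ⟨i, rfl⟩))
        rw [map_mul, map_mul, map_inv] at h1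
        rw [inv_inv]
        exact h1
      obtain ⟨k, u, hku⟩ := fp_step_gen (q T) (q.comp ι)
        (fp_step_zconj (q T) (q.comp ι) (fp_step_conj _ _ hA) (fp_step_conj _ _ hB)) q rfl
        (fun i => by rw [MonoidHom.comp_apply, hιi]) z
      -- `z` and `T ^ k * ι u` agree modulo `N`
      have h1 : z * (T ^ k * ι u)⁻¹ ∈ N := by
        rw [← hqN, map_mul, map_inv, map_mul, map_zpow, hku, MonoidHom.comp_apply,
          mul_inv_cancel]
      have h2 : t ^ k * (φ u : Q) = 1 := by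
        have h3 : Φ (z * (T ^ k * ι u)⁻¹) = 1 := hNle h1
        rw [map_mul, hz, one_mul, map_inv, inv_eq_one] at h3
        have h4 := congrArg (fun x : ↥P => (x : Q)) h3
        simp only [map_mul, Subgroup.coe_mul, Subgroup.coe_one] at h4
        rw [hΦTk, hΦιQ] at h4
        exact h4
      have h3 : t ^ k ∈ R := by
        have : t ^ k = ((φ u : Q))⁻¹ := eq_inv_of_mul_eq_one_left h2
        rw [this]
        exact R.inv_mem (φ u).2
      obtain ⟨j, hj⟩ := (hmem k).1 h3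
      have h4 : (q T) ^ m = q (ι w0) := by
        have h5 := hrel (T ^ m) (ι w0) (Or.inr rfl)
        rwa [map_zpow] at h5
      have h5 : q z = q (ι (w0 ^ j * u)) := by
        rw [hku, MonoidHom.comp_apply, map_mul ι, map_mul q, map_zpow ι, map_zpow q, ← h4,
          ← zpow_mul, mul_comm m j, hj]
      have h6 : φ (w0 ^ j * u) = 1 := by
        apply Subtype.ext
        rw [map_mul, map_zpow, hw0, Subgroup.coe_mul, Subgroup.coe_zpow, Subgroup.coe_one]
        change (t ^ m) ^ j * (φ u : Q) = 1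
        rw [← zpow_mul, mul_comm m j, hj, h2]
      rw [← hqN, h5]
      exact hSN _ h6
    · exact hNle
  exact Group.IsFinitelyPresented.of_surjective Φ hsurj ⟨rels, hfin, hker.symm⟩

end Pool.Agent.Helper294.HallC
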