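import Pool.Agent.Helper294.HallC.Defs
import Pool.Agent.Helper294.HallC.Base
import Pool.Agent.Helper294.HallC.FpStep

set_option autoImplicit false

namespace Pool.Agent.Helper294.HallC


theorem pc_fp {Q : Type} [Group Q] (h : PC Q) : Group.IsFinitelyPresented Q := by
  have key : Group.IsFinitelyPresented ↥(⊤ : Subgroup Q) := by
    refine poly_ind h (fun R => Group.IsFinitelyPresented ↥R) ?_ ?_
    · haveI : Finite ↥(⊥ : Subgroup Q) := inferInstance
      infer_instance
    · intro R P t hRP ht hn hc hR
      exact fp_step R P t hRP ht hn hc hR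
  exact Group.IsFinitelyPresented.equiv Subgroup.topEquiv

end Pool.Agent.Helper294.HallC
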