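import Pool.Agent.Helper294.HallC.Defs
import Pool.Agent.Helper294.HallC.ConjFgm
import Pool.Agent.Helper294.HallC.ConjModel
import Pool.Agent.Helper294.HallC.CycAll
import Pool.Agent.Helper294.HallC.FngOfFp
import Pool.Agent.Helper294.HallC.Heights
import Pool.Agent.Helper294.HallC.NilOfCyc
import Pool.Agent.Helper294.HallC.PcFp

set_option autoImplicit false

namespace Pool.Agent.Helper294.HallC


theorem fin_S00647 (hp : HypP) (h0 : Hyp0) :
    ∀ (G : Type) [Group G], Group.FG G →
      (∃ (Q : Type) (_ : Group Q) (f : G →* Q),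
          Function.Surjective f ∧ IsSolvable Q ∧ (∀ K : Subgroup Q, K.FG) ∧
            ∀ x ∈ f.ker, ∀ y ∈ f.ker, x * y = y * x) →
      ∀ H : Subgroup G, ∃ n : ℕ,
        upperCentralSeries (↥H) n = upperCentralSeries (↥H) (n + 1) := by
  intro G _ hG hex H
  obtain ⟨Q, instQ, f, hf, hsol, hK, hab⟩ := hex
  have hQ : PC Q := ⟨hsol, hK⟩
  obtain ⟨A, instA, instD, ι, hι⟩ := conj_model f hf hab
  have hfn := fng_of_fp hG (pc_fp hQ) f hf
  have hA : FGM Q A := conj_fgm f hf ι hι hfn
  have hC : Cyc Q A := cyc_all hp h0 hQ hA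
  exact heights hQ f ι hι (nil_of_cyc hQ hC) H

end Pool.Agent.Helper294.HallC
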