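import Pool.Agent.Helper294.HallC.Defs
import Pool.Agent.Helper294.HallC.ChainSub

set_option autoImplicit false

namespace Pool.Agent.Helper294.HallC


/-- pointwise stabiliser of the fixed points of `X`. -/
def gap_mod_St {Γ : Type} (A : Type) [Group Γ] [AddCommGroup A] [DistribMulAction Γ A]
    (X : Set Γ) : Subgroup Γ where
  carrier := {g | ∀ a ∈ Fx (A := A) X, g • a = a}
  mul_mem' := by
    intro g h hg hh a ha
    rw [mul_smul, hh a ha, hg a ha]
  one_mem' := by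
    intro a _
    exact one_smul _ a
  inv_mem' := by
    intro g hg a ha
    rw [inv_smul_eq_iff]
    exact (hg a ha).symm

theorem gap_mod_mem {Γ A : Type} [Group Γ] [AddCommGroup A] [DistribMulAction Γ A]
    (X : Set Γ) (g : Γ) : g ∈ gap_mod_St A X ↔ ∀ a ∈ Fx (A := A) X, g • a = a := Iff.rfl

theorem gap_mod_le {Γ A : Type} [Group Γ] [AddCommGroup A] [DistribMulAction Γ A]
    (X Y : Set Γ) (h : Fx (A := A) X ⊆ Fx Y) : gap_mod_St A Y ≤ gap_mod_St A X := by
  intro g hg a ha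
  exact hg a (h ha)

theorem gap_mod_sub {Γ A : Type} [Group Γ] [AddCommGroup A] [DistribMulAction Γ A]
    (X Y : Set Γ) (h : gap_mod_St A Y ≤ gap_mod_St A X) : Fx (A := A) X ⊆ Fx Y := by
  intro a ha y hy
  have h1 : y ∈ gap_mod_St A Y := fun b hb => hb y hy
  exact h h1 a ha

theorem gap_mod {Γ A : Type} [Group Γ] [AddCommGroup A] [DistribMulAction Γ A] (h : PC Γ)
    (hA : Cyc Γ A) :
    ∃ m : ℕ, ∀ (n : ℕ) (X : ℕ → Set Γ), (∀ i < n, Fx (A := A) (X i) ⊆ Fx (X (i + 1))) →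
      {i : ℕ | i < n ∧ Fx (A := A) (X i) ⊂ Fx (X (i + 1))}.ncard ≤ m := by
  obtain ⟨_, e, he, hA⟩ := hA
  obtain ⟨m, hm⟩ := chain_sub h e he
  refine ⟨m, fun n X hX => ?_⟩
  have h1 := hm n (fun i => gap_mod_St A (X (n - i))) (by
    intro i hi
    have h2 := gap_mod_le _ _ (hX (n - (i + 1)) (by omega))
    rw [show n - (i + 1) + 1 = n - i by omega] at h2
    exact h2) (by
    intro i j _ _ x _ hk a ha
    obtain ⟨k, hk0, hk⟩ := hk
    exact (hA x a).2 ⟨k, hk0, hk a ha⟩)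
  refine le_trans ?_ h1
  refine Set.ncard_le_ncard_of_injOn (fun i => n - 1 - i) ?_ ?_
    ((Set.finite_Iio n).subset (fun i hi => hi.1))
  · rintro i ⟨hi, hi2⟩
    refine ⟨by omega, ?_⟩
    have e1 : n - (n - 1 - i) = i + 1 := by omega
    have e2 : n - (n - 1 - i + 1) = i := by omega
    show gap_mod_St A (X (n - (n - 1 - i))) < gap_mod_St A (X (n - (n - 1 - i + 1)))
    rw [e1, e2]
    refine lt_of_le_of_ne (gap_mod_le _ _ hi2.1) ?_
    intro heq
    exact hi2.2 (gap_mod_sub _ _ heq.ge)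
  · rintro i ⟨hi, _⟩ j ⟨hj, _⟩ hij
    simp only at hij
    omega

end Pool.Agent.Helper294.HallC
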