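import Pool.Agent.Helper294.HallC.Defs
import Pool.Agent.Helper294.HallC.ChainSub
import Pool.Agent.Helper294.HallC.GapMod

set_option autoImplicit false

namespace Pool.Agent.Helper294.HallC


theorem gap_grp_fix {G Q A : Type} [Group G] [Group Q] [AddCommGroup A] [DistribMulAction Q A]
    (f : G →* Q) (ι : Multiplicative A →* G) (h : ConjAct' f A ι) (X : Set G) (a : A) :
    ι (Multiplicative.ofAdd a) ∈ Subgroup.centralizer X ↔ a ∈ Fx (A := A) (f '' X) := by
  rw [Subgroup.mem_centralizer_iff]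
  constructor
  · rintro hx _ ⟨x, hxX, rfl⟩
    have h1 := hx x hxX
    have h2 := h.act x a
    rw [h1, mul_assoc, mul_inv_cancel, mul_one] at h2
    exact (Multiplicative.ofAdd.injective (h.inj h2)).symm
  · intro hx x hxX
    have h1 : f x • a = a := hx (f x) ⟨x, hxX, rfl⟩
    have h2 := h.act x a
    rw [h1] at h2
    calc x * ι (Multiplicative.ofAdd a)
        = (x * ι (Multiplicative.ofAdd a) * x⁻¹) * x := by group
      _ = ι (Multiplicative.ofAdd a) * x := by rw [h2]

theorem gap_grp_mono {G : Type} [Group G] (C : ℕ → Subgroup G) (n : ℕ)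
    (h : ∀ i < n, C i ≤ C (i + 1)) (i j : ℕ) (hij : i ≤ j) (hj : j ≤ n) : C i ≤ C j := by
  induction j, hij using Nat.le_induction with
  | base => exact le_rfl
  | succ k hk ih => exact (ih (by omega)).trans (h k (by omega))

theorem gap_grp_const {A : Type} (F : ℕ → Set A) (a z : ℕ)
    (h : ∀ j, a ≤ j → j ≤ z → F j = F (j + 1)) (j : ℕ) (hj : a ≤ j) (hjz : j ≤ z + 1) :
    F j = F a := by
  induction j, hj using Nat.le_induction with
  | base => rfl
  | succ k hk ih => rw [← h k hk (by omega)]; exact ih (by omega)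

theorem gap_grp_ker {G Q A : Type} [Group G] [Group Q] [AddCommGroup A] [DistribMulAction Q A]
    (f : G →* Q) (ι : Multiplicative A →* G) (h : ConjAct' f A ι) (x y : G) (hxy : f x = f y) :
    ∃ b : A, ι (Multiplicative.ofAdd b) = x * y⁻¹ := by
  have h1 : x * y⁻¹ ∈ f.ker := by
    rw [MonoidHom.mem_ker, map_mul, map_inv, hxy, mul_inv_cancel]
  rw [← h.range] at h1
  obtain ⟨b, hb⟩ := h1
  exact ⟨Multiplicative.toAdd b, hb⟩

/-- the bound on one fibre -/
theorem gap_grp_fibre {G Q A : Type} [Group G] [Group Q] [AddCommGroup A] [DistribMulAction Q A]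
    (f : G →* Q) (ι : Multiplicative A →* G) (h : ConjAct' f A ι)
    (e : ℕ) (hE : ∀ (x y : G) (n : ℕ), 0 < n → y * x ^ n = x ^ n * y → y * x ^ e = x ^ e * y)
    (m2 : ℕ) (hm2 : ∀ (n : ℕ) (P : ℕ → Subgroup Q), (∀ i < n, P i ≤ P (i + 1)) →
      (∀ i j, i ≤ j → j ≤ n → ∀ x ∈ P j, (∃ k, 0 < k ∧ x ^ k ∈ P i) → x ^ e ∈ P i) →
      {i : ℕ | i < n ∧ P i < P (i + 1)}.ncard ≤ m2)
    (n : ℕ) (X : ℕ → Set G)
    (hX : ∀ i < n, Subgroup.centralizer (X i) ≤ Subgroup.centralizer (X (i + 1)))
    (T : Finset ℕ) (hT : ∀ i ∈ T, i < n ∧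
      Subgroup.centralizer (X i) < Subgroup.centralizer (X (i + 1)))
    (a z : ℕ) (haz : a ≤ z) (hzn : z < n) (hTa : ∀ i ∈ T, a ≤ i ∧ i ≤ z)
    (hF : ∀ j, a ≤ j → j ≤ z → Fx (A := A) (f '' X j) = Fx (A := A) (f '' X (j + 1))) :
    T.card ≤ m2 := by
  classical
  have hFc := gap_grp_const (fun j => Fx (A := A) (f '' X j)) a z hF
  have hCm := gap_grp_mono (fun i => Subgroup.centralizer (X i)) n hX
  have key := hm2 (z + 1 - a) (fun j => (Subgroup.centralizer (X (a + j))).map f)
    (by
      intro i hi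
      exact Subgroup.map_mono (hX (a + i) (by omega)))
    (by
      rintro i j hij hj _ ⟨x, hx, rfl⟩ ⟨k, hk, c, hc, hck⟩
      have h1 : f (x ^ k) = f c := by rw [map_pow, hck]
      obtain ⟨b, hb⟩ := gap_grp_ker f ι h (x ^ k) c h1
      have hcj : c ∈ Subgroup.centralizer (X (a + j)) :=
        hCm (a + i) (a + j) (by omega) (by omega) hc
      have hbj : ι (Multiplicative.ofAdd b) ∈ Subgroup.centralizer (X (a + j)) := by
        rw [hb]
        exact Subgroup.mul_mem _ (Subgroup.pow_mem _ hx k) (Subgroup.inv_mem _ hcj)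
      rw [gap_grp_fix f ι h, hFc (a + j) (by omega) (by omega),
        ← hFc (a + i) (by omega) (by omega), ← gap_grp_fix f ι h, hb] at hbj
      have hxk : x ^ k ∈ Subgroup.centralizer (X (a + i)) := by
        have := Subgroup.mul_mem _ hbj hc
        rwa [inv_mul_cancel_right] at this
      refine ⟨x ^ e, ?_, by rw [map_pow]⟩
      show x ^ e ∈ Subgroup.centralizer (X (a + i))
      rw [Subgroup.mem_centralizer_iff] at hxk ⊢
      intro y hy
      exact hE x y k hk (hxk y hy))
  have hset : {i : ℕ | i < z + 1 - a ∧ (Subgroup.centralizer (X (a + i))).map f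
        < (Subgroup.centralizer (X (a + (i + 1)))).map f}
      = (((Finset.range (z + 1 - a)).filter (fun i => (Subgroup.centralizer (X (a + i))).map f
        < (Subgroup.centralizer (X (a + (i + 1)))).map f) : Finset ℕ) : Set ℕ) := by
    ext i
    simp
  have key2 : ((Finset.range (z + 1 - a)).filter (fun i =>
      (Subgroup.centralizer (X (a + i))).map f
        < (Subgroup.centralizer (X (a + (i + 1)))).map f)).card ≤ m2 := by
    rw [← Set.ncard_coe_finset, ← hset]
    exact key
  refine le_trans ?_ key2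
  apply Finset.card_le_card_of_injOn (fun i => i - a)
  · intro i hi
    obtain ⟨hin, hlt⟩ := hT i hi
    obtain ⟨hai, hiz⟩ := hTa i hi
    have e1 : a + (i - a) = i := by omega
    simp only [Finset.coe_filter, Finset.mem_range, Set.mem_setOf_eq]
    refine ⟨by omega, ?_⟩
    have e2 : a + (i - a + 1) = i + 1 := by omega
    rw [e1, e2]
    refine lt_of_le_not_ge (Subgroup.map_mono hlt.le) ?_
    intro hge
    apply not_le_of_gt hlt
    intro x hx
    obtain ⟨y, hy, hyx⟩ := hge (Subgroup.mem_map_of_mem f hx)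
    obtain ⟨b, hb⟩ := gap_grp_ker f ι h x y hyx.symm
    have h1 : ι (Multiplicative.ofAdd b) ∈ Subgroup.centralizer (X (i + 1)) := by
      rw [hb]
      exact Subgroup.mul_mem _ hx (Subgroup.inv_mem _ (hlt.le hy))
    rw [gap_grp_fix f ι h, ← hF i hai hiz, ← gap_grp_fix f ι h, hb] at h1
    have := Subgroup.mul_mem _ h1 hy
    rwa [inv_mul_cancel_right] at this
  · intro i hi j hj hij
    have h1 := hTa i hi
    have h2 := hTa j hj
    simp only at hij
    omega

theorem gap_grp {G Q A : Type} [Group G] [Group Q] [AddCommGroup A] [DistribMulAction Q A]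
    (hQ : PC Q) (f : G →* Q) (ι : Multiplicative A →* G)
    (h : ConjAct' f A ι) (hc : Cyc Q A) (hG : Erem G) :
    ∃ m : ℕ, ∀ (n : ℕ) (X : ℕ → Set G),
      (∀ i < n, Subgroup.centralizer (X i) ≤ Subgroup.centralizer (X (i + 1))) →
      {i : ℕ | i < n ∧ Subgroup.centralizer (X i) < Subgroup.centralizer (X (i + 1))}.ncard
        ≤ m := by
  classical
  obtain ⟨e, he, hE⟩ := hG
  obtain ⟨m1, hm1⟩ := gap_mod hQ hc
  obtain ⟨m2, hm2⟩ := chain_sub hQ e he
  refine ⟨m1 + m2 * (m1 + 1), ?_⟩
  intro n X hX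
  -- the increasing sets `F i`
  have hFle : ∀ i < n, Fx (A := A) (f '' X i) ⊆ Fx (A := A) (f '' X (i + 1)) := by
    intro i hi a ha
    rw [← gap_grp_fix f ι h] at ha ⊢
    exact hX i hi ha
  have h1 := hm1 n (fun i => f '' X i) hFle
  set J1 : Finset ℕ := (Finset.range n).filter
    (fun i => Fx (A := A) (f '' X i) ⊂ Fx (A := A) (f '' X (i + 1))) with hJ1
  have hJ1c : J1.card ≤ m1 := by
    rw [← Set.ncard_coe_finset]
    refine le_trans (le_of_eq ?_) h1
    congr 1
    ext i
    simp [hJ1]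
  set J : Finset ℕ := (Finset.range n).filter
    (fun i => Subgroup.centralizer (X i) < Subgroup.centralizer (X (i + 1))) with hJ
  have hJset : {i : ℕ | i < n ∧ Subgroup.centralizer (X i) < Subgroup.centralizer (X (i + 1))}
      = (J : Set ℕ) := by
    ext i
    simp [hJ]
  rw [hJset, Set.ncard_coe_finset]
  have hmemJ : ∀ i, i ∈ J ↔ i < n ∧
      Subgroup.centralizer (X i) < Subgroup.centralizer (X (i + 1)) := by
    intro i
    simp [hJ]
  have hmemJ1 : ∀ i, i ∈ J1 ↔ i < n ∧
      Fx (A := A) (f '' X i) ⊂ Fx (A := A) (f '' X (i + 1)) := by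
    intro i
    simp [hJ1]
  have hsplit : J.card ≤ J1.card + (J \ J1).card := by
    have := Finset.le_card_sdiff J1 J
    omega
  -- the grouping
  let c : ℕ → ℕ := fun i => (J1.filter (fun j => j < i)).card
  have hcmaps : ∀ i ∈ J \ J1, c i ∈ Finset.range (m1 + 1) := by
    intro i _
    rw [Finset.mem_range]
    have : c i ≤ J1.card := Finset.card_filter_le _ _
    omega
  have hfib : ∀ v ∈ Finset.range (m1 + 1), ((J \ J1).filter (fun i => c i = v)).card ≤ m2 := by
    intro v _
    set T := (J \ J1).filter (fun i => c i = v) with hT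
    rcases Finset.eq_empty_or_nonempty T with hemp | hne
    · rw [hemp, Finset.card_empty]; exact Nat.zero_le _
    have hmemT : ∀ i, i ∈ T ↔ (i ∈ J ∧ i ∉ J1) ∧ c i = v := by
      intro i
      simp [hT]
    have ha := Finset.min'_mem T hne
    have hz := Finset.max'_mem T hne
    set a := T.min' hne with had
    set z := T.max' hne with hzd
    have haT := (hmemT a).1 ha
    have hzT := (hmemT z).1 hz
    have hle : ∀ i ∈ T, a ≤ i ∧ i ≤ z := fun i hi =>
      ⟨Finset.min'_le T i hi, Finset.le_max' T i hi⟩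
    have hzn : z < n := ((hmemJ z).1 hzT.1.1).1
    refine gap_grp_fibre f ι h e hE m2 hm2 n X hX T (fun i hi => (hmemJ i).1 ((hmemT i).1 hi).1.1)
      a z (hle a ha).2 hzn hle ?_
    intro j haj hjz
    have hjn : j < n := lt_of_le_of_lt hjz hzn
    have hjJ1 : j ∉ J1 := by
      intro hj
      have hjz' : j < z := lt_of_le_of_ne hjz (by rintro rfl; exact hzT.1.2 hj)
      have hlt : c a < c z := by
        apply Finset.card_lt_card
        rw [Finset.ssubset_iff_of_subset]
        · refine ⟨j, ?_, ?_⟩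
          · rw [Finset.mem_filter]; exact ⟨hj, hjz'⟩
          · rw [Finset.mem_filter]
            rintro ⟨-, h3⟩
            omega
        · intro i hi
          rw [Finset.mem_filter] at hi ⊢
          exact ⟨hi.1, by omega⟩
      rw [haT.2, hzT.2] at hlt
      exact lt_irrefl _ hlt
    by_contra hne2
    exact hjJ1 ((hmemJ1 j).2 ⟨hjn, (hFle j hjn).ssubset_of_ne hne2⟩)
  have h2 := Finset.card_le_mul_card_image_of_maps_to hcmaps m2 hfib
  rw [Finset.card_range] at h2
  omega

end Pool.Agent.Helper294.HallC
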