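import Pool.Agent.Helper294.HallC.Defs
import Pool.Agent.Helper294.HallC.ConjFgm
import Pool.Agent.Helper294.HallC.ConjModel
import Pool.Agent.Helper294.HallC.CycAll
import Pool.Agent.Helper294.HallC.EremExt
import Pool.Agent.Helper294.HallC.EremPc
import Pool.Agent.Helper294.HallC.FngOfFp
import Pool.Agent.Helper294.HallC.GapGrp
import Pool.Agent.Helper294.HallC.NoeOfFg
import Pool.Agent.Helper294.HallC.PcFp
import Pool.Agent.Helper294.HallC.TorsBdd

set_option autoImplicit false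

namespace Pool.Agent.Helper294.HallC


theorem gap_all (hp : HypP) (h0 : Hyp0) {G Q : Type} [Group G] [Group Q] (hG : Group.FG G)
    (hQ : PC Q) (f : G →* Q) (hf : Function.Surjective f)
    (hab : ∀ x ∈ f.ker, ∀ y ∈ f.ker, x * y = y * x) :
    ∃ m : ℕ, ∀ (n : ℕ) (X : ℕ → Set G),
      (∀ i < n, Subgroup.centralizer (X i) ≤ Subgroup.centralizer (X (i + 1))) →
      {i : ℕ | i < n ∧ Subgroup.centralizer (X i) < Subgroup.centralizer (X (i + 1))}.ncard
        ≤ m := by
  obtain ⟨A, _, _, ι, hι⟩ := conj_model f hf hab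
  have hfgm : FGM Q A := conj_fgm f hf ι hι (fng_of_fp hG (pc_fp hQ) f hf)
  have hcyc : Cyc Q A := cyc_all hp h0 hQ hfgm
  have hE : Erem G := erem_ext f ι hι (erem_pc hp h0 hQ) hcyc (tors_bdd (noe_of_fg hQ hfgm))
  exact gap_grp hQ f ι hι hcyc hE

end Pool.Agent.Helper294.HallC
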