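import Pool.Agent.Helper294.HallC.Defs
import Pool.Agent.Helper294.HallC.GapAll

set_option autoImplicit false

namespace Pool.Agent.Helper294.HallC


theorem fin_S01169 (hp : HypP) (h0 : Hyp0) :
    ∀ (G : Type) [Group G], Group.FG G →
      (∃ (Q : Type) (_ : Group Q) (f : G →* Q), Function.Surjective f ∧ IsSolvable Q ∧
        (∀ H : Subgroup Q, H.FG) ∧ ∀ x ∈ f.ker, ∀ y ∈ f.ker, x * y = y * x) →
      ∀ s : ℕ → Set G,
        (∀ n, Subgroup.centralizer (s n) ≤ Subgroup.centralizer (s (n + 1))) →
        ∃ N : ℕ, ∀ n, N ≤ n → Subgroup.centralizer (s n) = Subgroup.centralizer (s N) := by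
  intro G _ hG hex s hs
  obtain ⟨Q, instQ, f, hf, hsol, hfg, hab⟩ := hex
  letI := instQ
  obtain ⟨m, hm⟩ := gap_all hp h0 hG (⟨hsol, hfg⟩ : PC Q) f hf hab
  by_contra hcon
  push Not at hcon
  have hinf : {i : ℕ | Subgroup.centralizer (s i) < Subgroup.centralizer (s (i + 1))}.Infinite := by
    intro hfin
    obtain ⟨N, hN⟩ := hfin.bddAbove
    have hstep : ∀ i, N + 1 ≤ i →
        Subgroup.centralizer (s (i + 1)) = Subgroup.centralizer (s i) := by
      intro i hi
      by_contra hne
      have hlt : Subgroup.centralizer (s i) < Subgroup.centralizer (s (i + 1)) :=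
        lt_of_le_of_ne (hs i) (fun h => hne h.symm)
      have := hN hlt
      omega
    have hconst : ∀ k, Subgroup.centralizer (s (N + 1 + k)) =
        Subgroup.centralizer (s (N + 1)) := by
      intro k
      induction k with
      | zero => rfl
      | succ k ih =>
        have := hstep (N + 1 + k) (by omega)
        rw [← ih, ← this]
        rfl
    obtain ⟨n, hn, hne⟩ := hcon (N + 1)
    apply hne
    obtain ⟨k, rfl⟩ := Nat.exists_eq_add_of_le hn
    exact hconst k
  obtain ⟨t, ht, htc⟩ := hinf.exists_subset_card_eq (m + 1)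
  have h1 := hm (t.sup id + 1) s (fun i _ => hs i)
  have hsub : (t : Set ℕ) ⊆ {i : ℕ | i < t.sup id + 1 ∧
      Subgroup.centralizer (s i) < Subgroup.centralizer (s (i + 1))} := by
    intro i hi
    refine ⟨?_, ht hi⟩
    have : id i ≤ t.sup id := Finset.le_sup (f := id) (by exact_mod_cast hi)
    simp only [id] at this
    omega
  have hfin : {i : ℕ | i < t.sup id + 1 ∧
      Subgroup.centralizer (s i) < Subgroup.centralizer (s (i + 1))}.Finite :=
    (Set.finite_lt_nat (t.sup id + 1)).subset (fun i hi => hi.1)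
  have h2 := Set.ncard_le_ncard hsub hfin
  rw [Set.ncard_coe_finset, htc] at h2
  omega

end Pool.Agent.Helper294.HallC
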