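import Pool.Agent.Helper294.HallC.Defs
import Pool.Agent.Helper294.HallC.CycAll
import Pool.Agent.Helper294.HallC.NilOfCyc

set_option autoImplicit false

namespace Pool.Agent.Helper294.HallC


theorem fin_S01619 (hp : HypP) (h0 : Hyp0) :
    ∀ (Γ : Type) [Group Γ], IsSolvable Γ → (∀ H : Subgroup Γ, H.FG) →
      ∀ (A : Type) [AddCommGroup A] [DistribMulAction Γ A],
        (∃ S : Finset A, AddSubgroup.closure {a : A | ∃ g : Γ, ∃ s ∈ S, a = g • s} = ⊤) →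
        Nontrivial A →
        ∃ Y : AddSubgroup A, Y ≠ ⊥ ∧ (∀ g : Γ, ∀ y ∈ Y, g • y ∈ Y) ∧
          (∃ h : ℕ, ∀ H : Subgroup Γ, ∀ y ∈ Y,
            (∃ n : ℕ, ∀ l : List Γ, l.length = n → (∀ x ∈ l, x ∈ H) →
                l.foldl (fun (b : A) (x : Γ) => x • b - b) y = 0) →
            ∀ l : List Γ, l.length = h → (∀ x ∈ l, x ∈ H) →
                l.foldl (fun (b : A) (x : Γ) => x • b - b) y = 0) ∧
          (∃ e : ℕ, 0 < e ∧ ∀ x : Γ, ∀ n : ℕ, 0 < n → ∀ y ∈ Y,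
            x ^ n • y = y → x ^ e • y = y) := by
  intro Γ _ hsolv hfg A _ _ hA hnt
  have hPC : PC Γ := ⟨hsolv, hfg⟩
  have hC : Cyc Γ A := cyc_all hp h0 hPC hA
  obtain ⟨m, hm⟩ := nil_of_cyc hPC hC
  obtain ⟨h, e, he, hce⟩ := hC
  refine ⟨⊤, ?_, fun _ _ _ => AddSubgroup.mem_top _, ⟨m, ?_⟩, ⟨e, he, ?_⟩⟩
  · obtain ⟨a, ha⟩ := exists_ne (0 : A)
    intro hbot
    apply ha
    have : a ∈ (⊤ : AddSubgroup A) := AddSubgroup.mem_top _
    rw [hbot] at this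
    exact (AddSubgroup.mem_bot).1 this
  · intro H y _ hn l hl hx
    exact hm H y hn l hl hx
  · intro x n hn y _ hy
    exact (hce x y).2 ⟨n, hn, hy⟩

end Pool.Agent.Helper294.HallC
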