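import Pool.Agent.Helper294.HallC.Defs
import Pool.Agent.Helper294.HallC.GapAll

set_option autoImplicit false

namespace Pool.Agent.Helper294.HallC


theorem fin_S01971 (hp : HypP) (h0 : Hyp0) :
    ∀ (G : Type) [Group G], Group.FG G →
      ∀ (A : Subgroup G) [A.Normal],
        (∀ a ∈ A, ∀ b ∈ A, a * b = b * a) →
        IsSolvable (G ⧸ A) →
        (∀ K : Subgroup (G ⧸ A), K.FG) →
        ∃ m : ℕ, ∀ (n : ℕ) (H : ℕ → Subgroup G),
          (∀ i ≤ n, ∃ k : ℕ, ∃ K : ℕ → Subgroup G,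
              K 0 = H i ∧ K k = ⊤ ∧
              ∀ j < k, K j ≤ K (j + 1) ∧ ((K j).subgroupOf (K (j + 1))).Normal) →
          (∀ i < n, Subgroup.centralizer ((H i : Set G)) ≤
              Subgroup.centralizer ((H (i + 1) : Set G))) →
          {i : ℕ | i < n ∧ Subgroup.centralizer ((H i : Set G)) <
              Subgroup.centralizer ((H (i + 1) : Set G))}.ncard ≤ m := by
  intro G _ hG A _ hab hsol hfg
  obtain ⟨m, hm⟩ := gap_all hp h0 hG (Q := G ⧸ A) ⟨hsol, hfg⟩ (QuotientGroup.mk' A)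
    (QuotientGroup.mk'_surjective A) (by
      intro x hx y hy
      rw [QuotientGroup.ker_mk'] at hx hy
      exact hab x hx y hy)
  refine ⟨m, ?_⟩
  intro n H _ hH
  exact hm n (fun i => (H i : Set G)) hH

end Pool.Agent.Helper294.HallC
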