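import Pool.Agent.Helper294.HallC.Defs
import Pool.Agent.Helper294.HallC.CycOfT0
import Pool.Agent.Helper294.HallC.EmbedQ

set_option autoImplicit false

namespace Pool.Agent.Helper294.HallC


theorem hyp0_of (hm : ∀ (Q : Type) [Group Q], PC Q → MainFor Q) : Hyp0 := by
  intro Γ A _ _ _ hPC hF htf
  obtain ⟨V, _, _, _, j, hj, heq, hS⟩ := embed_q hF htf
  obtain ⟨h, e, he, hc⟩ := cyc_of_t0 (hm Γ hPC ℚ Γ V (MonoidHom.id Γ) hS)
  have hdel : ∀ (g : Γ) (n : ℕ) (a : A), j ((del g)^[n] a) = (del g)^[n] (j a) := by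
    intro g n
    induction n with
    | zero => intro a; rfl
    | succ n ih =>
      intro a
      rw [Function.iterate_succ_apply, Function.iterate_succ_apply, ih]
      congr 1
      unfold del
      rw [map_sub, heq]
  refine ⟨h, e, he, fun g a => ⟨?_, ?_⟩⟩
  · rintro ⟨n, hn⟩
    apply hj
    rw [hdel, map_zero]
    apply (hc g (j a)).1
    exact ⟨n, by rw [← hdel, hn, map_zero]⟩
  · rintro ⟨n, hn, hna⟩
    apply hj
    rw [heq]
    apply (hc g (j a)).2
    exact ⟨n, hn, by rw [← heq, hna]⟩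

end Pool.Agent.Helper294.HallC
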