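import Pool.Agent.Helper294.HallC.Defs
import Pool.Agent.Helper294.HallC.CycOfTp

set_option autoImplicit false

namespace Pool.Agent.Helper294.HallC



theorem hypp_of (hm : ∀ (Q : Type) [Group Q], PC Q → MainFor Q) : HypP := by
  intro p Γ A _ _ _ hp hPC hFG hpA
  haveI : Fact p.Prime := ⟨hp⟩
  letI : Module (ZMod p) A := AddCommGroup.zmodModule (n := p) hpA
  apply cyc_of_tp p
  apply hm Γ hPC (ZMod p) Γ A (MonoidHom.id Γ)
  refine ⟨?_, ?_, ?_⟩
  · intro g
    refine ⟨RingEquiv.refl _, ?_⟩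
    intro k x
    exact ZMod.map_smul (ac g : A ≃+ A) k x
  · intro g hg
    have hg' : g = 1 := hg
    subst hg'
    exact ⟨1, fun a => by rw [one_smul, one_smul]⟩
  · obtain ⟨S, hS⟩ := hFG
    refine ⟨S, ?_⟩
    rw [eq_top_iff]
    intro x _
    have hx : x ∈ AddSubgroup.closure {a : A | ∃ g : Γ, ∃ s ∈ S, a = g • s} := by
      rw [hS]; trivial
    have hle : AddSubgroup.closure {a : A | ∃ g : Γ, ∃ s ∈ S, a = g • s}
        ≤ (Submodule.span (ZMod p) {x : A | ∃ g : Γ, ∃ s ∈ S, x = g • s}).toAddSubgroup := by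
      rw [AddSubgroup.closure_le]
      exact Submodule.subset_span
    exact hle hx


end Pool.Agent.Helper294.HallC
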